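import Pool.Agent.Lib.MP_305fdd_al.Su.M.Main2
import Pool.Agent.Lib.MP_305fdd_al.Su.AA.Mod
import Pool.Agent.Lib.MP_305fdd_al.Su.Min.H

/-!
# MP_305fdd_al, surface groups, MODEL: nilpotence

`surf_nil`: a Cartier operator is nilpotent on the ideal generated by the traces; `model`: the output of
the block M in the form used by the algebraic assembly.
-/

set_option autoImplicit false

namespace Pool.Agent.SuM

open Matrix (SpecialLinearGroup)
open Pool.Agent.Lib.MP_305fdd_al Pool.Agent.MP_305fdd_al Pool.Agent.FrN Pool.Agent.FrAsm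
  Pool.Agent.Su Pool.Agent.SuSM Pool.Agent.SuCO Pool.Agent.SuS Pool.Agent.SuL

/-- the identity -/
def natId (G : Type) [Group G] : NatBij G G where
  toFun _ _ _ θ := θ
  invFun _ _ _ θ := θ
  left_inv _ _ _ _ := rfl
  right_inv _ _ _ _ := rfl
  nat _ _ := rfl

variable {K F : Type} [Field K] [Field F] [Algebra (ZMod 2) K] [Algebra (ZMod 2) F] [Algebra K F]

/-- NILPOTENCE for the surface group -/
theorem surf_nil {g : ℕ} (hg : 2 ≤ g) (T : SurfaceGroup g → K)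
    (ρ : SurfaceGroup g →* SpecialLinearGroup (Fin 2) F)
    (tr : ∀ g, (ρ g).1.trace = algebraMap K F (T g)) (h : Gn 2 ρ) (fracK : Frc (BB 2 T))
    (fracF : Frc (OO 2 ρ)) : NIL T := by
  have hfg : Group.FG (SurfaceGroup g) := SuPts.fg_surf g
  have trF : Algebra.trdeg (ZMod 2) F + 3 = ((6 * g : ℕ) : Cardinal) := by
    rw [trdeg_eq (natId _) hg h fracF]
    have h3 : 6 * g - 3 + 3 = 6 * g := by omega
    rw [← h3]
    push_cast
    rfl
  have pts : Pts2 ρ := fun r => SuPts.Gn_pts hg (natId _) h (ZMod 2) r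
  obtain ⟨Φ, h1, h2, -, h4, -, h6⟩ := surf_phi hg T ρ tr fracK fracF trF pts
  obtain ⟨a, ha, b, hb, hab⟩ := h.good
  rw [tr] at hab
  have hc0 : T (a * b * a⁻¹ * b⁻¹) ≠ 0 := fun h0 => hab (by rw [h0, map_zero])
  refine ⟨Φ, SuMin.logTy_fg (SuAA.BBfg (ρ := ρ) tr) fracK h1 ⟨1, by rw [h2]; exact one_ne_zero⟩,
    T (a * b * a⁻¹ * b⁻¹), Algebra.subset_adjoin ⟨_, rfl⟩, hc0, fun β hβ => ?_⟩
  refine h6 _ ?_
  have h7 := (MM T).smul_mem (⟨β, hβ⟩ : BB 2 T)
    (Submodule.subset_span ⟨a * b * a⁻¹ * b⁻¹, rfl⟩ : T (a * b * a⁻¹ * b⁻¹) ∈ MM T)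
  rw [mul_comm]
  exact h7

/-- **MODEL** in the form of the algebraic assembly -/
theorem model {g : ℕ} (hg : 2 ≤ g) : SuAA.Model g := by
  have hfg : Group.FG (SurfaceGroup g) := SuPts.fg_surf g
  obtain ⟨F, _, _, ρ, h, hf⟩ := exists_gn (zz_prime (natId (SurfaceGroup g)) hg)
  refine ⟨FrH.KK ρ, F, inferInstance, inferInstance, inferInstance, inferInstance, inferInstance,
    FrH.TT ρ, ρ, fun _ => rfl, h, FrH.frc_KK ρ, ?_⟩
  exact surf_nil hg (FrH.TT ρ) ρ (fun _ => rfl) h (FrH.frc_KK ρ) hf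

end Pool.Agent.SuM
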