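import Mathlib

/-!
# MP_305fdd_al, surface groups, model block: the key identity

`R` is a ring of characteristic two, `P`, `s`, `J` are in `SL_2(R)`, `J = (0 1; 1 t)`,
`z = J s J⁻¹ s⁻¹ P`, `M = P J`, `g = M v + w` (`v`, `w` the columns of `s`), `f = T(M) + t`.
If the squares of `g₀`, `g₁`, `f` are zero then `T(z) (z⁻¹ + 1) = g₀ g₁ f`.
-/

set_option autoImplicit false
set_option maxHeartbeats 4000000

namespace Pool.Agent.SuM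

private theorem key_c00 {R : Type} [CommRing R] (h2 : (2 : R) = 0) (m00 m01 m10 m11 v0 v1 g0 g1 f : R)
    (hM : m00 * m11 - (1 - m01 * m10) = 0) (hg0 : g0 ^ 2 = 0) (hg1 : g1 ^ 2 = 0) (_hf : f ^ 2 = 0) :
    (g0 * (m10 * (g0 - (m00 * v0 + m01 * v1)) + m11 * (g1 - (m10 * v0 + m11 * v1)) + v1 + (f -
    m00 - m11) * (g1 - (m10 * v0 + m11 * v1))) + g1 * (m00 * (g0 - (m00 * v0 + m01 * v1)) + m01
    * (g1 - (m10 * v0 + m11 * v1)) + v0 + (f - m00 - m11) * (g0 - (m00 * v0 + m01 * v1)))) * g0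
    =
      g0 * g1 * f * (g0 - (m00 * v0 + m01 * v1)) := by
  linear_combination
    (f*g1 - f*m10*v0 - f*m11*v1 + g0*m10 - g1*m00 - g1*m11 + m00*m11*v1 - m01*m10*v1 + v1) *
    hg0 + (g0*m01) * hg1 + (g0*g1*v0) * hM + (- g0*g1*m01*m10*v0 + g0*g1*v0) * h2

private theorem key_c10 {R : Type} [CommRing R] (h2 : (2 : R) = 0) (m00 m01 m10 m11 v0 v1 g0 g1 f : R)
    (hM : m00 * m11 - (1 - m01 * m10) = 0) (hg0 : g0 ^ 2 = 0) (hg1 : g1 ^ 2 = 0) (_hf : f ^ 2 = 0) :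
    (g0 * (m10 * (g0 - (m00 * v0 + m01 * v1)) + m11 * (g1 - (m10 * v0 + m11 * v1)) + v1 + (f -
    m00 - m11) * (g1 - (m10 * v0 + m11 * v1))) + g1 * (m00 * (g0 - (m00 * v0 + m01 * v1)) + m01
    * (g1 - (m10 * v0 + m11 * v1)) + v0 + (f - m00 - m11) * (g0 - (m00 * v0 + m01 * v1)))) * g1
    =
      g0 * g1 * f * (g1 - (m10 * v0 + m11 * v1)) := by
  linear_combination
    (g1*m10) * hg0 + (f*g0 - f*m00*v0 - f*m01*v1 - g0*m00 - g0*m11 + g1*m01 + m00*m11*v0 -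
    m01*m10*v0 + v0) * hg1 + (g0*g1*v1) * hM + (- g0*g1*m01*m10*v1 + g0*g1*v1) * h2

private theorem key_c01 {R : Type} [CommRing R] (h2 : (2 : R) = 0) (m00 m01 m10 m11 v0 v1 g0 g1 f : R)
    (hM : m00 * m11 - (1 - m01 * m10) = 0) (hg0 : g0 ^ 2 = 0) (hg1 : g1 ^ 2 = 0) (hf : f ^ 2 = 0) :
    (g0 * (m10 * (g0 - (m00 * v0 + m01 * v1)) + m11 * (g1 - (m10 * v0 + m11 * v1)) + v1 + (f -
    m00 - m11) * (g1 - (m10 * v0 + m11 * v1))) + g1 * (m00 * (g0 - (m00 * v0 + m01 * v1)) + m01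
    * (g1 - (m10 * v0 + m11 * v1)) + v0 + (f - m00 - m11) * (g0 - (m00 * v0 + m01 * v1)))) *
    (m00 * (g0 - (m00 * v0 + m01 * v1)) + m01 * (g1 - (m10 * v0 + m11 * v1)) + v0 + (f - m00 -
    m11) * (g0 - (m00 * v0 + m01 * v1))) =
      g0 * g1 * f * (v0 + (f - m00 - m11) * (g0 - (m00 * v0 + m01 * v1))) := by
  linear_combination
    (f*g0*m10 - 2*f*g1*m11 - f*m00*m10*v0 + f*m00*m11*v1 - 2*f*m01*m10*v1 + f*m10*m11*v0 +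
    f*m11^2*v1 + f*v1 + f^2*g1 - f^2*m10*v0 - f^2*m11*v1 - g0*m10*m11 + g1*m00*m11 + g1*m01*m10
    + g1*m11^2 + m00*m10*m11*v0 - m00*m11^2*v1 + m01*m10*m11*v1 - m01*m10^2*v0 + m10*v0 -
    m11*v1) * hg0 + (3*f*g0*m01 - 2*f*m00*m01*v0 - 2*f*m01^2*v1 - g0*m00*m01 - 2*g0*m01*m11 +
    g1*m01^2 + 2*m00*m01*m11*v0 + 2*m01*v0 - 2*m01^2*m10*v0) * hg1 + (- 2*g0*g1*m00*v0 -
    2*g0*g1*m01*v1 + g0*m00*m10*v0^2 + g0*m00*m11*v0*v1 + g0*m01*m10*v0*v1 + g0*m01*m11*v1^2 +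
    2*g1*m00*m01*v0*v1 + g1*m00^2*v0^2 + g1*m01^2*v1^2) * hf + (4*f*g0*g1*v0 - f*g0*m00*v0*v1 -
    f*g0*m01*v1^2 - f*g0*m10*v0^2 - f*g0*m11*v0*v1 - 2*f*g1*m00*v0^2 - 2*f*g1*m01*v0*v1 -
    g0*g1*m00*v0 + g0*g1*m01*v1 - 2*g0*g1*m11*v0 + g0*m00*m11*v0*v1 - 3*g0*m01*m10*v0*v1 +
    3*g0*v0*v1 + g1*m00*m11*v0^2 - 3*g1*m01*m10*v0^2 + 3*g1*v0^2) * hM + (-
    4*f*g0*g1*m01*m10*v0 + 3*f*g0*g1*v0 + f*g0*m00*m01*m10*v0*v1 - f*g0*m00*v0*v1 +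
    f*g0*m01*m10*m11*v0*v1 + f*g0*m01*m10^2*v0^2 - f*g0*m01*v1^2 + f*g0*m01^2*m10*v1^2 -
    f*g0*m10*v0^2 - f*g0*m11*v0*v1 + 2*f*g1*m00*m01*m10*v0^2 - 2*f*g1*m00*v0^2 -
    2*f*g1*m01*v0*v1 + 2*f*g1*m01^2*m10*v0*v1 + g0*g1*m00*m01*m10*v0 - g0*g1*m00*v0 +
    2*g0*g1*m01*m10*m11*v0 + g0*g1*m01*v1 - g0*g1*m01^2*m10*v1 - 2*g0*g1*m11*v0 -
    4*g0*m01*m10*v0*v1 + 2*g0*m01^2*m10^2*v0*v1 + 2*g0*v0*v1 - 4*g1*m01*m10*v0^2 +
    2*g1*m01^2*m10^2*v0^2 + 2*g1*v0^2) * h2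

private theorem key_c11 {R : Type} [CommRing R] (h2 : (2 : R) = 0) (m00 m01 m10 m11 v0 v1 g0 g1 f : R)
    (hM : m00 * m11 - (1 - m01 * m10) = 0) (hg0 : g0 ^ 2 = 0) (hg1 : g1 ^ 2 = 0) (hf : f ^ 2 = 0) :
    (g0 * (m10 * (g0 - (m00 * v0 + m01 * v1)) + m11 * (g1 - (m10 * v0 + m11 * v1)) + v1 + (f -
    m00 - m11) * (g1 - (m10 * v0 + m11 * v1))) + g1 * (m00 * (g0 - (m00 * v0 + m01 * v1)) + m01
    * (g1 - (m10 * v0 + m11 * v1)) + v0 + (f - m00 - m11) * (g0 - (m00 * v0 + m01 * v1)))) *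
    (m10 * (g0 - (m00 * v0 + m01 * v1)) + m11 * (g1 - (m10 * v0 + m11 * v1)) + v1 + (f - m00 -
    m11) * (g1 - (m10 * v0 + m11 * v1))) =
      g0 * g1 * f * (v1 + (f - m00 - m11) * (g1 - (m10 * v0 + m11 * v1))) := by
  linear_combination
    (3*f*g1*m10 - 2*f*m10*m11*v1 - 2*f*m10^2*v0 + g0*m10^2 - 2*g1*m00*m10 - g1*m10*m11 +
    2*m00*m10*m11*v1 - 2*m01*m10^2*v1 + 2*m10*v1) * hg0 + (- 2*f*g0*m00 + f*g1*m01 +
    f*m00*m01*v1 + f*m00*m11*v0 + f*m00^2*v0 - 2*f*m01*m10*v0 - f*m01*m11*v1 + f*v0 + f^2*g0 -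
    f^2*m00*v0 - f^2*m01*v1 + g0*m00*m11 + g0*m00^2 + g0*m01*m10 - g1*m00*m01 + m00*m01*m10*v0
    + m00*m01*m11*v1 - m00*v0 - m00^2*m11*v0 + m01*v1 - m01^2*m10*v1) * hg1 + (- 2*g0*g1*m10*v0
    - 2*g0*g1*m11*v1 + 2*g0*m10*m11*v0*v1 + g0*m10^2*v0^2 + g0*m11^2*v1^2 + g1*m00*m10*v0^2 +
    g1*m00*m11*v0*v1 + g1*m01*m10*v0*v1 + g1*m01*m11*v1^2) * hf + (4*f*g0*g1*v1 -
    2*f*g0*m10*v0*v1 - 2*f*g0*m11*v1^2 - f*g1*m00*v0*v1 - f*g1*m01*v1^2 - f*g1*m10*v0^2 -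
    f*g1*m11*v0*v1 - 2*g0*g1*m00*v1 + g0*g1*m10*v0 - g0*g1*m11*v1 + g0*m00*m11*v1^2 -
    3*g0*m01*m10*v1^2 + 3*g0*v1^2 + g1*m00*m11*v0*v1 - 3*g1*m01*m10*v0*v1 + 3*g1*v0*v1) * hM +
    (- 4*f*g0*g1*m01*m10*v1 + 3*f*g0*g1*v1 + 2*f*g0*m01*m10*m11*v1^2 + 2*f*g0*m01*m10^2*v0*v1 -
    2*f*g0*m10*v0*v1 - 2*f*g0*m11*v1^2 + f*g1*m00*m01*m10*v0*v1 - f*g1*m00*v0*v1 +
    f*g1*m01*m10*m11*v0*v1 + f*g1*m01*m10^2*v0^2 - f*g1*m01*v1^2 + f*g1*m01^2*m10*v1^2 -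
    f*g1*m10*v0^2 - f*g1*m11*v0*v1 + 2*g0*g1*m00*m01*m10*v1 - 2*g0*g1*m00*v1 +
    g0*g1*m01*m10*m11*v1 - g0*g1*m01*m10^2*v0 + g0*g1*m10*v0 - g0*g1*m11*v1 - 4*g0*m01*m10*v1^2
    + 2*g0*m01^2*m10^2*v1^2 + 2*g0*v1^2 - 4*g1*m01*m10*v0*v1 + 2*g1*m01^2*m10^2*v0*v1 +
    2*g1*v0*v1) * h2


/-- The identities for the matrix `N = M s + s J`. -/
theorem key_N {R : Type} [CommRing R] (h2 : (2 : R) = 0) (M s J : Matrix (Fin 2) (Fin 2) R)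
    (t g0 g1 f : R) (hJ : J = !![0, 1; 1, t]) (hM : M.det = 1) (hg0 : g0 = (M * s) 0 0 + s 0 1)
    (hg1 : g1 = (M * s) 1 0 + s 1 1) (hf : f = M 0 0 + M 1 1 + t) (hg0' : g0 ^ 2 = 0)
    (hg1' : g1 ^ 2 = 0) (hf' : f ^ 2 = 0) :
    (M * s + s * J).det • (M * s + s * J) = (g0 * g1 * f) • (s * J) ∧
      (g0 * g1 * f) • (M * s + s * J) = 0 := by
  obtain ⟨m00, e1⟩ : ∃ x, x = M 0 0 := ⟨_, rfl⟩
  obtain ⟨m01, e2⟩ : ∃ x, x = M 0 1 := ⟨_, rfl⟩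
  obtain ⟨m10, e3⟩ : ∃ x, x = M 1 0 := ⟨_, rfl⟩
  obtain ⟨m11, e4⟩ : ∃ x, x = M 1 1 := ⟨_, rfl⟩
  obtain ⟨v0, e5⟩ : ∃ x, x = s 0 0 := ⟨_, rfl⟩
  obtain ⟨v1, e6⟩ : ∃ x, x = s 1 0 := ⟨_, rfl⟩
  obtain ⟨w0, e7⟩ : ∃ x, x = s 0 1 := ⟨_, rfl⟩
  obtain ⟨w1, e8⟩ : ∃ x, x = s 1 1 := ⟨_, rfl⟩
  rw [Matrix.det_fin_two, ← e1, ← e2, ← e3, ← e4] at hM
  rw [Matrix.mul_apply, Fin.sum_univ_two, ← e1, ← e2, ← e5, ← e6, ← e7] at hg0
  rw [Matrix.mul_apply, Fin.sum_univ_two, ← e3, ← e4, ← e5, ← e6, ← e8] at hg1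
  rw [← e1, ← e4] at hf
  have hM' : m00 * m11 - (1 - m01 * m10) = 0 := by linear_combination hM + (m01 * m10) * h2
  have hw0 : w0 = g0 - (m00 * v0 + m01 * v1) := by linear_combination -hg0
  have hw1 : w1 = g1 - (m10 * v0 + m11 * v1) := by linear_combination -hg1
  have ht : t = f - m00 - m11 := by linear_combination -hf
  have n00 : (M * s + s * J) 0 0 = g0 := by
    rw [Matrix.add_apply, Matrix.mul_apply, Matrix.mul_apply, Fin.sum_univ_two, Fin.sum_univ_two,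
      hJ, ← e1, ← e2, ← e5, ← e6, ← e7]
    simp
    linear_combination -hg0
  have n10 : (M * s + s * J) 1 0 = g1 := by
    rw [Matrix.add_apply, Matrix.mul_apply, Matrix.mul_apply, Fin.sum_univ_two, Fin.sum_univ_two,
      hJ, ← e3, ← e4, ← e5, ← e6, ← e8]
    simp
    linear_combination -hg1
  have n01 : (M * s + s * J) 0 1 = m00 * w0 + m01 * w1 + v0 + t * w0 := by
    rw [Matrix.add_apply, Matrix.mul_apply, Matrix.mul_apply, Fin.sum_univ_two, Fin.sum_univ_two,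
      hJ, ← e1, ← e2, ← e5, ← e7, ← e8]
    simp
    ring
  have n11 : (M * s + s * J) 1 1 = m10 * w0 + m11 * w1 + v1 + t * w1 := by
    rw [Matrix.add_apply, Matrix.mul_apply, Matrix.mul_apply, Fin.sum_univ_two, Fin.sum_univ_two,
      hJ, ← e3, ← e4, ← e6, ← e7, ← e8]
    simp
    ring
  have q00 : (s * J) 0 0 = w0 := by
    rw [Matrix.mul_apply, Fin.sum_univ_two, hJ, ← e5, ← e7]
    simp
  have q10 : (s * J) 1 0 = w1 := by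
    rw [Matrix.mul_apply, Fin.sum_univ_two, hJ, ← e6, ← e8]
    simp
  have q01 : (s * J) 0 1 = v0 + t * w0 := by
    rw [Matrix.mul_apply, Fin.sum_univ_two, hJ, ← e5, ← e7]
    simp
    ring
  have q11 : (s * J) 1 1 = v1 + t * w1 := by
    rw [Matrix.mul_apply, Fin.sum_univ_two, hJ, ← e6, ← e8]
    simp
    ring
  have hd : (M * s + s * J).det = g0 * (m10 * w0 + m11 * w1 + v1 + t * w1) +
      g1 * (m00 * w0 + m01 * w1 + v0 + t * w0) := by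
    rw [Matrix.det_fin_two, n00, n01, n10, n11]
    linear_combination (-(g1 * (m00 * w0 + m01 * w1 + v0 + t * w0))) * h2
  constructor
  · ext i j
    fin_cases i <;> fin_cases j
    · change (M * s + s * J).det * (M * s + s * J) 0 0 = g0 * g1 * f * (s * J) 0 0
      rw [hd, n00, q00, ht, hw0, hw1]
      exact key_c00 h2 m00 m01 m10 m11 v0 v1 g0 g1 f hM' hg0' hg1' hf'
    · change (M * s + s * J).det * (M * s + s * J) 0 1 = g0 * g1 * f * (s * J) 0 1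
      rw [hd, n01, q01, ht, hw0, hw1]
      exact key_c01 h2 m00 m01 m10 m11 v0 v1 g0 g1 f hM' hg0' hg1' hf'
    · change (M * s + s * J).det * (M * s + s * J) 1 0 = g0 * g1 * f * (s * J) 1 0
      rw [hd, n10, q10, ht, hw0, hw1]
      exact key_c10 h2 m00 m01 m10 m11 v0 v1 g0 g1 f hM' hg0' hg1' hf'
    · change (M * s + s * J).det * (M * s + s * J) 1 1 = g0 * g1 * f * (s * J) 1 1
      rw [hd, n11, q11, ht, hw0, hw1]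
      exact key_c11 h2 m00 m01 m10 m11 v0 v1 g0 g1 f hM' hg0' hg1' hf'
  · ext i j
    fin_cases i <;> fin_cases j
    · change g0 * g1 * f * (M * s + s * J) 0 0 = 0
      rw [n00]
      linear_combination (g1 * f) * hg0'
    · change g0 * g1 * f * (M * s + s * J) 0 1 = 0
      have h01 : m00 * w0 + m01 * w1 + v0 + t * w0 = f * (m00 * v0 + m01 * v1) + (m00 + t) * g0 +
          m01 * g1 := by
        rw [hg0, hg1, hf]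
        linear_combination (-v0) * hM' + (- m00*m01*v1 - m00*t*v0 - m00^2*v0 - m01*m11*v1 -
          m01*t*v1) * h2
      rw [n01, h01]
      linear_combination (g1 * f * (m00 + t)) * hg0' + (g0 * f * m01) * hg1' +
        (g0 * g1 * (m00 * v0 + m01 * v1)) * hf'
    · change g0 * g1 * f * (M * s + s * J) 1 0 = 0
      rw [n10]
      linear_combination (g0 * f) * hg1'
    · change g0 * g1 * f * (M * s + s * J) 1 1 = 0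
      have h11 : m10 * w0 + m11 * w1 + v1 + t * w1 = f * (m10 * v0 + m11 * v1) + m10 * g0 +
          (m11 + t) * g1 := by
        rw [hg0, hg1, hf]
        linear_combination (-v1) * hM' + (- m00*m10*v0 - m10*m11*v0 - m10*t*v0 - m11*t*v1 -
          m11^2*v1) * h2
      rw [n11, h11]
      linear_combination (g1 * f * m10) * hg0' + (g0 * f * (m11 + t)) * hg1' +
        (g0 * g1 * (m10 * v0 + m11 * v1)) * hf'

open Matrix in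
/-- **The key identity.** -/
theorem key {R : Type} [CommRing R] (h2 : (2 : R) = 0) (P s J : SpecialLinearGroup (Fin 2) R)
    (t g0 g1 f : R) (hJ : J.1 = !![0, 1; 1, t]) (hg0 : g0 = (P.1 * J.1 * s.1) 0 0 + s.1 0 1)
    (hg1 : g1 = (P.1 * J.1 * s.1) 1 0 + s.1 1 1)
    (hf : f = (P.1 * J.1) 0 0 + (P.1 * J.1) 1 1 + t) (hg0' : g0 ^ 2 = 0)
    (hg1' : g1 ^ 2 = 0) (hf' : f ^ 2 = 0) (z : SpecialLinearGroup (Fin 2) R)
    (hz : z = J * s * J⁻¹ * s⁻¹ * P) (w : Matrix (Fin 2) (Fin 2) R) :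
    z.1.trace • (w * z⁻¹.1 + w) = (g0 * g1 * f) • w := by
  have hM : (P.1 * J.1).det = 1 := by rw [det_mul, P.2, J.2, one_mul]
  obtain ⟨k1, k2⟩ := key_N h2 (P.1 * J.1) s.1 J.1 t g0 g1 f hJ hM hg0 hg1 hf hg0' hg1' hf'
  obtain ⟨N, hN⟩ : ∃ N, N = P.1 * J.1 * s.1 + s.1 * J.1 := ⟨_, rfl⟩
  rw [← hN] at k1 k2
  have mm : ∀ a b : SpecialLinearGroup (Fin 2) R, (a * b).1 = a.1 * b.1 := fun _ _ => rfl
  have e1 : P⁻¹.1 * (P.1 * J.1 * s.1) * (s⁻¹ * J⁻¹).1 = 1 := by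
    rw [← mm, ← mm, ← mm, ← mm]
    have : P⁻¹ * (P * J * s) * (s⁻¹ * J⁻¹) = 1 := by group
    rw [this]
    rfl
  have e2 : P⁻¹.1 * (s.1 * J.1) * (s⁻¹ * J⁻¹).1 = z⁻¹.1 := by
    rw [← mm, ← mm, ← mm]
    have : P⁻¹ * (s * J) * (s⁻¹ * J⁻¹) = z⁻¹ := by rw [hz]; group
    rw [this]
  have e3 : z⁻¹.1 + 1 = P⁻¹.1 * N * (s⁻¹ * J⁻¹).1 := by
    rw [hN, Matrix.mul_add, Matrix.add_mul, e1, e2, add_comm]
  have htr : z.1.trace = N.det := by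
    have h1 : (z⁻¹.1 + 1).det = N.det := by
      rw [e3, det_mul, det_mul, P⁻¹.2, (s⁻¹ * J⁻¹).2, one_mul, mul_one]
    have hi : z⁻¹.1 = z.1.adjugate := Matrix.SpecialLinearGroup.coe_inv z
    rw [← h1, hi, adjugate_fin_two, trace_fin_two, det_fin_two]
    have h3 := z.2
    rw [det_fin_two] at h3
    simp
    linear_combination (-1) * h3 - h2
  have e4 : z.1.trace • (z⁻¹.1 + 1) = (g0 * g1 * f) • z⁻¹.1 := by
    rw [e3, htr, ← e2, ← smul_mul_assoc, ← Matrix.mul_smul, k1, Matrix.mul_smul, smul_mul_assoc]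
  have e5 : (g0 * g1 * f) • (z⁻¹.1 + 1) = 0 := by
    rw [e3, ← smul_mul_assoc, ← Matrix.mul_smul, k2, Matrix.mul_zero, Matrix.zero_mul]
  have e6 : (g0 * g1 * f) • z⁻¹.1 = (g0 * g1 * f) • (1 : Matrix (Fin 2) (Fin 2) R) := by
    rw [smul_add] at e5
    have h3 : ∀ a b : Matrix (Fin 2) (Fin 2) R, a + b = 0 → a = b := by
      intro a b hab
      ext i j
      have h4 := congrFun (congrFun hab i) j
      rw [Matrix.add_apply, Matrix.zero_apply] at h4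
      linear_combination h4 - (b i j) * h2
    exact h3 _ _ e5
  have e7 : w * z⁻¹.1 + w = w * (z⁻¹.1 + 1) := by rw [Matrix.mul_add, Matrix.mul_one]
  rw [e7, ← Matrix.mul_smul, e4, e6, Matrix.mul_smul, Matrix.mul_one]

end Pool.Agent.SuM
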