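import Pool.Agent.Lib.MP_305fdd_al.Su.M.Hd
import Pool.Agent.Lib.MP_305fdd_al.Su.M.Key

/-!
# MP_305fdd_al, surface groups, model block: comparison with the slice (ring of functions of
`SL_2 ^ I`)

`x` is a point of `SL_2 ^ I` over the field `F`, `z = α β α⁻¹ β⁻¹ P`, `x(z) = 1`,
`x(α) = (0 1; 1 t)`.
-/

set_option autoImplicit false
set_option linter.unusedSectionVars false

namespace Pool.Agent.SuM

open MvPolynomial Pool.Agent.SuF

section comp

variable {I : Type} [Fintype I] {F : Type} [Field F] [Algebra (ZMod 2) F]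

/-- the functions `h` such that `CG (f h)` vanishes at `x` for all `f` -/
noncomputable def nn (x : I → Matrix.SpecialLinearGroup (Fin 2) F) : Ideal (AR I) where
  carrier := {h | ∀ f, ev x (CG (f * h)) = 0}
  add_mem' := by
    intro a b ha hb f
    rw [mul_add, map_add, map_add, ha f, hb f, add_zero]
  zero_mem' := by
    intro f
    rw [mul_zero, map_zero, map_zero]
  smul_mem' := by
    intro c a ha f
    rw [smul_eq_mul, ← mul_assoc]
    exact ha _

theorem mem_nn {x : I → Matrix.SpecialLinearGroup (Fin 2) F} {h : AR I} :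
    h ∈ nn x ↔ ∀ f, ev x (CG (f * h)) = 0 := Iff.rfl

theorem sq_mem_nn {x : I → Matrix.SpecialLinearGroup (Fin 2) F} {u : AR I} (hu : ev x u = 0) :
    u ^ 2 ∈ nn x := by
  intro f
  rw [mul_comm, CG_sq_mul, map_mul, hu, zero_mul]

/-- the functions `h` with `h S ∈ nn x` -/
noncomputable def nk (x : I → Matrix.SpecialLinearGroup (Fin 2) F) (S : AR I) : Ideal (AR I) where
  carrier := {h | h * S ∈ nn x}
  add_mem' := by
    intro a b ha hb
    change (a + b) * S ∈ nn x
    rw [add_mul]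
    exact add_mem ha hb
  zero_mem' := by
    change 0 * S ∈ nn x
    rw [zero_mul]
    exact zero_mem _
  smul_mem' := by
    intro c a ha
    change c * a * S ∈ nn x
    rw [mul_assoc]
    exact Ideal.mul_mem_left _ _ ha

theorem mem_nk {x : I → Matrix.SpecialLinearGroup (Fin 2) F} {S h : AR I} :
    h ∈ nk x S ↔ h * S ∈ nn x := Iff.rfl

variable (α β : I) (P : FreeGroup I)

/-- the word `α β α⁻¹ β⁻¹ P` -/
def zw : FreeGroup I := FreeGroup.of α * FreeGroup.of β * (FreeGroup.of α)⁻¹ *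
  (FreeGroup.of β)⁻¹ * P

/-- the matrix `(0 1; 1 α₂₂)` -/
noncomputable def jt : Matrix (Fin 2) (Fin 2) (AR I) := !![0, 1; 1, rM (FreeGroup.of α) 1 1]

/-- `(P J v)₁ + w₁` -/
noncomputable def e0 : AR I := (rM P * jt α * rM (FreeGroup.of β)) 0 0 + rM (FreeGroup.of β) 0 1

/-- `(P J v)₂ + w₂` -/
noncomputable def e1 : AR I := (rM P * jt α * rM (FreeGroup.of β)) 1 0 + rM (FreeGroup.of β) 1 1

/-- `T(P J) + t` -/
noncomputable def ef : AR I := (rM P * jt α) 0 0 + (rM P * jt α) 1 1 + rM (FreeGroup.of α) 1 1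

/-- `α₁₁ (α₂₁ + 1)` -/
noncomputable def es : AR I := rM (FreeGroup.of α) 0 0 * (rM (FreeGroup.of α) 1 0 + 1)

/-- the point `x` is in the slice -/
structure Sl (x : I → Matrix.SpecialLinearGroup (Fin 2) F) : Prop where
  a00 : (x α).1 0 0 = 0
  a10 : (x α).1 1 0 = 1
  rel : FreeGroup.lift x (zw α β P) = 1

variable {α β P} {x : I → Matrix.SpecialLinearGroup (Fin 2) F}

theorem Sl.a01 (h : Sl α β P x) : (x α).1 0 1 = 1 := by
  have h1 := (x α).2
  have h2 := two_zero F
  rw [Matrix.det_fin_two, h.a00, h.a10] at h1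
  linear_combination -h1 - h2

theorem Sl.eqJ (h : Sl α β P x) : (x α).1 = !![0, 1; 1, (x α).1 1 1] := by
  ext i j
  fin_cases i <;> fin_cases j
  · exact h.a00
  · exact h.a01
  · exact h.a10
  · rfl

theorem Sl.map_jt (h : Sl α β P x) : (jt α).map (ev x) = (x α).1 := by
  rw [h.eqJ]
  ext i j
  fin_cases i <;> fin_cases j
  · exact map_zero (ev x)
  · exact map_one (ev x)
  · exact map_one (ev x)
  · change ev x (rM (FreeGroup.of α) 1 1) = _
    rw [ev_rM_apply, FreeGroup.lift_apply_of]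
    rfl

theorem Sl.rel' (h : Sl α β P x) : (FreeGroup.lift x P).1 * (x α).1 * (x β).1 =
    (x β).1 * (x α).1 := by
  have h1 := h.rel
  simp only [zw, map_mul, map_inv, FreeGroup.lift_apply_of] at h1
  have h2 : FreeGroup.lift x P * x α * x β = x β * x α := by
    have h3 : FreeGroup.lift x P = x β * x α * (x β)⁻¹ * (x α)⁻¹ := by
      rw [← mul_right_inj (x α * x β * (x α)⁻¹ * (x β)⁻¹), h1]
      group
    rw [h3]
    group
  exact congrArg (fun y : Matrix.SpecialLinearGroup (Fin 2) F => y.1) h2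

theorem mapmul (f : AR I →+* F) (a b : Matrix (Fin 2) (Fin 2) (AR I)) :
    (a * b).map f = a.map f * b.map f := Matrix.map_mul

theorem Sl.map3 (h : Sl α β P x) : (rM P * jt α * rM (FreeGroup.of β)).map (ev x) =
    (x β).1 * (x α).1 := by
  rw [mapmul, mapmul, ev_rM, ev_rM, h.map_jt, FreeGroup.lift_apply_of, h.rel']

theorem Sl.ev_e0 (h : Sl α β P x) : ev x (e0 α β P) = 0 := by
  have h1 := congrFun (congrFun h.map3 0) 0
  rw [Matrix.map_apply] at h1
  rw [e0, map_add, h1, ev_rM_apply, FreeGroup.lift_apply_of, Matrix.mul_apply, Fin.sum_univ_two,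
    h.a00, h.a10, mul_zero, zero_add, mul_one]
  exact addSelf _

theorem Sl.ev_e1 (h : Sl α β P x) : ev x (e1 α β P) = 0 := by
  have h1 := congrFun (congrFun h.map3 1) 0
  rw [Matrix.map_apply] at h1
  rw [e1, map_add, h1, ev_rM_apply, FreeGroup.lift_apply_of, Matrix.mul_apply, Fin.sum_univ_two,
    h.a00, h.a10, mul_zero, zero_add, mul_one]
  exact addSelf _

theorem Sl.tr (h : Sl α β P x) : ((FreeGroup.lift x P).1 * (x α).1).trace = (x α).1 1 1 := by
  have h1 : (FreeGroup.lift x P).1 * (x α).1 = (x β).1 * (x α).1 * ((x β)⁻¹).1 := by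
    rw [← h.rel', Matrix.mul_assoc _ (x β).1]
    have : (x β).1 * ((x β)⁻¹).1 = 1 :=
      congrArg (fun y : Matrix.SpecialLinearGroup (Fin 2) F => y.1) (mul_inv_cancel (x β))
    rw [this, Matrix.mul_one]
  rw [h1, Matrix.trace_mul_comm, ← Matrix.mul_assoc]
  have : ((x β)⁻¹).1 * (x β).1 = 1 :=
      congrArg (fun y : Matrix.SpecialLinearGroup (Fin 2) F => y.1) (inv_mul_cancel (x β))
  rw [this, Matrix.one_mul, Matrix.trace_fin_two, h.a00, zero_add]

theorem Sl.ev_ef (h : Sl α β P x) : ev x (ef α P) = 0 := by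
  have h1 : (rM P * jt α).map (ev x) = (FreeGroup.lift x P).1 * (x α).1 := by
    rw [mapmul, ev_rM, h.map_jt]
  have h2 := h.tr
  rw [← h1, Matrix.trace_fin_two, Matrix.map_apply, Matrix.map_apply] at h2
  rw [ef, map_add, map_add, h2, ev_rM_apply, FreeGroup.lift_apply_of]
  exact addSelf _

theorem Sl.ev_a00 (h : Sl α β P x) : ev x (rM (FreeGroup.of α) 0 0) = 0 := by
  rw [ev_rM_apply, FreeGroup.lift_apply_of, h.a00]

theorem Sl.ev_a10 (h : Sl α β P x) : ev x (rM (FreeGroup.of α) 1 0) = 1 := by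
  rw [ev_rM_apply, FreeGroup.lift_apply_of, h.a10]

/-- The key congruence modulo `nn x`. -/
theorem Sl.key (h : Sl α β P x) (w : FreeGroup I) :
    rT (zw α β P) * (rM (w * (zw α β P)⁻¹) 1 0 + rM w 1 0) * es α -
      e0 α β P * e1 α β P * ef α P * rM w 1 0 * es α ∈ nn x := by
  have h2 := two_zero (AR I)
  obtain ⟨φ, hφ⟩ : ∃ φ : AR I →+* AR I ⧸ nk x (es α), φ = Ideal.Quotient.mk _ := ⟨_, rfl⟩
  have h20 : (2 : AR I ⧸ nk x (es α)) = 0 := by
    rw [← map_ofNat φ 2, h2, map_zero]
  have hker : ∀ u, φ u = 0 ↔ u * es α ∈ nn x := by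
    intro u
    rw [hφ, Ideal.Quotient.eq_zero_iff_mem]
    rfl
  have hsq : ∀ u, ev x u = 0 → φ u ^ 2 = 0 := by
    intro u hu
    rw [← map_pow, hker]
    exact Ideal.mul_mem_right _ _ (sq_mem_nn hu)
  have h00 : φ (rM (FreeGroup.of α) 0 0) = 0 := by
    rw [hker, es, ← mul_assoc, ← pow_two]
    exact Ideal.mul_mem_right _ _ (sq_mem_nn h.ev_a00)
  have h10 : φ (rM (FreeGroup.of α) 1 0) = 1 := by
    have : φ (rM (FreeGroup.of α) 1 0 + 1) = 0 := by
      rw [hker, es]
      have e : (rM (FreeGroup.of α) 1 0 + 1) * (rM (FreeGroup.of α) 0 0 *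
        (rM (FreeGroup.of α) 1 0 + 1)) = rM (FreeGroup.of α) 0 0 *
        (rM (FreeGroup.of α) 1 0 + 1) ^ 2 := by ring
      rw [e]
      refine Ideal.mul_mem_left _ _ (sq_mem_nn ?_)
      rw [map_add, h.ev_a10, map_one]
      exact addSelf _
    rw [map_add, map_one] at this
    linear_combination this - h20
  have h01 : φ (rM (FreeGroup.of α) 0 1) = 1 := by
    have hd := det_rM (FreeGroup.of α)
    rw [Matrix.det_fin_two] at hd
    have hd' := congrArg φ hd
    rw [map_sub, map_mul, map_mul, h00, h10, map_one] at hd'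
    linear_combination -hd' - h20
  have hk := SuM.key h20 (Matrix.SpecialLinearGroup.map φ (rho P))
    (Matrix.SpecialLinearGroup.map φ (rho (FreeGroup.of β)))
    (Matrix.SpecialLinearGroup.map φ (rho (FreeGroup.of α))) (φ (rM (FreeGroup.of α) 1 1))
    (φ (e0 α β P)) (φ (e1 α β P)) (φ (ef α P)) ?_ ?_ ?_ ?_ (hsq _ h.ev_e0) (hsq _ h.ev_e1)
    (hsq _ h.ev_ef) (Matrix.SpecialLinearGroup.map φ (rho (zw α β P))) ?_ ((rM w).map φ)
  · have hk1 := congrFun (congrFun hk 1) 0
    have e1 : (rM w).map φ * ((Matrix.SpecialLinearGroup.map φ (rho (zw α β P)))⁻¹).1 =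
        (rM (w * (zw α β P)⁻¹)).map φ := by
      rw [rM_mul, ← map_inv, ← map_inv, Matrix.map_mul]
      rfl
    rw [e1] at hk1
    have e2 : (Matrix.SpecialLinearGroup.map φ (rho (zw α β P))).1.trace = φ (rT (zw α β P)) := by
      rw [rT_eq, map_add, Matrix.trace_fin_two]
      rfl
    rw [e2] at hk1
    have e3 : φ (rT (zw α β P)) * (φ (rM (w * (zw α β P)⁻¹) 1 0) + φ (rM w 1 0)) =
      φ (e0 α β P) * φ (SuM.e1 α β P) * φ (ef α P) * φ (rM w 1 0) := hk1
    have e4 : φ (rT (zw α β P) * (rM (w * (zw α β P)⁻¹) 1 0 + rM w 1 0) -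
        e0 α β P * SuM.e1 α β P * ef α P * rM w 1 0) = 0 := by
      rw [map_sub, map_mul, map_add, map_mul, map_mul, map_mul, e3, sub_self]
    rw [hker, sub_mul] at e4
    exact e4
  · ext i j
    fin_cases i <;> fin_cases j
    · exact h00
    · exact h01
    · exact h10
    · rfl
  all_goals
    have hJ : (Matrix.SpecialLinearGroup.map φ (rho (FreeGroup.of α))).1 = (jt α).map φ := by
      ext i j
      fin_cases i <;> fin_cases j
      · exact h00.trans (map_zero φ).symm
      · exact h01.trans (map_one φ).symm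
      · exact h10.trans (map_one φ).symm
      · rfl
  · rw [hJ, e0, map_add]
    have : (rM P * jt α * rM (FreeGroup.of β)).map φ = (rM P).map φ * (jt α).map φ *
        (rM (FreeGroup.of β)).map φ := by rw [Matrix.map_mul, Matrix.map_mul]
    exact congrArg₂ (· + ·) (congrFun (congrFun this 0) 0) rfl
  · rw [hJ, SuM.e1, map_add]
    have : (rM P * jt α * rM (FreeGroup.of β)).map φ = (rM P).map φ * (jt α).map φ *
        (rM (FreeGroup.of β)).map φ := by rw [Matrix.map_mul, Matrix.map_mul]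
    exact congrArg₂ (· + ·) (congrFun (congrFun this 1) 0) rfl
  · rw [hJ, ef, map_add, map_add]
    have : (rM P * jt α).map φ = (rM P).map φ * (jt α).map φ := by rw [Matrix.map_mul]
    exact congrArg₂ (· + ·) (congrArg₂ (· + ·) (congrFun (congrFun this 0) 0)
      (congrFun (congrFun this 1) 1)) rfl
  · rw [zw]
    simp only [map_mul, map_inv]

/-- **Comparison with the slice.** -/
theorem Sl.compat (h : Sl α β P x) {k : AR I} (hk : aD k = 0) (hk' : aH k = 0) (w : FreeGroup I) :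
    ev x (CG (k * rT (zw α β P) * (rM (w * (zw α β P)⁻¹) 0 0 + rM w 0 0))) =
      ev x (CG (k * (e0 α β P * e1 α β P * ef α P) * rM w 1 0 * es α)) := by
  have hD : aD (k * rT (zw α β P)) = 0 := by
    rw [Derivation.leibniz, hk, (ivt_rT (zw α β P)).D, smul_zero, smul_zero, add_zero]
  have hH : aH (k * rT (zw α β P)) = 0 := by
    rw [Derivation.leibniz, hk', aH_rT, smul_zero, smul_zero, add_zero]
  have h1 := congrArg (ev x) (slice hD hH (w * (zw α β P)⁻¹) (FreeGroup.of α))
  have h2 := congrArg (ev x) (slice hD hH w (FreeGroup.of α))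
  rw [map_mul (ev x), h.ev_a10, one_mul] at h1 h2
  rw [mul_add, map_add CG, map_add (ev x), ← h1, ← h2, ← map_add (ev x), ← map_add CG]
  have h3 := mem_nn.1 (h.key w) k
  rw [mul_sub, map_sub CG, map_sub (ev x), sub_eq_zero] at h3
  refine Eq.trans ?_ (h3.trans ?_)
  · congr 2
    rw [es]
    ring
  · congr 2
    ring

end comp

end Pool.Agent.SuM
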