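import Pool.Agent.Lib.MP_305fdd_al.Fr.N.Defs

/-!
# MP_305fdd_al, surface groups, model block: extension of a Cartier operator to the field of fractions
-/

set_option autoImplicit false
set_option linter.unusedSectionVars false

namespace Pool.Agent.SuM

open Pool.Agent.FrN Pool.Agent.F2Ch

variable {K : Type} [Field K] [Algebra (ZMod 2) K]

/-- extension of a `2⁻¹`-linear map to the field of fractions -/
theorem ext_pinv (B : Subalgebra (ZMod 2) K) (hf : Frc B) (κ : K → K)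
    (hadd : ∀ a ∈ B, ∀ b ∈ B, κ (a + b) = κ a + κ b)
    (hsq : ∀ a ∈ B, ∀ b ∈ B, κ (a ^ 2 * b) = a * κ b) :
    ∃ Φ : K → K, IsPinv 2 Φ ∧ ∀ x, ∀ d ∈ B, d ≠ 0 → x * d ∈ B → Φ x * d = κ (x * d ^ 2) := by
  have hex : ∀ x : K, ∃ d, d ∈ B ∧ d ≠ 0 ∧ x * d ∈ B := by
    intro x
    obtain ⟨a, ha, b, hb, hb0, hab⟩ := hf x
    exact ⟨b, hb, hb0, hab ▸ ha⟩
  choose D hD hD0 hxD using hex
  have key : ∀ x, ∀ d ∈ B, d ≠ 0 → x * d ∈ B → κ (x * D x ^ 2) / D x * d = κ (x * d ^ 2) := by
    intro x d hd hd0 hxd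
    have h1 : κ (d ^ 2 * (x * D x ^ 2)) = d * κ (x * D x ^ 2) :=
      hsq d hd _ (by
        have : x * D x ^ 2 = x * D x * D x := by ring
        rw [this]
        exact mul_mem (hxD x) (hD x))
    have h2 : κ (D x ^ 2 * (x * d ^ 2)) = D x * κ (x * d ^ 2) :=
      hsq (D x) (hD x) _ (by
        have : x * d ^ 2 = x * d * d := by ring
        rw [this]
        exact mul_mem hxd hd)
    have h3 : d ^ 2 * (x * D x ^ 2) = D x ^ 2 * (x * d ^ 2) := by ring
    rw [h3, h2] at h1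
    rw [div_mul_eq_mul_div, div_eq_iff (hD0 x)]
    linear_combination -h1
  refine ⟨fun x => κ (x * D x ^ 2) / D x, ⟨?_, ?_⟩, key⟩
  · intro x y
    have m1 : x * (D x * D y) ∈ B := by
      rw [← mul_assoc]
      exact mul_mem (hxD x) (hD y)
    have m2 : y * (D x * D y) ∈ B := by
      have : y * (D x * D y) = y * D y * D x := by ring
      rw [this]
      exact mul_mem (hxD y) (hD x)
    have mD : D x * D y ∈ B := mul_mem (hD x) (hD y)
    have h0 : D x * D y ≠ 0 := mul_ne_zero (hD0 x) (hD0 y)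
    have k1 := key x _ mD h0 m1
    have k2 := key y _ mD h0 m2
    have k3 := key (x + y) _ mD h0 (by rw [add_mul]; exact add_mem m1 m2)
    have k4 : (x + y) * (D x * D y) ^ 2 = x * (D x * D y) ^ 2 + y * (D x * D y) ^ 2 := by ring
    have e : ∀ z : K, z * (D x * D y) ^ 2 = z * (D x * D y) * (D x * D y) := fun z => by ring
    rw [k4, hadd _ (by rw [e]; exact mul_mem m1 mD) _ (by rw [e]; exact mul_mem m2 mD), ← k1,
      ← k2, ← add_mul] at k3
    exact mul_right_cancel₀ h0 k3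
  · intro a b
    have m1 : a * (D a * D b) ∈ B := by
      rw [← mul_assoc]
      exact mul_mem (hxD a) (hD b)
    have m2 : b * (D a * D b) ∈ B := by
      have : b * (D a * D b) = b * D b * D a := by ring
      rw [this]
      exact mul_mem (hxD b) (hD a)
    have mD : D a * D b ∈ B := mul_mem (hD a) (hD b)
    have h0 : D a * D b ≠ 0 := mul_ne_zero (hD0 a) (hD0 b)
    obtain ⟨d, hd⟩ : ∃ d, d = D a * D b := ⟨_, rfl⟩
    rw [← hd] at m1 m2 mD h0
    have k1 := key b d mD h0 m2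
    have k2 := key (a ^ 2 * b) (d ^ 3) (pow_mem mD 3) (pow_ne_zero 3 h0) (by
      have : a ^ 2 * b * d ^ 3 = (a * d) ^ 2 * (b * d) := by ring
      rw [this]
      exact mul_mem (pow_mem m1 2) m2)
    have e : a ^ 2 * b * (d ^ 3) ^ 2 = (a * d * d) ^ 2 * (b * d ^ 2) := by ring
    rw [e, hsq _ (mul_mem m1 mD) _ (by
      have : b * d ^ 2 = b * d * d := by ring
      rw [this]
      exact mul_mem m2 mD), ← k1] at k2
    have h3 : d ^ 3 ≠ 0 := pow_ne_zero 3 h0
    refine mul_right_cancel₀ h3 (k2.trans ?_)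
    ring

end Pool.Agent.SuM
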