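import Pool.Agent.Lib.MP_305fdd_al.Su.M.K1

/-!
# MP_305fdd_al, surface groups, model block: the slice is generically reduced

`Ys` is a set of variables whose values at `x` are algebraically independent; the other variables
of the slice are rational functions of them, except `Z = β₂₁` which satisfies a separable quadratic
equation.
-/

set_option autoImplicit false
set_option linter.unusedSectionVars false

namespace Pool.Agent.SuM

open MvPolynomial Pool.Agent.SuF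

section gen

variable {I : Type} [Fintype I] [DecidableEq I] {F : Type} [Field F] [Algebra (ZMod 2) F]

/-- the ideal of the slice in the ring of polynomials -/
noncomputable def JJ (α β : I) (Pp : Matrix (Fin 2) (Fin 2) (PR I)) : Ideal (PR I) :=
  Ideal.span ({f | ∃ i, ¬ (i = α ∨ i = β) ∧ f = gr i} ∪ {fp α Pp, Qp α β Pp})

variable {α β : I} {Pp : Matrix (Fin 2) (Fin 2) (PR I)} {P : FreeGroup I}
  {x : I → Matrix.SpecialLinearGroup (Fin 2) F} {Ys : Finset (I × Fin 2 × Fin 2)}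

theorem gr_JJ {i : I} (hi : ¬ (i = α ∨ i = β)) : gr i ∈ JJ α β Pp :=
  Ideal.subset_span (Or.inl ⟨i, hi, rfl⟩)

theorem fp_JJ : fp α Pp ∈ JJ α β Pp := Ideal.subset_span (Or.inr (Or.inl rfl))

theorem Qp_JJ : Qp α β Pp ∈ JJ α β Pp := Ideal.subset_span (Or.inr (Or.inr rfl))

theorem PL.JJ_pn (h : PL α β Pp P) (hx : Sl α β P x) {u : PR I} (hu : u ∈ JJ α β Pp) :
    u * (Gp α β * fp α Pp * Qp α β Pp) ∈ pn x := by
  have key : ∀ c, c * u * (Gp α β * fp α Pp * Qp α β Pp) ∈ pn x := by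
    refine Submodule.span_induction (p := fun u _ => ∀ c, c * u * (Gp α β * fp α Pp * Qp α β Pp) ∈
      pn x) ?_ ?_ ?_ ?_ hu
    · rintro f (⟨i, hi, rfl⟩ | rfl | rfl) c
      · have h1 : (Gp α β : PR I) = gr i * ∏ j ∈ (Finset.univ.filter
            (fun i => ¬ (i = α ∨ i = β))).erase i, gr j := by
          rw [Gp, Finset.mul_prod_erase]
          rw [Finset.mem_filter]
          exact ⟨Finset.mem_univ _, hi⟩
        rw [h1]
        have e : c * gr i * (gr i * (∏ j ∈ (Finset.univ.filter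
            (fun i => ¬ (i = α ∨ i = β))).erase i, gr j) * fp α Pp * Qp α β Pp) =
            (c * (∏ j ∈ (Finset.univ.filter
            (fun i => ¬ (i = α ∨ i = β))).erase i, gr j) * fp α Pp * Qp α β Pp) * gr i ^ 2 := by
          ring
        rw [e]
        exact Ideal.mul_mem_left _ _ (sq_mem_pn (pv_gr i))
      · have e : c * fp α Pp * (Gp α β * fp α Pp * Qp α β Pp) = c * Gp α β * Qp α β Pp *
          fp α Pp ^ 2 := by ring
        rw [e]
        exact Ideal.mul_mem_left _ _ (sq_mem_pn (h.pv_fp hx))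
      · have e : c * Qp α β Pp * (Gp α β * fp α Pp * Qp α β Pp) = c * Gp α β * fp α Pp *
          Qp α β Pp ^ 2 := by ring
        rw [e]
        exact Ideal.mul_mem_left _ _ (sq_mem_pn (h.pv_Qp hx))
    · intro c
      rw [mul_zero, zero_mul]
      exact zero_mem _
    · intro u v _ _ h1 h2 c
      rw [mul_add, add_mul]
      exact add_mem (h1 c) (h2 c)
    · intro a u _ h1 c
      have e : c * (a * u) * (Gp α β * fp α Pp * Qp α β Pp) =
        c * a * u * (Gp α β * fp α Pp * Qp α β Pp) := by ring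
      rw [smul_eq_mul, e]
      exact h1 (c * a)
  have := key 1
  rwa [one_mul] at this

/-- if `s f` is in the ideal of the slice, `s(x) ≠ 0`, then `κ(f)` vanishes at `x` -/
theorem PL.wd_of (h : PL α β Pp P) (hx : Sl α β P x) {f s : PR I} (hs : pv x s ≠ 0)
    (hf : s * f ∈ JJ α β Pp) : pv x (kp α β Pp f) = 0 := by
  have h1 := h.JJ_pn hx hf
  have h2 := mem_pn.1 h1 (s * ∏ t ∈ UU α β, X t)
  have e : s * (∏ t ∈ UU α β, X t) * (s * f * (Gp α β * fp α Pp * Qp α β Pp)) =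
      s ^ 2 * (f * Wp α β Pp) := by
    rw [Wp]
    ring
  rw [e, car_sq_mul, map_mul] at h2
  exact (mul_eq_zero.1 h2).resolve_left hs

/-- hypotheses: generic point -/
structure Gpt (α β : I) (Pp : Matrix (Fin 2) (Fin 2) (PR I))
    (x : I → Matrix.SpecialLinearGroup (Fin 2) F) (Ys : Finset (I × Fin 2 × Fin 2)) : Prop where
  ind : ∀ f ∈ Wd (cw Ysᶜ) 0, pv x f = 0 → f = 0
  v0 : (β, 0, 0) ∈ Ys
  lett : ∀ i, ¬ (i = α ∨ i = β) → ∀ a b : Fin 2, (i, a, b) ∈ Ys ∨ ((i, a + 1, b + 1) ∈ Ys ∧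
    (i, a, b + 1) ∈ Ys ∧ (i, a + 1, b) ∈ Ys ∧ (x i).1 (a + 1) (b + 1) ≠ 0)
  hP : pv x (Pp 1 1 + 1) ≠ 0
  hM : pv x (Mp α Pp 0 1) ≠ 0
  ht : pv x (tp α) ≠ 0

/-- rational functions of the variables in `Ys` -/
def Rt (α β : I) (Pp : Matrix (Fin 2) (Fin 2) (PR I))
    (x : I → Matrix.SpecialLinearGroup (Fin 2) F) (Ys : Finset (I × Fin 2 × Fin 2))
    (f : PR I) : Prop :=
  ∃ s ∈ Wd (cw Ysᶜ) 0, ∃ A ∈ Wd (cw Ysᶜ) 0, pv x s ≠ 0 ∧ s * f - A ∈ JJ α β Pp

/-- rational functions of the variables in `Ys` and `Z`, linear in `Z` -/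
def Rq (α β : I) (Pp : Matrix (Fin 2) (Fin 2) (PR I))
    (x : I → Matrix.SpecialLinearGroup (Fin 2) F) (Ys : Finset (I × Fin 2 × Fin 2))
    (f : PR I) : Prop :=
  ∃ s ∈ Wd (cw Ysᶜ) 0, ∃ A ∈ Wd (cw Ysᶜ) 0, ∃ B ∈ Wd (cw Ysᶜ) 0, pv x s ≠ 0 ∧
    s * f - (A + B * X (β, 1, 0)) ∈ JJ α β Pp

theorem Rt.of {f : PR I} (hf : f ∈ Wd (cw Ysᶜ) 0) : Rt α β Pp x Ys f :=
  ⟨1, Wd_one, f, hf, by rw [map_one]; exact one_ne_zero, by rw [one_mul, sub_self]; exact zero_mem _⟩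

theorem Rt.add {f g : PR I} (hf : Rt α β Pp x Ys f) (hg : Rt α β Pp x Ys g) :
    Rt α β Pp x Ys (f + g) := by
  obtain ⟨s, hs, A, hA, h1, h2⟩ := hf
  obtain ⟨s', hs', A', hA', h1', h2'⟩ := hg
  refine ⟨s * s', Wd_mul hs hs', s' * A + s * A', Submodule.add_mem _ (Wd_mul hs' hA)
    (Wd_mul hs hA'), by rw [map_mul]; exact mul_ne_zero h1 h1', ?_⟩
  have e : s * s' * (f + g) - (s' * A + s * A') = s' * (s * f - A) + s * (s' * g - A') := by ring
  rw [e]
  exact add_mem (Ideal.mul_mem_left _ _ h2) (Ideal.mul_mem_left _ _ h2')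

theorem Rt.mul {f g : PR I} (hf : Rt α β Pp x Ys f) (hg : Rt α β Pp x Ys g) :
    Rt α β Pp x Ys (f * g) := by
  obtain ⟨s, hs, A, hA, h1, h2⟩ := hf
  obtain ⟨s', hs', A', hA', h1', h2'⟩ := hg
  refine ⟨s * s', Wd_mul hs hs', A * A', Wd_mul hA hA',
    by rw [map_mul]; exact mul_ne_zero h1 h1', ?_⟩
  have e : s * s' * (f * g) - A * A' = (s * f) * (s' * g - A') + A' * (s * f - A) := by ring
  rw [e]
  exact add_mem (Ideal.mul_mem_left _ _ h2') (Ideal.mul_mem_left _ _ h2)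

/-- division -/
theorem Rt.div {f g u : PR I} (hf : Rt α β Pp x Ys f) (hg : Rt α β Pp x Ys g)
    (h0 : pv x g ≠ 0) (hJ : ∀ v ∈ JJ α β Pp, pv x v = 0) (hu : g * u - f ∈ JJ α β Pp) :
    Rt α β Pp x Ys u := by
  obtain ⟨s, hs, A, hA, h1, h2⟩ := hf
  obtain ⟨s', hs', B, hB, h1', h2'⟩ := hg
  have hB0 : pv x B ≠ 0 := by
    have h3 := hJ _ h2'
    rw [map_sub, map_mul, sub_eq_zero] at h3
    rw [← h3]
    exact mul_ne_zero h1' h0
  refine ⟨s * B, Wd_mul hs hB, s' * A, Wd_mul hs' hA,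
    by rw [map_mul]; exact mul_ne_zero h1 hB0, ?_⟩
  have e : s * B * u - s' * A = s' * (s * f - A) - s * u * (s' * g - B) +
    s * s' * (g * u - f) := by ring
  rw [e]
  exact add_mem (sub_mem (Ideal.mul_mem_left _ _ h2) (Ideal.mul_mem_left _ _ h2'))
    (Ideal.mul_mem_left _ _ hu)

theorem Rt.ind {ω : I × Fin 2 × Fin 2 → ℕ} {f : PR I} (hf : f ∈ Wd ω 0)
    (h : ∀ s, ω s = 0 → Rt α β Pp x Ys (X s)) : Rt α β Pp x Ys f := by
  have h1 : Rt α β Pp x Ys (1 : PR I) := Rt.of Wd_one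
  refine Wd_ind (p := Rt α β Pp x Ys) (Rt.of (Submodule.zero_mem _)) (fun f g => Rt.add) ?_ hf
  intro e he
  rw [monomial_eq, map_one, one_mul]
  refine Finset.prod_induction _ (Rt α β Pp x Ys) (fun f g => Rt.mul) h1 fun s hs => ?_
  have h2 := h s (by
    by_contra h3
    exact Finsupp.mem_support_iff.1 hs (wt_eq_zero he h3))
  have h4 : ∀ n : ℕ, Rt α β Pp x Ys (X s ^ n : PR I) := by
    intro n
    induction n with
    | zero => rw [pow_zero]; exact h1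
    | succ n ih => rw [pow_succ]; exact ih.mul h2
  exact h4 _

theorem gr_pair (i : I) (a b : Fin 2) : gr i = X (i, a, b) * X (i, a + 1, b + 1) +
    X (i, a, b + 1) * X (i, a + 1, b) + 1 := by
  rw [gr_eq]
  fin_cases a <;> fin_cases b
  · rfl
  · change _ = X (i, 0, 1) * X (i, 1, 0) + X (i, 0, 0) * X (i, 1, 1) + 1
    ring
  · change _ = X (i, 1, 0) * X (i, 0, 1) + X (i, 1, 1) * X (i, 0, 0) + 1
    ring
  · change _ = X (i, 1, 1) * X (i, 0, 0) + X (i, 1, 0) * X (i, 0, 1) + 1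
    ring

theorem wdY {s : I × Fin 2 × Fin 2} (hs : s ∈ Ys) : (X s : PR I) ∈ Wd (cw Ysᶜ) 0 :=
  wd0 (by rw [Finset.mem_compl, not_not]; exact hs)

theorem PL.JJ_zero (h : PL α β Pp P) (hx : Sl α β P x) {v : PR I} (hv : v ∈ JJ α β Pp) :
    pv x v = 0 := by
  have h1 : JJ α β Pp ≤ RingHom.ker (pv x : PR I →+* F) := by
    rw [JJ, Ideal.span_le]
    rintro f (⟨i, _, rfl⟩ | rfl | rfl)
    · exact pv_gr i
    · exact h.pv_fp hx
    · exact h.pv_Qp hx
  exact h1 hv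

variable (h : PL α β Pp P) (hx : Sl α β P x) (G : Gpt α β Pp x Ys)

include h hx G

theorem Gpt.letter {i : I} (hi : ¬ (i = α ∨ i = β)) (a b : Fin 2) :
    Rt α β Pp x Ys (X (i, a, b)) := by
  rcases G.lett i hi a b with h1 | ⟨h1, h2, h3, h4⟩
  · exact Rt.of (wdY h1)
  · refine Rt.div (f := X (i, a, b + 1) * X (i, a + 1, b) + 1) (g := X (i, a + 1, b + 1))
      (Rt.of (Submodule.add_mem _ (Wd_mul (wdY h2) (wdY h3)) Wd_one)) (Rt.of (wdY h1))
      (by rw [pv_X]; exact h4) (fun v hv => h.JJ_zero hx hv) ?_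
    have e : X (i, a + 1, b + 1) * X (i, a, b) - (X (i, a, b + 1) * X (i, a + 1, b) + 1) =
        gr i - 2 * (X (i, a, b + 1) * X (i, a + 1, b) + 1) := by
      rw [gr_pair i a b]
      ring
    rw [e, two_zero (PR I), zero_mul, sub_zero]
    exact gr_JJ hi

theorem Gpt.free {f : PR I} (hf : f ∈ Wd (cw (AB α β)) 0) : Rt α β Pp x Ys f := by
  refine Rt.ind hf fun s hs => ?_
  have h1 : s ∉ AB α β := fun h2 => by
    rw [cw_mem h2] at hs
    exact one_ne_zero hs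
  rw [mem_AB] at h1
  exact G.letter h hx h1 s.2.1 s.2.2

theorem Gpt.tt : Rt α β Pp x Ys (tp α) := by
  have hw : ∀ a b, Pp a b ∈ Wd (cw (AB α β)) 0 := h.free
  refine Rt.div (f := Pp 0 1 + Pp 1 0) (g := Pp 1 1 + 1)
    (G.free h hx (Submodule.add_mem _ (hw _ _) (hw _ _)))
    (G.free h hx (Submodule.add_mem _ (hw _ _) Wd_one)) G.hP (fun v hv => h.JJ_zero hx hv) ?_
  have e : (Pp 1 1 + 1) * tp α - (Pp 0 1 + Pp 1 0) = fp α Pp - 2 * (Pp 0 1 + Pp 1 0) := by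
    rw [fp_eq]
    ring
  rw [e, two_zero (PR I), zero_mul, sub_zero]
  exact fp_JJ

theorem Gpt.mm (a b : Fin 2) : Rt α β Pp x Ys (Mp α Pp a b) := by
  have hw : ∀ a b, Rt α β Pp x Ys (Pp a b) := fun a b => G.free h hx (h.free a b)
  fin_cases b
  · change Rt α β Pp x Ys (Mp α Pp a 0)
    rw [(Mp_eq a).1]
    exact hw _ _
  · change Rt α β Pp x Ys (Mp α Pp a 1)
    rw [(Mp_eq a).2]
    exact (hw _ _).add ((hw _ _).mul (G.tt h hx))

/-- the quadratic equation of `Z` -/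
theorem Gpt.quad : ∃ s ∈ Wd (cw Ysᶜ) 0, ∃ A ∈ Wd (cw Ysᶜ) 0, ∃ B ∈ Wd (cw Ysᶜ) 0, pv x s ≠ 0 ∧
    pv x B ≠ 0 ∧ s * X (β, 1, 0) ^ 2 - (A + B * X (β, 1, 0)) ∈ JJ α β Pp := by
  have hv : (X (β, 0, 0) : PR I) ∈ Wd (cw Ysᶜ) 0 := wdY G.v0
  have hv0 : pv x (X (β, 0, 0)) ≠ 0 := by
    intro h1
    exact X_ne_zero (R := ZMod 2) _ (G.ind _ hv h1)
  obtain ⟨s, hs, A, hA, h1, h2⟩ := G.mm h hx 0 1
  obtain ⟨s', hs', A', hA', h1', h2'⟩ := (G.mm h hx 0 0).add (G.mm h hx 1 1)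
  obtain ⟨s'', hs'', A'', hA'', h1'', h2''⟩ := G.mm h hx 1 0
  have hpA : pv x A ≠ 0 := by
    have h3 := h.JJ_zero hx h2
    rw [map_sub, map_mul, sub_eq_zero] at h3
    rw [← h3]
    exact mul_ne_zero h1 G.hM
  have hpA' : pv x A' ≠ 0 := by
    have h3 := h.JJ_zero hx h2'
    rw [map_sub, map_mul, sub_eq_zero] at h3
    rw [← h3]
    refine mul_ne_zero h1' ?_
    have h4 := h.pv_fp hx
    rw [fp, map_add] at h4
    rw [eq_of_add h4]
    exact G.ht
  refine ⟨A * s' * s'', Wd_mul (Wd_mul hA hs') hs'', s * s' * A'' * X (β, 0, 0) ^ 2 + s * s' * s'',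
    Submodule.add_mem _ (Wd_mul (Wd_mul (Wd_mul hs hs') hA'') (Wd_sq hv))
      (Wd_mul (Wd_mul hs hs') hs''), s * A' * s'' * X (β, 0, 0),
    Wd_mul (Wd_mul (Wd_mul hs hA') hs'') hv, ?_, ?_, ?_⟩
  · rw [map_mul, map_mul]
    exact mul_ne_zero (mul_ne_zero hpA h1') h1''
  · rw [map_mul, map_mul, map_mul]
    exact mul_ne_zero (mul_ne_zero (mul_ne_zero h1 hpA') h1'') hv0
  · have e : A * s' * s'' * X (β, 1, 0) ^ 2 - (s * s' * A'' * X (β, 0, 0) ^ 2 + s * s' * s'' +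
        s * A' * s'' * X (β, 0, 0) * X (β, 1, 0)) =
        (- (s' * s'' * X (β, 1, 0) ^ 2)) * (s * Mp α Pp 0 1 - A) +
        (s * s'' * X (β, 0, 0) * X (β, 1, 0)) * (s' * (Mp α Pp 0 0 + Mp α Pp 1 1) - A') +
        (s * s' * X (β, 0, 0) ^ 2) * (s'' * Mp α Pp 1 0 - A'') +
        (s * s' * s'') * Qp α β Pp - 2 * (s * s' * s'' * (Mp α Pp 1 0 * X (β, 0, 0) ^ 2 +
          (Mp α Pp 0 0 + Mp α Pp 1 1) * (X (β, 0, 0) * X (β, 1, 0)) + 1)) := by
      rw [Qp]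
      ring
    rw [e, two_zero (PR I), zero_mul, sub_zero]
    exact add_mem (add_mem (add_mem (Ideal.mul_mem_left _ _ h2) (Ideal.mul_mem_left _ _ h2'))
      (Ideal.mul_mem_left _ _ h2'')) (Ideal.mul_mem_left _ _ Qp_JJ)

omit h hx G in
theorem Rt.rq {f : PR I} (hf : Rt α β Pp x Ys f) : Rq α β Pp x Ys f := by
  obtain ⟨s, hs, A, hA, h1, h2⟩ := hf
  refine ⟨s, hs, A, hA, 0, Submodule.zero_mem _, h1, ?_⟩
  rw [zero_mul, add_zero]
  exact h2

omit h hx G in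
theorem Rq.add {f g : PR I} (hf : Rq α β Pp x Ys f) (hg : Rq α β Pp x Ys g) :
    Rq α β Pp x Ys (f + g) := by
  obtain ⟨s, hs, A, hA, B, hB, h1, h2⟩ := hf
  obtain ⟨s', hs', A', hA', B', hB', h1', h2'⟩ := hg
  refine ⟨s * s', Wd_mul hs hs', s' * A + s * A', Submodule.add_mem _ (Wd_mul hs' hA)
    (Wd_mul hs hA'), s' * B + s * B', Submodule.add_mem _ (Wd_mul hs' hB)
    (Wd_mul hs hB'), by rw [map_mul]; exact mul_ne_zero h1 h1', ?_⟩
  have e : s * s' * (f + g) - (s' * A + s * A' + (s' * B + s * B') * X (β, 1, 0)) =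
    s' * (s * f - (A + B * X (β, 1, 0))) + s * (s' * g - (A' + B' * X (β, 1, 0))) := by ring
  rw [e]
  exact add_mem (Ideal.mul_mem_left _ _ h2) (Ideal.mul_mem_left _ _ h2')

theorem Gpt.rq_mul {f g : PR I} (hf : Rq α β Pp x Ys f) (hg : Rq α β Pp x Ys g) :
    Rq α β Pp x Ys (f * g) := by
  obtain ⟨s, hs, A, hA, B, hB, h1, h2⟩ := hf
  obtain ⟨s', hs', A', hA', B', hB', h1', h2'⟩ := hg
  obtain ⟨s0, hs0, A0, hA0, B0, hB0, h10, _, h20⟩ := G.quad h hx
  refine ⟨s0 * s * s', Wd_mul (Wd_mul hs0 hs) hs', s0 * A * A' + B * B' * A0,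
    Submodule.add_mem _ (Wd_mul (Wd_mul hs0 hA) hA') (Wd_mul (Wd_mul hB hB') hA0),
    s0 * A * B' + s0 * A' * B + B * B' * B0, Submodule.add_mem _ (Submodule.add_mem _
    (Wd_mul (Wd_mul hs0 hA) hB') (Wd_mul (Wd_mul hs0 hA') hB)) (Wd_mul (Wd_mul hB hB') hB0),
    by rw [map_mul, map_mul]; exact mul_ne_zero (mul_ne_zero h10 h1) h1', ?_⟩
  have e : s0 * s * s' * (f * g) - (s0 * A * A' + B * B' * A0 + (s0 * A * B' + s0 * A' * B +
      B * B' * B0) * X (β, 1, 0)) =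
      (s0 * s * f) * (s' * g - (A' + B' * X (β, 1, 0))) +
      (s0 * (A' + B' * X (β, 1, 0))) * (s * f - (A + B * X (β, 1, 0))) +
      (B * B') * (s0 * X (β, 1, 0) ^ 2 - (A0 + B0 * X (β, 1, 0))) := by ring
  rw [e]
  exact add_mem (add_mem (Ideal.mul_mem_left _ _ h2') (Ideal.mul_mem_left _ _ h2))
    (Ideal.mul_mem_left _ _ h20)

theorem Gpt.rq_all (hαβ : α ≠ β) {f : PR I} (hf : f ∈ Wd (cw (UU α β)) 0) :
    Rq α β Pp x Ys f := by
  have h1 : Rq α β Pp x Ys (1 : PR I) := (Rt.of Wd_one).rq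
  refine Wd_ind (p := Rq α β Pp x Ys) (Rt.of (Submodule.zero_mem _)).rq (fun f g => Rq.add) ?_ hf
  intro e he
  rw [monomial_eq, map_one, one_mul]
  refine Finset.prod_induction _ (Rq α β Pp x Ys) (fun f g => G.rq_mul h hx) h1 fun s hs => ?_
  have hsU : s ∉ UU α β := fun h2 =>
    Finsupp.mem_support_iff.1 hs (wt_eq_zero he (by rw [cw_mem h2]; exact one_ne_zero))
  have h2 : Rq α β Pp x Ys (X s : PR I) := by
    by_cases hi : s.1 = α ∨ s.1 = β
    · have h3 : s = (α, 1, 1) ∨ s = (β, 0, 0) ∨ s = (β, 1, 0) := by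
        obtain ⟨i, a, b⟩ := s
        simp only [UU, Finset.mem_insert, Finset.mem_singleton, Prod.mk.injEq] at *
        fin_cases a <;> fin_cases b <;> simp at * <;> tauto
      rcases h3 with rfl | rfl | rfl
      · exact (G.tt h hx).rq
      · exact (Rt.of (wdY G.v0)).rq
      · refine ⟨1, Wd_one, 0, Submodule.zero_mem _, 1, Wd_one, by rw [map_one]; exact one_ne_zero,
          ?_⟩
        rw [one_mul, zero_add, sub_self]
        exact zero_mem _
    · exact (G.letter h hx hi s.2.1 s.2.2).rq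
  have h4 : ∀ n : ℕ, Rq α β Pp x Ys (X s ^ n : PR I) := by
    intro n
    induction n with
    | zero => rw [pow_zero]; exact h1
    | succ n ih => rw [pow_succ]; exact G.rq_mul h hx ih h2
  exact h4 _

/-- **The operator is defined on the values at the generic point.** -/
theorem Gpt.wdf (hαβ : α ≠ β) : WDF α β Pp x := by
  intro f hf hf0
  obtain ⟨s, hs, A, hA, B, hB, h1, h2⟩ := G.rq_all h hx hαβ hf
  obtain ⟨s0, hs0, A0, hA0, B0, hB0, h10, h1B, h20⟩ := G.quad h hx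
  have h3 := h.JJ_zero hx h2
  rw [map_sub, map_mul, hf0, mul_zero, zero_sub, neg_eq_zero, map_add, map_mul] at h3
  by_cases hB0' : B = 0
  · subst hB0'
    rw [map_zero, zero_mul, add_zero] at h3
    have hA0' := G.ind A hA h3
    subst hA0'
    rw [zero_mul, add_zero, sub_zero] at h2
    exact h.wd_of hx h1 h2
  · have hpB : pv x B ≠ 0 := fun h4 => hB0' (G.ind B hB h4)
    have hD : s0 * A ^ 2 + B ^ 2 * A0 + B0 * A * B = 0 := by
      refine G.ind _ ?_ ?_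
      · exact Submodule.add_mem _ (Submodule.add_mem _ (Wd_mul hs0 (Wd_sq hA))
          (Wd_mul (Wd_sq hB) hA0)) (Wd_mul (Wd_mul hB0 hA) hB)
      · have h5 := h.JJ_zero hx h20
        rw [map_sub, map_mul, map_pow, map_add, map_mul, sub_eq_zero] at h5
        have h6 : pv x A = pv x B * pv x (X (β, 1, 0)) := eq_of_add h3
        simp only [map_add, map_mul, map_pow]
        rw [h6]
        have htwo := two_zero F
        linear_combination (pv x B) ^ 2 * h5 + ((pv x B) ^ 2 * pv x A0 +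
          pv x B0 * pv x (X (β, 1, 0)) * (pv x B) ^ 2) * htwo
    refine h.wd_of hx (s := s * (s0 * (A + B * X (β, 1, 0)) + B0 * B)) ?_ ?_
    · rw [map_mul, map_add, map_mul, map_add, map_mul, h3, mul_zero, zero_add, map_mul]
      exact mul_ne_zero h1 (mul_ne_zero h1B hpB)
    · have e : s * (s0 * (A + B * X (β, 1, 0)) + B0 * B) * f =
          (s0 * (A + B * X (β, 1, 0)) + B0 * B) * (s * f - (A + B * X (β, 1, 0))) +
          B ^ 2 * (s0 * X (β, 1, 0) ^ 2 - (A0 + B0 * X (β, 1, 0))) +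
          (s0 * A ^ 2 + B ^ 2 * A0 + B0 * A * B) +
          2 * (s0 * A * B * X (β, 1, 0) + B0 * B ^ 2 * X (β, 1, 0)) := by ring
      rw [e, hD, two_zero (PR I), zero_mul, add_zero, add_zero]
      exact add_mem (Ideal.mul_mem_left _ _ h2) (Ideal.mul_mem_left _ _ h20)

end gen

end Pool.Agent.SuM
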