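import Pool.Agent.Lib.MP_305fdd_al.Su.F.GpMain

/-!
# MP_305fdd_al, surface groups, model block: the infinitesimal torus and the slice

`aH` is the derivation `w ↦ [e₁₁, w]`; `CG ∘ aH = 0`.  For an invariant `k` and a letter `α`
`CG (k w₁₁) ≡ CG (k w₂₁ α₁₁ (α₂₁ + 1))` modulo `α₂₁ + 1`.
-/

set_option autoImplicit false
set_option linter.unusedSectionVars false

namespace Pool.Agent.SuM

open MvPolynomial Pool.Agent.SuF

variable {I : Type} [Fintype I]

/-- the values of the infinitesimal conjugation by `e₁₁` -/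
noncomputable def vH (s : I × Fin 2 × Fin 2) : PR I := if s.2.1 = s.2.2 then 0 else X s

/-- the infinitesimal conjugation by `e₁₁` on the polynomial ring -/
noncomputable def pH : Derivation (ZMod 2) (PR I) (PR I) := mkDerivation (ZMod 2) vH

theorem pH_X (s : I × Fin 2 × Fin 2) : pH (X s) = vH s := mkDerivation_X _ _ _

theorem dvg_pH : dvg (pH : Derivation (ZMod 2) (PR I) (PR I)) = 0 := by
  classical
  have h2 := two_zero (PR I)
  rw [dvg]
  have h : ∀ s : I × Fin 2 × Fin 2, pderiv s (pH (X s) : PR I) = if s.2.1 = s.2.2 then 0 else 1 := by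
    intro s
    rw [pH_X, vH]
    split_ifs
    · rw [map_zero]
    · rw [pderiv_X_self]
  rw [Finset.sum_congr rfl fun s _ => h s, Fintype.sum_prod_type]
  refine Finset.sum_eq_zero fun i _ => ?_
  rw [Fintype.sum_prod_type, Fin.sum_univ_two, Fin.sum_univ_two, Fin.sum_univ_two]
  simp
  linear_combination h2

theorem car_pH (f : PR I) : car (pH f) = 0 := by
  rw [car_der, dvg_pH, mul_zero, map_zero]

theorem pH_gr (i : I) : pH (gr i) = 0 := by
  have h2 := two_zero (PR I)
  rw [gr, map_add, Derivation.map_one_eq_zero, add_zero, Matrix.det_fin_two, map_sub,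
    Derivation.leibniz, Derivation.leibniz]
  have h : ∀ a b : Fin 2, pH (gx i a b) = if a = b then 0 else gx i a b := by
    intro a b
    rw [gx, pH_X, vH]
  rw [h, h, h, h]
  simp
  linear_combination (-(gx i 0 1 * gx i 1 0)) * h2

theorem pH_mem : ∀ f ∈ idl (gr : I → PR I), (pH : Derivation (ZMod 2) (PR I) (PR I)) f ∈
    idl (gr : I → PR I) := by
  refine der_span _ _ ?_
  rintro f ⟨i, rfl⟩
  rw [pH_gr]
  exact zero_mem _

/-- the infinitesimal conjugation by `e₁₁` -/
noncomputable def aH : Derivation (ZMod 2) (AR I) (AR I) :=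
  (derQ pH (idl (gr : I → PR I)) pH_mem : Derivation (ZMod 2) (CI (gr : I → PR I)) _)

theorem aH_mk (f : PR I) : aH (amk f) = amk (pH f) := rfl

theorem CG_aH (f : AR I) : CG (aH f) = 0 := by
  obtain ⟨f, rfl⟩ := amk_surj f
  rw [aH_mk, CG_mk]
  have h : pH (∏ i, gr i : PR I) = 0 := by
    classical
    rw [der_prod]
    refine Finset.sum_eq_zero fun i _ => ?_
    rw [pH_gr, mul_zero]
  have h1 : pH f * ∏ i, gr i = pH (f * ∏ i, gr i) := by
    rw [pH.leibniz, h, smul_zero, zero_add, smul_eq_mul, mul_comm]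
  rw [h1, car_pH, map_zero]

/-- `H w = [e₁₁, w]` -/
def EqH (w : Matrix (Fin 2) (Fin 2) (AR I)) : Prop :=
  ∀ a b, aH (w a b) = if a = b then 0 else w a b

theorem EqH.mul {w y : Matrix (Fin 2) (Fin 2) (AR I)} (hw : EqH w) (hy : EqH y) : EqH (w * y) := by
  have h2 := two_zero (AR I)
  intro a b
  rw [Matrix.mul_apply, Fin.sum_univ_two, map_add, Derivation.leibniz, Derivation.leibniz, hw, hw,
    hy, hy]
  fin_cases a <;> fin_cases b <;> simp
  · linear_combination (w 0 1 * y 1 0) * h2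
  · ring
  · ring
  · linear_combination (w 1 0 * y 0 1) * h2

theorem EqH.adj {w : Matrix (Fin 2) (Fin 2) (AR I)} (hw : EqH w) : EqH w.adjugate := by
  intro a b
  rw [Matrix.adjugate_fin_two]
  fin_cases a <;> fin_cases b <;> simp [hw _ _]

theorem EqH.one : EqH (1 : Matrix (Fin 2) (Fin 2) (AR I)) := by
  intro a b
  rw [Matrix.one_apply]
  split_ifs
  · exact Derivation.map_one_eq_zero _
  · exact map_zero _

theorem eqH_rM (w : FreeGroup I) : EqH (rM w) := by
  have h1 : ∀ i : I, EqH (rM (FreeGroup.of i)) := by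
    intro i a b
    rw [rM_of]
    change aH (amk (X (i, a, b))) = _
    rw [aH_mk, pH_X, vH]
    split_ifs
    · exact map_zero _
    · rfl
  induction w using FreeGroup.induction_on with
  | C1 => rw [rM_one]; exact EqH.one
  | of i => exact h1 i
  | inv_of i _ => rw [rM_inv]; exact (h1 i).adj
  | mul w y hw hy => rw [rM_mul]; exact hw.mul hy

theorem aH_rT (w : FreeGroup I) : aH (rT w) = 0 := by
  rw [rT_eq, map_add, eqH_rM w, eqH_rM w, if_pos rfl, if_pos rfl, add_zero]

/-- The comparison with the slice `α₁₁ = 0`, `α₂₁ = 1`. -/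
theorem slice {k : AR I} (hk : aD k = 0) (hk' : aH k = 0) (w a : FreeGroup I) :
    CG (k * rM w 1 0 * (rM a 0 0 * (rM a 1 0 + 1))) = rM a 1 0 * CG (k * rM w 0 0) := by
  have h2 := two_zero (AR I)
  have hw := eqv_rM w
  have ha := eqv_rM a
  have h1 : aD (k * rM w 0 0 * (rM a 0 0 * (rM a 1 0 + 1))) =
      k * rM w 1 0 * (rM a 0 0 * (rM a 1 0 + 1)) + k * rM w 0 0 * (rM a 1 0 * (rM a 1 0 + 1)) := by
    simp only [Derivation.leibniz, map_add, hk, hw.D00, ha.D00, ha.D10, smul_eq_mul,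
      Derivation.map_one_eq_zero]
    ring
  have h3 := inv_CG.cD (k * rM w 0 0 * (rM a 0 0 * (rM a 1 0 + 1)))
  rw [h1, map_add] at h3
  have h4 := eq_of_add h3
  have h5 : aH (k * rM w 0 0 * rM a 1 0) = k * rM w 0 0 * rM a 1 0 := by
    rw [Derivation.leibniz, Derivation.leibniz, hk', eqH_rM w, eqH_rM a]
    simp
  have h6 : CG (k * rM w 0 0 * rM a 1 0) = 0 := by rw [← h5, CG_aH]
  have h7 : k * rM w 0 0 * (rM a 1 0 * (rM a 1 0 + 1)) = rM a 1 0 ^ 2 * (k * rM w 0 0) +
      k * rM w 0 0 * rM a 1 0 := by ring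
  rw [h4, h7, map_add, h6, add_zero, CG_sq_mul]

end Pool.Agent.SuM
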