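import Pool.Agent.Lib.MP_305fdd_al.Su.M.Pol

/-!
# MP_305fdd_al, surface groups, model block: the degrees are halved
-/

set_option autoImplicit false
set_option linter.unusedSectionVars false

namespace Pool.Agent.SuM

open MvPolynomial Pool.Agent.SuF

section kk

variable {I : Type} [Fintype I] [DecidableEq I] {F : Type} [Field F] [Algebra (ZMod 2) F]

/-- the Cartier operator of the slice is defined on the values at `x` -/
def WDF (α β : I) (Pp : Matrix (Fin 2) (Fin 2) (PR I))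
    (x : I → Matrix.SpecialLinearGroup (Fin 2) F) : Prop :=
  ∀ f ∈ Wd (cw (UU α β)) 0, pv x f = 0 → pv x (kp α β Pp f) = 0

open Classical in
/-- the Cartier operator on the values at `x` -/
noncomputable def kF (α β : I) (Pp : Matrix (Fin 2) (Fin 2) (PR I))
    (x : I → Matrix.SpecialLinearGroup (Fin 2) F) (y : F) : F :=
  if h : ∃ f ∈ Wd (cw (UU α β)) 0, pv x f = y then pv x (kp α β Pp h.choose) else 0

variable {α β : I} {Pp : Matrix (Fin 2) (Fin 2) (PR I)} {P : FreeGroup I}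
  {x : I → Matrix.SpecialLinearGroup (Fin 2) F}

theorem kp_add (f g : PR I) : kp α β Pp (f + g) = kp α β Pp f + kp α β Pp g := by
  rw [kp, add_mul, map_add, kp, kp]

theorem kp_sq_mul (f g : PR I) : kp α β Pp (f ^ 2 * g) = f * kp α β Pp g := by
  rw [kp, mul_assoc, car_sq_mul, kp]

theorem kF_eq (hw : WDF α β Pp x) {f : PR I} (hf : f ∈ Wd (cw (UU α β)) 0) :
    kF α β Pp x (pv x f) = pv x (kp α β Pp f) := by
  have h : ∃ g ∈ Wd (cw (UU α β)) 0, pv x g = pv x f := ⟨f, hf, rfl⟩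
  rw [kF, dif_pos h]
  obtain ⟨h1, h2⟩ := h.choose_spec
  have h3 := hw (h.choose + f) (Submodule.add_mem _ h1 hf) (by rw [map_add, h2]; exact addSelf _)
  rw [kp_add, map_add] at h3
  exact eq_of_add h3

/-- the variables `v` -/
def V2 (β : I) : Finset (I × Fin 2 × Fin 2) := {(β, 0, 0), (β, 1, 0)}

/-- the variable `t` -/
def T1 (α : I) : Finset (I × Fin 2 × Fin 2) := {(α, 1, 1)}

theorem card_V2 : (V2 β).card = 2 := by
  rw [V2, Finset.card_pair]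
  simp

theorem card_T1 : (T1 α).card = 1 := Finset.card_singleton _

theorem card_L : ((AB α β)ᶜ).card =
    4 * (Finset.univ.filter (fun i => ¬ (i = α ∨ i = β))).card := by
  have h1 : (AB α β)ᶜ = (Finset.univ.filter (fun i => ¬ (i = α ∨ i = β))) ×ˢ
      (Finset.univ : Finset (Fin 2 × Fin 2)) := by
    ext s
    rw [Finset.mem_compl, mem_AB, Finset.mem_product, Finset.mem_filter]
    simp
  rw [h1, Finset.card_product]
  simp [Fintype.card_prod]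
  ring

theorem wd0 {U : Finset (I × Fin 2 × Fin 2)} {s : I × Fin 2 × Fin 2} (h : s ∉ U) :
    (X s : PR I) ∈ Wd (cw U) 0 := Wd_X (by rw [cw_notMem h])

theorem wd1 {U : Finset (I × Fin 2 × Fin 2)} (s : I × Fin 2 × Fin 2) :
    (X s : PR I) ∈ Wd (cw U) 1 := Wd_X (by rw [cw]; split_ifs <;> omega)

theorem XU_UU : (∏ s ∈ UU α β, (X s : PR I)) ∈ Wd (cw (UU α β)) (UU α β).card := by
  have h := Wd_prod (ω := cw (UU α β)) (UU α β) (fun _ => 1) (fun s => (X s : PR I))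
    (fun s _ => wd1 s)
  rwa [Finset.sum_const, smul_eq_mul, mul_one] at h

theorem XU_disj {U V : Finset (I × Fin 2 × Fin 2)} (h : Disjoint U V) :
    (∏ s ∈ U, (X s : PR I)) ∈ Wd (cw V) 0 := by
  have h := Wd_prod (ω := cw V) U (fun _ => 0) (fun s => (X s : PR I))
    (fun s hs => wd0 fun h1 => Finset.disjoint_left.1 h hs h1)
  rwa [Finset.sum_const_zero] at h

theorem V2_sub : V2 β ⊆ AB α β := by
  intro s hs
  rw [mem_AB]
  simp only [V2, Finset.mem_insert, Finset.mem_singleton] at hs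
  rcases hs with rfl | rfl <;> exact Or.inr rfl

theorem T1_sub : T1 α ⊆ AB α β := by
  intro s hs
  rw [mem_AB]
  simp only [T1, Finset.mem_singleton] at hs
  rw [hs]
  exact Or.inl rfl

theorem disj_UV (hαβ : α ≠ β) : Disjoint (UU α β) (V2 β) := by
  rw [Finset.disjoint_left]
  intro s hs h
  simp only [UU, V2, Finset.mem_insert, Finset.mem_singleton] at hs h
  rcases h with rfl | rfl <;> simp [hαβ.symm] at hs

theorem disj_UT (hαβ : α ≠ β) : Disjoint (UU α β) (T1 α) := by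
  rw [Finset.disjoint_left]
  intro s hs h
  simp only [UU, T1, Finset.mem_insert, Finset.mem_singleton] at hs h
  subst h
  simp [hαβ] at hs

theorem disj_VT (hαβ : α ≠ β) : Disjoint (V2 β) (T1 α) := by
  rw [Finset.disjoint_left]
  intro s hs h
  simp only [V2, T1, Finset.mem_insert, Finset.mem_singleton] at hs h
  subst h
  simp [hαβ] at hs

theorem disj_L {U : Finset (I × Fin 2 × Fin 2)} (h : U ⊆ AB α β) : Disjoint U (AB α β)ᶜ := by
  rw [Finset.disjoint_left]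
  intro s hs h1
  exact Finset.mem_compl.1 h1 (h hs)

theorem Gp_L : (Gp α β : PR I) ∈ Wd (cw (AB α β)ᶜ)
    (2 * (Finset.univ.filter (fun i => ¬ (i = α ∨ i = β))).card) := by
  have h := Wd_prod (ω := cw (AB α β)ᶜ) (Finset.univ.filter (fun i => ¬ (i = α ∨ i = β)))
    (fun _ => 2) (fun i => (gr i : PR I)) (fun i _ => ?_)
  · rw [Finset.sum_const, smul_eq_mul, mul_comm] at h
    exact h
  · refine gr_Wd (n := 1) i fun a b => ?_
    rw [cw]
    split_ifs <;> omega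

theorem fp_eq : fp α Pp = (Pp 0 1 + Pp 1 0) + (Pp 1 1 + 1) * tp α := by
  rw [fp, (Mp_eq 0).1, (Mp_eq 1).2]
  ring

theorem PL.fp_V (h : PL α β Pp P) (hαβ : α ≠ β) : fp α Pp ∈ Wd (cw (V2 β)) 0 := by
  have h1 : ∀ a b, Pp a b ∈ Wd (cw (V2 β)) 0 := fun a b => Wd_sub V2_sub (h.free a b)
  rw [fp_eq]
  refine Submodule.add_mem _ (Submodule.add_mem _ (h1 _ _) (h1 _ _))
    (Wd_mul (Submodule.add_mem _ (h1 _ _) Wd_one) (wd0 ?_))
  simp [V2, hαβ]

theorem PL.Mp_V (h : PL α β Pp P) (hαβ : α ≠ β) (a b : Fin 2) :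
    Mp α Pp a b ∈ Wd (cw (V2 β)) 0 := by
  have h1 : ∀ a b, Pp a b ∈ Wd (cw (V2 β)) 0 := fun a b => Wd_sub V2_sub (h.free a b)
  fin_cases b
  · change Mp α Pp a 0 ∈ _
    rw [(Mp_eq a).1]
    exact h1 _ _
  · change Mp α Pp a 1 ∈ _
    rw [(Mp_eq a).2]
    refine Submodule.add_mem _ (h1 _ _) (Wd_mul (h1 _ _) (wd0 ?_))
    simp [V2, hαβ]

theorem PL.Qp_V (h : PL α β Pp P) (hαβ : α ≠ β) : Qp α β Pp ∈ Wd (cw (V2 β)) 2 := by
  have hM := h.Mp_V hαβ
  have hs : ∀ s, (X s : PR I) ^ 2 ∈ Wd (cw (V2 β)) 2 := by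
    intro s
    rw [pow_two]
    exact Wd_mul (n := 1) (m := 1) (wd1 s) (wd1 s)
  rw [Qp]
  refine Submodule.add_mem _ (Submodule.add_mem _ (Submodule.add_mem _ ?_ ?_) ?_) Wd_one
  · exact Wd_mono (by omega) (Wd_mul (hM _ _) (hs _))
  · exact Wd_mono (by omega) (Wd_mul (Submodule.add_mem _ (hM _ _) (hM _ _))
      (Wd_mul (n := 1) (m := 1) (wd1 _) (wd1 _)))
  · exact Wd_mono (by omega) (Wd_mul (hM _ _) (hs _))

theorem Gp_sub {U : Finset (I × Fin 2 × Fin 2)} (h : U ⊆ AB α β) : (Gp α β : PR I) ∈ Wd (cw U) 0 :=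
  Wd_sub h Gp_AB

theorem PL.kp_UU (h : PL α β Pp P) (hαβ : α ≠ β) {f : PR I} (hf : f ∈ Wd (cw (UU α β)) 0) :
    kp α β Pp f ∈ Wd (cw (UU α β)) 0 := by
  have h1 := car_Wd (Wd_mul hf (Wd_mul (Wd_mul (Wd_mul (Gp_free (α := α) (β := β))
    (h.fp_free hαβ)) (h.Qp_free hαβ)) (XU_UU (α := α) (β := β))))
  rw [sum_cw] at h1
  exact Wd_mono (by omega) h1

theorem PL.kp_V (h : PL α β Pp P) (hαβ : α ≠ β) {f : PR I} {n : ℕ} (hf : f ∈ Wd (cw (V2 β)) n) :
    kp α β Pp f ∈ Wd (cw (V2 β)) (n / 2) := by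
  have h1 := car_Wd (Wd_mul hf (Wd_mul (Wd_mul (Wd_mul (Gp_sub (α := α) (β := β) V2_sub)
    (h.fp_V hαβ)) (h.Qp_V hαβ)) (XU_disj (disj_UV hαβ))))
  rw [sum_cw, card_V2] at h1
  exact Wd_mono (by omega) h1

/-- the product of `t`, `v₁`, `v₂` and the eliminated variables -/
theorem prod_AB (hαβ : α ≠ β) : ∏ s ∈ AB α β, (X s : PR I) =
    tp α * (X (β, 0, 0) * X (β, 1, 0)) * ∏ s ∈ UU α β, X s := by
  have h1 : AB α β = insert (α, 1, 1) (insert (β, 0, 0) (insert (β, 1, 0) (UU α β))) := by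
    ext s
    obtain ⟨i, a, b⟩ := s
    rw [mem_AB]
    simp only [UU, Finset.mem_insert, Finset.mem_singleton, Prod.mk.injEq]
    fin_cases a <;> fin_cases b <;> simp <;> tauto
  rw [h1, Finset.prod_insert, Finset.prod_insert, Finset.prod_insert, tp]
  · ring
  all_goals simp [UU, hαβ, hαβ.symm]

/-- the operator for the polynomials without `v` -/
noncomputable def k0 (α β : I) (Pp : Matrix (Fin 2) (Fin 2) (PR I)) (f : PR I) : PR I :=
  car (f * (tp α * Gp α β * fp α Pp * (X (β, 0, 0) * X (β, 1, 0)) * ∏ s ∈ UU α β, X s))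

theorem k0_add (f g : PR I) : k0 α β Pp (f + g) = k0 α β Pp f + k0 α β Pp g := by
  rw [k0, add_mul, map_add, k0, k0]

theorem PL.kp_k0 (h : PL α β Pp P) (hx : Sl α β P x) (hαβ : α ≠ β) {f : PR I}
    (hf : f ∈ Wd (cw (V2 β)) 0) : pv x (kp α β Pp f) = pv x (k0 α β Pp f) := by
  have hG := Gp_sub (α := α) (β := β) (I := I) (V2_sub)
  have hM := h.Mp_V hαβ
  have hfp := h.fp_V hαβ
  have hX := XU_disj (disj_UV hαβ)
  have hlt : (0 : ℕ) < ∑ s, cw (V2 β) s := by rw [sum_cw, card_V2]; omega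
  have z : ∀ g ∈ Wd (cw (V2 β)) 0, car (f * (Gp α β * fp α Pp * g * ∏ s ∈ UU α β, X s)) = 0 := by
    intro g hg
    exact car_Wd_zero (Wd_mul hf (Wd_mul (Wd_mul (Wd_mul hG hfp) hg) hX)) hlt
  have e : f * Wp α β Pp = (X (β, 0, 0) ^ 2 * (f * (Gp α β * fp α Pp * Mp α Pp 1 0 *
      ∏ s ∈ UU α β, X s)) + X (β, 1, 0) ^ 2 * (f * (Gp α β * fp α Pp * Mp α Pp 0 1 *
      ∏ s ∈ UU α β, X s)) + f * (Gp α β * fp α Pp * 1 * ∏ s ∈ UU α β, X s)) +
      (fp α Pp ^ 2 * (f * (Gp α β * (X (β, 0, 0) * X (β, 1, 0)) * ∏ s ∈ UU α β, X s)) +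
      f * (tp α * Gp α β * fp α Pp * (X (β, 0, 0) * X (β, 1, 0)) * ∏ s ∈ UU α β, X s)) := by
    have h2 := two_zero (PR I)
    have e2 : Mp α Pp 0 0 + Mp α Pp 1 1 = fp α Pp + tp α := by
      rw [fp]
      linear_combination (-(tp α)) * h2
    rw [Wp, Qp, e2]
    ring
  have e3 : kp α β Pp f = fp α Pp * car (f * (Gp α β * (X (β, 0, 0) * X (β, 1, 0)) *
      ∏ s ∈ UU α β, X s)) + k0 α β Pp f := by
    rw [kp, e]
    simp only [map_add car, car_sq_mul]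
    rw [z _ (hM _ _), z _ (hM _ _), z _ Wd_one, k0]
    ring
  rw [e3, map_add (pv x), map_mul (pv x), h.pv_fp hx, zero_mul, zero_add]

theorem PL.k0_UU (h : PL α β Pp P) (hαβ : α ≠ β) {f : PR I} (hf : f ∈ Wd (cw (UU α β)) 0) :
    k0 α β Pp f ∈ Wd (cw (UU α β)) 0 := by
  have h0 : (tp α : PR I) ∈ Wd (cw (UU α β)) 0 := (tp_free (β := β)).resolve_right hαβ
  have h1 := car_Wd (Wd_mul hf (Wd_mul (Wd_mul (Wd_mul (Wd_mul h0 (Gp_free (α := α) (β := β)))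
    (h.fp_free hαβ)) (Wd_mul (v_free hαβ 0) (v_free hαβ 1))) (XU_UU (α := α) (β := β))))
  rw [sum_cw] at h1
  exact Wd_mono (by omega) h1

theorem PL.k0_V (h : PL α β Pp P) (hαβ : α ≠ β) {f : PR I} (hf : f ∈ Wd (cw (V2 β)) 0) :
    k0 α β Pp f ∈ Wd (cw (V2 β)) 0 := by
  have h0 : (tp α : PR I) ∈ Wd (cw (V2 β)) 0 := wd0 (by simp [V2, hαβ])
  have h1 := car_Wd (Wd_mul hf (Wd_mul (Wd_mul (Wd_mul (Wd_mul h0
    (Gp_sub (α := α) (β := β) V2_sub)) (h.fp_V hαβ)) (Wd_mul (wd1 (β, 0, 0)) (wd1 (β, 1, 0))))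
    (XU_disj (disj_UV hαβ))))
  rw [sum_cw, card_V2] at h1
  exact Wd_mono (by omega) h1

theorem PL.k0_T (h : PL α β Pp P) (hαβ : α ≠ β) {f : PR I} {n : ℕ} (hf : f ∈ Wd (cw (T1 α)) n) :
    k0 α β Pp f ∈ Wd (cw (T1 α)) ((n + 1) / 2) := by
  have h1 : ∀ a b, Pp a b ∈ Wd (cw (T1 α)) 0 := fun a b => Wd_sub T1_sub (h.free a b)
  have h2 : fp α Pp ∈ Wd (cw (T1 α)) 1 := by
    rw [fp_eq]
    refine Submodule.add_mem _ (Wd_mono (Nat.zero_le _) (Submodule.add_mem _ (h1 _ _) (h1 _ _))) ?_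
    exact Wd_mono (by omega) (Wd_mul (Submodule.add_mem _ (h1 _ _) Wd_one) (wd1 _))
  have h3 : ∀ a, (X (β, a, 0) : PR I) ∈ Wd (cw (T1 α)) 0 := fun a => wd0 (by simp [T1, hαβ.symm])
  have h4 := car_Wd (Wd_mul hf (Wd_mul (Wd_mul (Wd_mul (Wd_mul (wd1 (α, 1, 1))
    (Gp_sub (α := α) (β := β) T1_sub)) h2) (Wd_mul (h3 0) (h3 1)))
    (XU_disj (disj_UT hαβ))))
  rw [sum_cw, card_T1] at h4
  exact Wd_mono (by omega) h4

theorem tp_L : (tp α : PR I) ∈ Wd (cw (AB α β)ᶜ) 0 :=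
  wd0 (by rw [Finset.mem_compl, mem_AB]; simp)

theorem PL.fp_L (h : PL α β Pp P) : fp α Pp ∈ Wd (cw (AB α β)ᶜ)
    (2 * (Finset.univ.filter (fun i => ¬ (i = α ∨ i = β))).card) := by
  rw [fp_eq]
  refine Submodule.add_mem _ (Submodule.add_mem _ (h.deg _ _) (h.deg _ _)) ?_
  exact Wd_mono (by omega) (Wd_mul (Submodule.add_mem _ (h.deg _ _) Wd_one) tp_L)

theorem PL.k0_L (h : PL α β Pp P) (hαβ : α ≠ β) {f : PR I} {n : ℕ}
    (hf : f ∈ Wd (cw (AB α β)ᶜ) n) : k0 α β Pp f ∈ Wd (cw (AB α β)ᶜ) (n / 2) := by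
  have h3 : ∀ a, (X (β, a, 0) : PR I) ∈ Wd (cw (AB α β)ᶜ) 0 := fun a =>
    wd0 (by rw [Finset.mem_compl, mem_AB]; simp)
  have h4 := car_Wd (Wd_mul hf (Wd_mul (Wd_mul (Wd_mul (Wd_mul (tp_L (α := α) (β := β))
    (Gp_L (α := α) (β := β))) h.fp_L) (Wd_mul (h3 0) (h3 1)))
    (XU_disj (disj_L (UU_sub α β)))))
  rw [sum_cw, card_L (α := α) (β := β)] at h4
  exact Wd_mono (by omega) h4

/-- the polynomial is a combination of `1` and `t` -/
theorem two_terms {f : PR I} (h1 : f ∈ Wd (cw (UU α β)) 0)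
    (h2 : f ∈ Wd (cw (V2 β)) 0) (h3 : f ∈ Wd (cw (AB α β)ᶜ) 0) (h4 : f ∈ Wd (cw (T1 α)) 1) :
    ∃ a b : ZMod 2, f = C a + C b * tp α := by
  have key : ∀ e, coeff e f ≠ 0 → e = 0 ∨ e = Finsupp.single (α, 1, 1) 1 := by
    intro e he
    have k1 := h1 e he
    have k2 := h2 e he
    have k3 := h3 e he
    have k4 := h4 e he
    have o : ∀ s, s ≠ (α, 1, 1) → e s = 0 := by
      intro s hs
      by_cases hsA : s ∈ AB α β
      · by_cases hsU : s ∈ UU α β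
        · exact wt_eq_zero k1 (by rw [cw_mem hsU]; exact one_ne_zero)
        · refine wt_eq_zero k2 ?_
          rw [cw_mem]
          · exact one_ne_zero
          · rw [mem_AB] at hsA
            obtain ⟨i, a, b⟩ := s
            simp only [UU, V2, Finset.mem_insert, Finset.mem_singleton, Prod.mk.injEq, ne_eq] at *
            fin_cases a <;> fin_cases b <;> simp at * <;> tauto
      · exact wt_eq_zero k3 (by rw [cw_mem (Finset.mem_compl.2 hsA)]; exact one_ne_zero)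
    have t1 : e (α, 1, 1) ≤ 1 := by
      rw [wt, Finset.sum_eq_single (α, 1, 1), cw_mem, mul_one] at k4
      · exact k4
      · exact Finset.mem_singleton_self _
      · intro s _ hs
        rw [o s hs, zero_mul]
      · intro h
        exact absurd (Finset.mem_univ _) h
    rcases Nat.le_one_iff_eq_zero_or_eq_one.1 t1 with t0 | t0
    · left
      ext s
      by_cases hs : s = (α, 1, 1)
      · rw [hs, t0]
        rfl
      · rw [o s hs]
        rfl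
    · right
      ext s
      by_cases hs : s = (α, 1, 1)
      · rw [hs, t0, Finsupp.single_eq_same]
      · rw [o s hs, Finsupp.single_eq_of_ne hs]
  refine ⟨coeff 0 f, coeff (Finsupp.single (α, 1, 1) 1) f, ?_⟩
  ext e
  rw [coeff_add, coeff_C, coeff_C_mul, tp, coeff_X]
  have ne : (0 : I × Fin 2 × Fin 2 →₀ ℕ) ≠ Finsupp.single (α, 1, 1) 1 := by
    intro h
    have := DFunLike.congr_fun h (α, 1, 1)
    rw [Finsupp.single_eq_same] at this
    exact absurd this (by simp)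
  by_cases he : coeff e f = 0
  · rw [he]
    by_cases e0 : 0 = e
    · subst e0
      rw [if_pos rfl, if_neg ne.symm, he]
      simp
    · by_cases e1 : Finsupp.single (α, 1, 1) 1 = e
      · subst e1
        rw [if_neg e0, if_pos rfl, he]
        simp
      · rw [if_neg e0, if_neg e1]
        simp
  · rcases key e he with rfl | rfl
    · rw [if_pos rfl, if_neg ne.symm]
      simp
    · rw [if_neg ne, if_pos rfl]
      simp

theorem PL.k0_one (h : PL α β Pp P) (hαβ : α ≠ β) : k0 α β Pp 1 = 0 := by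
  have hlt : (0 : ℕ) < ∑ s, cw (T1 α) s := by rw [sum_cw, card_T1]; omega
  have h1 : ∀ a b, Pp a b ∈ Wd (cw (T1 α)) 0 := fun a b => Wd_sub T1_sub (h.free a b)
  have h3 : ∀ a, (X (β, a, 0) : PR I) ∈ Wd (cw (T1 α)) 0 := fun a => wd0 (by simp [T1, hαβ.symm])
  have e : 1 * (tp α * Gp α β * fp α Pp * (X (β, 0, 0) * X (β, 1, 0)) * ∏ s ∈ UU α β, X s) =
      Pp 0 1 * Gp α β * ∏ s ∈ AB α β, X s + Pp 1 0 * Gp α β * ∏ s ∈ AB α β, X s +
      tp α ^ 2 * (Gp α β * (Pp 1 1 + 1) * (X (β, 0, 0) * X (β, 1, 0)) * ∏ s ∈ UU α β, X s) := by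
    rw [prod_AB hαβ, fp_eq]
    ring
  rw [k0, e, map_add, map_add, h.tra, h.tra, car_sq_mul, car_Wd_zero (Wd_mul (Wd_mul (Wd_mul
    (Gp_sub (α := α) (β := β) T1_sub) (Submodule.add_mem _ (h1 1 1) Wd_one))
    (Wd_mul (h3 0) (h3 1))) (XU_disj (disj_UT hαβ))) hlt]
  simp

theorem PL.k0_tp (h : PL α β Pp P) (hαβ : α ≠ β)
    (hm : 0 < (Finset.univ.filter (fun i => ¬ (i = α ∨ i = β))).card) :
    k0 α β Pp (tp α) = tp α := by
  have hlt : (0 : ℕ) < ∑ s, cw (T1 α) s := by rw [sum_cw, card_T1]; omega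
  have h1 : ∀ a b, Pp a b ∈ Wd (cw (T1 α)) 0 := fun a b => Wd_sub T1_sub (h.free a b)
  have h3 : ∀ a, (X (β, a, 0) : PR I) ∈ Wd (cw (T1 α)) 0 := fun a => wd0 (by simp [T1, hαβ.symm])
  have e : tp α * (tp α * Gp α β * fp α Pp * (X (β, 0, 0) * X (β, 1, 0)) *
      ∏ s ∈ UU α β, X s) =
      tp α ^ 2 * (Gp α β * (Pp 0 1 + Pp 1 0) * (X (β, 0, 0) * X (β, 1, 0)) * ∏ s ∈ UU α β, X s +
      (Pp 1 1 * Gp α β * ∏ s ∈ AB α β, X s + Gp α β * ∏ s ∈ AB α β, X s)) := by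
    rw [prod_AB hαβ, fp_eq]
    ring
  have z1 := car_Wd_zero (Wd_mul (Wd_mul (Wd_mul
    (Gp_sub (α := α) (β := β) T1_sub) (Submodule.add_mem _ (h1 0 1) (h1 1 0)))
    (Wd_mul (h3 0) (h3 1))) (XU_disj (disj_UT hαβ))) hlt
  have z2 : car (Gp α β * ∏ s ∈ AB α β, X s : PR I) = 0 := by
    refine car_Wd_zero (Wd_mul (Gp_L (α := α) (β := β))
      (XU_disj (disj_L (Finset.Subset.refl _)))) ?_
    rw [sum_cw, card_L (α := α) (β := β)]
    omega
  rw [k0, e, car_sq_mul, map_add, map_add, z1, z2, h.tra]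
  simp

/-- the last step -/
theorem PL.last (h : PL α β Pp P) (hx : Sl α β P x) (hαβ : α ≠ β)
    (hm : 0 < (Finset.univ.filter (fun i => ¬ (i = α ∨ i = β))).card) (hw : WDF α β Pp x)
    (a b : ZMod 2) : kF α β Pp x (pv x (C a + C b * tp α)) = 0 ∨
      kF α β Pp x (pv x (C a + C b * tp α)) = pv x (tp α) := by
  have hC : ∀ (c : ZMod 2) (U : Finset (I × Fin 2 × Fin 2)), (C c : PR I) ∈ Wd (cw U) 0 := by
    intro c U
    rcases zmod2_cases c with rfl | rfl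
    · rw [map_zero]; exact Submodule.zero_mem _
    · rw [map_one]; exact Wd_one
  have hU : (tp α : PR I) ∈ Wd (cw (UU α β)) 0 := (tp_free (β := β)).resolve_right hαβ
  have hV : (tp α : PR I) ∈ Wd (cw (V2 β)) 0 := wd0 (by simp [V2, hαβ])
  rw [kF_eq hw (Submodule.add_mem _ (hC a _) (Wd_mul (hC b _) hU)),
    h.kp_k0 hx hαβ (Submodule.add_mem _ (hC a _) (Wd_mul (hC b _) hV)), k0_add]
  have e1 : k0 α β Pp (C a) = 0 := by
    rcases zmod2_cases a with rfl | rfl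
    · rw [map_zero, k0, zero_mul, map_zero]
    · rw [map_one]; exact h.k0_one hαβ
  rw [e1, zero_add]
  rcases zmod2_cases b with rfl | rfl
  · left
    rw [map_zero, zero_mul, k0, zero_mul, map_zero, map_zero]
  · right
    rw [map_one, one_mul, h.k0_tp hαβ hm]

/-- `κ(t) = t` -/
theorem PL.kF_tp (h : PL α β Pp P) (hx : Sl α β P x) (hαβ : α ≠ β)
    (hm : 0 < (Finset.univ.filter (fun i => ¬ (i = α ∨ i = β))).card) (hw : WDF α β Pp x) :
    kF α β Pp x (pv x (tp α)) = pv x (tp α) := by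
  have hU : (tp α : PR I) ∈ Wd (cw (UU α β)) 0 := (tp_free (β := β)).resolve_right hαβ
  have hV : (tp α : PR I) ∈ Wd (cw (V2 β)) 0 := wd0 (by simp [V2, hαβ])
  rw [kF_eq hw hU, h.kp_k0 hx hαβ hV, h.k0_tp hαβ hm]

theorem PL.stB (h : PL α β Pp P) (hx : Sl α β P x) (hαβ : α ≠ β)
    (hm : 0 < (Finset.univ.filter (fun i => ¬ (i = α ∨ i = β))).card) (hw : WDF α β Pp x)
    (n : ℕ) : ∀ a b : ℕ, a + b ≤ n → ∀ f : PR I, f ∈ Wd (cw (UU α β)) 0 → f ∈ Wd (cw (V2 β)) 0 →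
      f ∈ Wd (cw (AB α β)ᶜ) a → f ∈ Wd (cw (T1 α)) b →
      ∃ N, (kF α β Pp x)^[N] (pv x f) = 0 ∨ (kF α β Pp x)^[N] (pv x f) = pv x (tp α) := by
  induction n with
  | zero =>
    intro a b hab f h1 h2 h3 h4
    have ha : a = 0 := by omega
    have hb : b = 0 := by omega
    subst ha hb
    obtain ⟨c, d, rfl⟩ := two_terms h1 h2 h3 (Wd_mono (Nat.zero_le _) h4)
    exact ⟨1, h.last hx hαβ hm hw c d⟩
  | succ n ih =>
    intro a b hab f h1 h2 h3 h4
    by_cases hc : a = 0 ∧ b ≤ 1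
    · obtain ⟨rfl, hb⟩ := hc
      obtain ⟨c, d, rfl⟩ := two_terms h1 h2 h3 (Wd_mono hb h4)
      exact ⟨1, h.last hx hαβ hm hw c d⟩
    · obtain ⟨N, hN⟩ := ih (a / 2) ((b + 1) / 2) (by omega) (k0 α β Pp f) (h.k0_UU hαβ h1)
        (h.k0_V hαβ h2) (h.k0_L hαβ h3) (h.k0_T hαβ h4)
      refine ⟨N + 1, ?_⟩
      rw [Function.iterate_succ_apply, kF_eq hw h1, h.kp_k0 hx hαβ h2]
      exact hN

theorem PL.stA (h : PL α β Pp P) (hx : Sl α β P x) (hαβ : α ≠ β)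
    (hm : 0 < (Finset.univ.filter (fun i => ¬ (i = α ∨ i = β))).card) (hw : WDF α β Pp x)
    (n : ℕ) : ∀ a : ℕ, a ≤ n → ∀ f : PR I, f ∈ Wd (cw (UU α β)) 0 → f ∈ Wd (cw (V2 β)) a →
      ∃ N, (kF α β Pp x)^[N] (pv x f) = 0 ∨ (kF α β Pp x)^[N] (pv x f) = pv x (tp α) := by
  have base : ∀ f : PR I, f ∈ Wd (cw (UU α β)) 0 → f ∈ Wd (cw (V2 β)) 0 →
      ∃ N, (kF α β Pp x)^[N] (pv x f) = 0 ∨ (kF α β Pp x)^[N] (pv x f) = pv x (tp α) := by
    intro f h1 h2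
    obtain ⟨a, ha⟩ := exists_Wd (cw (AB α β)ᶜ) f
    obtain ⟨b, hb⟩ := exists_Wd (cw (T1 α)) f
    exact h.stB hx hαβ hm hw (a + b) a b le_rfl f h1 h2 ha hb
  induction n with
  | zero =>
    intro a ha f h1 h2
    have : a = 0 := by omega
    subst this
    exact base f h1 h2
  | succ n ih =>
    intro a ha f h1 h2
    by_cases hc : a = 0
    · subst hc
      exact base f h1 h2
    · obtain ⟨N, hN⟩ := ih (a / 2) (by omega) (kp α β Pp f) (h.kp_UU hαβ h1) (h.kp_V hαβ h2)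
      refine ⟨N + 1, ?_⟩
      rw [Function.iterate_succ_apply, kF_eq hw h1]
      exact hN

/-- **(K1)**: the iterates of the operator end in `0` or `t`. -/
theorem PL.K1 (h : PL α β Pp P) (hx : Sl α β P x) (hαβ : α ≠ β)
    (hm : 0 < (Finset.univ.filter (fun i => ¬ (i = α ∨ i = β))).card) (hw : WDF α β Pp x)
    {f : PR I} (hf : f ∈ Wd (cw (UU α β)) 0) :
    ∃ N, (kF α β Pp x)^[N] (pv x f) = 0 ∨ (kF α β Pp x)^[N] (pv x f) = pv x (tp α) := by
  obtain ⟨n, hn⟩ := exists_Wd (cw (V2 β)) f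
  exact h.stA hx hαβ hm hw n n le_rfl f hf hn

end kk

end Pool.Agent.SuM
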