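import Pool.Agent.Lib.MP_305fdd_al.Su.M.Pt2
import Pool.Agent.Lib.MP_305fdd_al.Su.M.Ext
import Pool.Agent.Lib.MP_305fdd_al.Su.F.W5

/-!
# MP_305fdd_al, surface groups, model block: the operator on the field of fractions of the ring of
the traces
-/

set_option autoImplicit false
set_option linter.unusedSectionVars false

namespace Pool.Agent.SuM

open MvPolynomial Pool.Agent.SuF Pool.Agent.FrN Pool.Agent.F2Ch

section main

variable {I : Type} [Fintype I] [DecidableEq I] {F K : Type} [Field F] [Algebra (ZMod 2) F]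
  [Field K] [Algebra (ZMod 2) K] [Algebra K F]
variable {α β : I} {Pp : Matrix (Fin 2) (Fin 2) (PR I)} {P : FreeGroup I}
  {x : I → Matrix.SpecialLinearGroup (Fin 2) F} {Ys : Finset (I × Fin 2 × Fin 2)}

/-- the ring of the traces of the free group -/
noncomputable def TA' (I : Type) [Fintype I] : Subalgebra (ZMod 2) (AR I) :=
  Algebra.adjoin (ZMod 2) (Set.range (rT : FreeGroup I → AR I))

theorem rT_mem (w : FreeGroup I) : rT w ∈ TA' I := Algebra.subset_adjoin ⟨w, rfl⟩

theorem TA_ind {p : AR I → Prop} (h0 : p 0) (h1 : p 1) (ht : ∀ w, p (rT w))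
    (hadd : ∀ f g, f ∈ TA' I → g ∈ TA' I → p f → p g → p (f + g))
    (hmul : ∀ f g, f ∈ TA' I → g ∈ TA' I → p f → p g → p (f * g))
    {f : AR I} (hf : f ∈ TA' I) : p f := by
  refine Algebra.adjoin_induction (p := fun f _ => p f) ?_ ?_ ?_ ?_ hf
  · rintro _ ⟨w, rfl⟩
    exact ht w
  · intro r
    rcases zmod2_cases r with rfl | rfl
    · rw [map_zero]; exact h0
    · rw [map_one]; exact h1
  · intro f g hf hg
    exact hadd f g hf hg
  · intro f g hf hg
    exact hmul f g hf hg

theorem aD_TA {f : AR I} (hf : f ∈ TA' I) : aD f = 0 := by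
  refine TA_ind (p := fun f => aD f = 0) (map_zero _) (Derivation.map_one_eq_zero _)
    (fun w => (ivt_rT w).D) ?_ ?_ hf
  · intro f g _ _ h1 h2
    rw [map_add, h1, h2, add_zero]
  · intro f g _ _ h1 h2
    rw [Derivation.leibniz, h1, h2, smul_zero, smul_zero, add_zero]

theorem aE_TA {f : AR I} (hf : f ∈ TA' I) : aE f = 0 := by
  refine TA_ind (p := fun f => aE f = 0) (map_zero _) (Derivation.map_one_eq_zero _)
    (fun w => (ivt_rT w).E) ?_ ?_ hf
  · intro f g _ _ h1 h2
    rw [map_add, h1, h2, add_zero]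
  · intro f g _ _ h1 h2
    rw [Derivation.leibniz, h1, h2, smul_zero, smul_zero, add_zero]

theorem aH_TA {f : AR I} (hf : f ∈ TA' I) : aH f = 0 := by
  refine TA_ind (p := fun f => aH f = 0) (map_zero _) (Derivation.map_one_eq_zero _)
    (fun w => aH_rT w) ?_ ?_ hf
  · intro f g _ _ h1 h2
    rw [map_add, h1, h2, add_zero]
  · intro f g _ _ h1 h2
    rw [Derivation.leibniz, h1, h2, smul_zero, smul_zero, add_zero]

/-- the value of the Cartier operator of the scheme of the representations -/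
noncomputable def SS (z : FreeGroup I) (k : AR I) (w : FreeGroup I) : AR I :=
  CG (k * rT z * (rM (w * z⁻¹) 0 0 + rM w 0 0))

theorem SS_inv (z : FreeGroup I) {k : AR I} (hk : k ∈ TA' I) (w : FreeGroup I) :
    SS z k w ∈ TA' I := by
  have h1 : IsInv (k * rT z) := isInv_of_mem_TA (mul_mem hk (rT_mem z))
  refine fft ?_
  rw [SS, mul_add, map_add]
  exact (isInv_CG h1 _).add (isInv_CG h1 _)

theorem SS_eps {z : FreeGroup I} (hz : z ∈ commutator (FreeGroup I)) (k : AR I)
    (w : FreeGroup I) : eps (SS z k w) = 0 := by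
  have e : k * rT z * (rM (w * z⁻¹) 0 0 + rM w 0 0) =
      k * (rM (w * z⁻¹) 0 0 + rM w 0 0) * rT z := by ring
  rw [SS, e]
  exact eps_CG_rT hz _

theorem SS_sq (z : FreeGroup I) (f k : AR I) (w : FreeGroup I) :
    SS z (k * f * f) w = f * SS z k w := by
  rw [SS, SS, ← CG_sq_mul]
  congr 1
  ring

theorem zmk_SS (z : FreeGroup I) {k : AR I} (hk : k ∈ TA' I) (w : FreeGroup I) :
    zmk z (SS z k w) = CR z (zmk z (k * rM w 0 0)) :=
  (CR_word z ⟨aD_TA hk, aE_TA hk⟩ w).symm

/-- the point `x` as a point of the scheme of the representations -/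
theorem ev_of_zmk {z : FreeGroup I} (hz : FreeGroup.lift x z = 1) {f g : AR I}
    (h : zmk z f = zmk z g) : ev x f = ev x g := by
  have h1 : ∀ u ∈ JZ z, ev x u = 0 := by
    intro u hu
    refine Submodule.span_induction (p := fun u _ => ev x u = 0) ?_ ?_ ?_ ?_ hu
    · rintro _ ⟨j, rfl⟩
      have e : ∀ a b, ev x (rM z a b) = (1 : Matrix (Fin 2) (Fin 2) F) a b := by
        intro a b
        rw [ev_rM_apply, hz]
        rfl
      fin_cases j
      · change ev x (rM z 0 0 + 1) = 0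
        rw [map_add, e, map_one]
        exact addSelf _
      · change ev x (rM z 0 1) = 0
        rw [e]
        rfl
      · change ev x (rM z 1 0) = 0
        rw [e]
        rfl
    · exact map_zero _
    · intro u v _ _ h1 h2
      rw [map_add, h1, h2, add_zero]
    · intro a u _ h1
      rw [smul_eq_mul, map_mul, h1, mul_zero]
  have h2 : f - g ∈ JZ z := by
    rw [← zmk_eq_zero, map_sub, h, sub_self]
  have h3 := h1 _ h2
  rwa [map_sub, sub_eq_zero] at h3

/-- the formula (F) at `x` -/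
theorem ev_SS {z : FreeGroup I} (hz : FreeGroup.lift x z = 1) {k : AR I} (hk : k ∈ TA' I)
    (w y : FreeGroup I) : ev x (SS z (k * rT y * rT w) y) = ev x (rT y) * ev x (SS z k w) := by
  have h1 : zmk z (SS z (k * rT y * rT w) y) = zmk z (SS z (k * rT y * rT y) w) := by
    have hk1 : k * rT y ∈ TA' I := mul_mem hk (rT_mem y)
    rw [zmk_SS z (mul_mem hk1 (rT_mem w)), zmk_SS z (mul_mem hk1 (rT_mem y))]
    have hR := relF (inv_CR z) (ivt_mk z (k := k * rT y) ⟨aD_TA hk1, aE_TA hk1⟩)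
      (eqv_zM z w) (eqv_zM z y)
    have e : ∀ u v : FreeGroup I, zmk z (k * rT y) * ((zM z u).trace * zM z v 0 0) =
        zmk z (k * rT y * rT u * rM v 0 0) := by
      intro u v
      rw [Matrix.trace_fin_two, zM_apply, zM_apply, zM_apply, ← map_add, ← rT_eq, ← map_mul,
        ← map_mul, ← mul_assoc]
    rw [e, e] at hR
    exact hR
  rw [ev_of_zmk hz h1, SS_sq, map_mul]

/-- substitution gives polynomials without the eliminated variables -/
theorem pq_Wd {U : Finset (I × Fin 2 × Fin 2)} {q : I × Fin 2 × Fin 2 → PR I}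
    (hq : ∀ s ∈ U, q s ∈ Wd (cw U) 0) (f : PR I) : pq U q f ∈ Wd (cw U) 0 := by
  induction f using MvPolynomial.induction_on with
  | C a =>
    rcases zmod2_cases a with rfl | rfl
    · rw [map_zero, map_zero]; exact Submodule.zero_mem _
    · rw [map_one, map_one]; exact Wd_one
  | add f g hf hg => rw [map_add]; exact Submodule.add_mem _ hf hg
  | mul_X f s hf =>
    rw [map_mul]
    refine Wd_mul (n := 0) (m := 0) hf ?_
    rw [pq_X]
    split_ifs with h
    · exact hq s h
    · exact wd0 h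

/-- the ideal of the trivial representation -/
def M1 (TT : FreeGroup I → K) : Submodule (BB 2 TT) K := Submodule.span (BB 2 TT) (Set.range TT)

theorem M1_le {TT : FreeGroup I → K} {m : K} (hm : m ∈ M1 TT) : m ∈ BB 2 TT := by
  refine Submodule.span_induction (p := fun m _ => m ∈ BB 2 TT) ?_ ?_ ?_ ?_ hm
  · rintro _ ⟨w, rfl⟩
    exact Algebra.subset_adjoin ⟨w, rfl⟩
  · exact zero_mem _
  · intro a b _ _ h1 h2
    exact add_mem h1 h2
  · intro a m _ h1
    exact mul_mem a.2 h1

variable {TT : FreeGroup I → K}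

/-- values of elements of the ring of the traces -/
theorem val_TA (hT : ∀ w, (FreeGroup.lift x w).1.trace = algebraMap K F (TT w)) {f : AR I}
    (hf : f ∈ TA' I) : ∃ c : ZMod 2, ∃ m ∈ M1 TT, eps f = c ∧
      ev x f = algebraMap K F (algebraMap (ZMod 2) K c + m) := by
  refine TA_ind (p := fun f => ∃ c : ZMod 2, ∃ m ∈ M1 TT, eps f = c ∧
      ev x f = algebraMap K F (algebraMap (ZMod 2) K c + m)) ?_ ?_ ?_ ?_ ?_ hf
  · exact ⟨0, 0, zero_mem _, map_zero _, by rw [map_zero, map_zero, add_zero, map_zero]⟩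
  · exact ⟨1, 0, zero_mem _, map_one _, by rw [map_one, map_one, add_zero, map_one]⟩
  · intro w
    exact ⟨0, TT w, Submodule.subset_span ⟨w, rfl⟩, eps_rT w, by rw [ev_rT, hT, map_zero, zero_add]⟩
  · rintro f g _ _ ⟨c, m, hm, h1, h2⟩ ⟨c', m', hm', h1', h2'⟩
    refine ⟨c + c', m + m', add_mem hm hm', by rw [map_add, h1, h1'], ?_⟩
    rw [map_add (ev x), h2, h2', ← map_add (algebraMap K F), map_add (algebraMap (ZMod 2) K)]
    congr 1
    ring
  · rintro f g _ _ ⟨c, m, hm, h1, h2⟩ ⟨c', m', hm', h1', h2'⟩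
    refine ⟨c * c', algebraMap (ZMod 2) K c * m' + algebraMap (ZMod 2) K c' * m + m * m', ?_,
      by rw [map_mul, h1, h1'], ?_⟩
    · refine add_mem (add_mem ?_ ?_) ?_
      · exact (M1 TT).smul_mem (algebraMap (ZMod 2) (BB 2 TT) c) hm'
      · exact (M1 TT).smul_mem (algebraMap (ZMod 2) (BB 2 TT) c') hm
      · exact (M1 TT).smul_mem ⟨m, M1_le hm⟩ hm'
    · rw [map_mul (ev x), h2, h2', ← map_mul (algebraMap K F), map_mul (algebraMap (ZMod 2) K)]
      congr 1
      ring

theorem val_TA' (hT : ∀ w, (FreeGroup.lift x w).1.trace = algebraMap K F (TT w)) {f : AR I}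
    (hf : f ∈ TA' I) : ∃ b ∈ BB 2 TT, ev x f = algebraMap K F b := by
  obtain ⟨c, m, hm, -, h2⟩ := val_TA hT hf
  exact ⟨_, add_mem (Subalgebra.algebraMap_mem _ c) (M1_le hm), h2⟩

/-- lifts of elements of the ring of the traces -/
theorem lift_TA (hT : ∀ w, (FreeGroup.lift x w).1.trace = algebraMap K F (TT w)) {b : K}
    (hb : b ∈ BB 2 TT) : ∃ k ∈ TA' I, ev x k = algebraMap K F b := by
  refine Algebra.adjoin_induction (p := fun b _ => ∃ k ∈ TA' I, ev x k = algebraMap K F b)
    ?_ ?_ ?_ ?_ hb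
  · rintro _ ⟨w, rfl⟩
    exact ⟨rT w, rT_mem w, by rw [ev_rT, hT]⟩
  · intro r
    rcases zmod2_cases r with rfl | rfl
    · exact ⟨0, zero_mem _, by rw [map_zero, map_zero, map_zero]⟩
    · exact ⟨1, one_mem _, by rw [map_one, map_one, map_one]⟩
  · rintro a b _ _ ⟨k, hk, h1⟩ ⟨l, hl, h2⟩
    exact ⟨k + l, add_mem hk hl, by rw [map_add, h1, h2, map_add]⟩
  · rintro a b _ _ ⟨k, hk, h1⟩ ⟨l, hl, h2⟩
    exact ⟨k * l, mul_mem hk hl, by rw [map_mul, h1, h2, map_mul]⟩

/-- the operator on the values at `x` of the elements of the ring of the traces -/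
theorem kF_TA (h : PL α β Pp P) (hx : Sl α β P x) (hαβ : α ≠ β) (hw : WDF α β Pp x) {k : AR I}
    (hk : k ∈ TA' I) : kF α β Pp x (ev x k) = ev x (SS (zw α β P) k (FreeGroup.of α)) := by
  obtain ⟨f, rfl⟩ := amk_surj k
  rw [SS, h.compat hx hαβ f (aD_TA hk) (aH_TA hk), ev_amk, ← h.pv_pq hx hαβ,
    kF_eq hw (pq_Wd (h.qp_free hαβ) f)]

/-- the values at `x` of the polynomials without the eliminated variables -/
def OZ (α β : I) (x : I → Matrix.SpecialLinearGroup (Fin 2) F) (y : F) : Prop :=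
  ∃ f ∈ Wd (cw (UU α β)) 0, pv x f = y

theorem OZ_TA (h : PL α β Pp P) (hx : Sl α β P x) (hαβ : α ≠ β) (k : AR I) :
    OZ α β x (ev x k) := by
  obtain ⟨f, rfl⟩ := amk_surj k
  exact ⟨pq (UU α β) (qp α β Pp) f, pq_Wd (h.qp_free hαβ) f, by rw [h.pv_pq hx hαβ, ev_amk]⟩

theorem OZ_kF (h : PL α β Pp P) (hαβ : α ≠ β) (hw : WDF α β Pp x) {y : F}
    (hy : OZ α β x y) : OZ α β x (kF α β Pp x y) := by
  obtain ⟨f, hf, rfl⟩ := hy
  rw [kF_eq hw hf]
  exact ⟨_, h.kp_UU hαβ hf, rfl⟩

theorem kF_add (hw : WDF α β Pp x) {y z : F} (hy : OZ α β x y) (hz : OZ α β x z) :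
    kF α β Pp x (y + z) = kF α β Pp x y + kF α β Pp x z := by
  obtain ⟨f, hf, rfl⟩ := hy
  obtain ⟨g, hg, rfl⟩ := hz
  rw [← map_add, kF_eq hw hf, kF_eq hw hg, kF_eq hw (Submodule.add_mem _ hf hg), kp_add, map_add]

theorem kF_sq (hw : WDF α β Pp x) {y z : F} (hy : OZ α β x y) (hz : OZ α β x z) :
    kF α β Pp x (y ^ 2 * z) = y * kF α β Pp x z := by
  obtain ⟨f, hf, rfl⟩ := hy
  obtain ⟨g, hg, rfl⟩ := hz
  rw [← map_pow, ← map_mul, kF_eq hw hg, kF_eq hw (Wd_mul (Wd_sq hf) hg), kp_sq_mul, map_mul]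

/-- **The operator on the field of fractions of the ring of the traces.** -/
theorem main1 (hαβ : α ≠ β) (h : PL α β Pp P) (hx : Sl α β P x) (hw : WDF α β Pp x)
    (hz : zw α β P ∈ commutator (FreeGroup I))
    (hm : 0 < (Finset.univ.filter (fun i => ¬ (i = α ∨ i = β))).card)
    (hT : ∀ w, (FreeGroup.lift x w).1.trace = algebraMap K F (TT w)) (hf : Frc (BB 2 TT))
    (ht : TT (FreeGroup.of α) ≠ 0) :
    ∃ Φ : K → K, IsPinv 2 Φ ∧ Φ 1 = 1 ∧ (∀ m ∈ M1 TT, Φ m ∈ M1 TT) ∧
      ∀ b ∈ BB 2 TT, ∃ N : ℕ, Φ^[N] b = 0 ∨ Φ^[N] b = 1 := by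
  obtain ⟨t, htt⟩ : ∃ t, t = TT (FreeGroup.of α) := ⟨_, rfl⟩
  have hinj : Function.Injective (algebraMap K F) := (algebraMap K F).injective
  have ht0 : t ≠ 0 := htt ▸ ht
  have htF : algebraMap K F t = ev x (rT (FreeGroup.of α)) := by rw [ev_rT, hT, htt]
  have htp : algebraMap K F t = pv x (tp α) := by
    rw [htF, ev_rT, FreeGroup.lift_apply_of, Matrix.trace_fin_two, hx.a00, zero_add, tp, pv_X]
  have hrel : FreeGroup.lift x (zw α β P) = 1 := hx.rel
  obtain ⟨κF, hκF⟩ : ∃ κF, κF = kF α β Pp x := ⟨_, rfl⟩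
  have htB : t ∈ BB 2 TT := by rw [htt]; exact Algebra.subset_adjoin ⟨_, rfl⟩
  have hOZ : ∀ b ∈ BB 2 TT, OZ α β x (algebraMap K F b) := by
    intro b hb
    obtain ⟨k, _, hk⟩ := lift_TA hT hb
    rw [← hk]
    exact OZ_TA h hx hαβ k
  have hval : ∀ k ∈ TA' I, κF (ev x k) = ev x (SS (zw α β P) k (FreeGroup.of α)) := by
    intro k hk
    rw [hκF]
    exact kF_TA h hx hαβ hw hk
  -- the operator on `BB`
  have hex : ∀ b : K, ∃ y : K, b ∈ BB 2 TT →
      algebraMap K F y * algebraMap K F t = κF (algebraMap K F (t * b)) := by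
    intro b
    by_cases hb : b ∈ BB 2 TT
    · obtain ⟨k, hk, hkb⟩ := lift_TA hT (mul_mem htB hb)
      obtain ⟨y, _, hy⟩ := val_TA' hT (SS_inv (zw α β P) hk (FreeGroup.of α))
      refine ⟨y / t, fun _ => ?_⟩
      rw [← hkb, hval k hk, hy, ← map_mul, div_mul_cancel₀ _ ht0]
    · exact ⟨0, fun h => absurd h hb⟩
  choose κ hκ using hex
  have htne : algebraMap K F t ≠ 0 := fun h0 => ht0 (hinj (by rw [h0, map_zero]))
  obtain ⟨Φ, hΦ, hΦd⟩ := ext_pinv (BB 2 TT) hf κ (by
      intro a ha b hb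
      apply hinj
      apply mul_right_cancel₀ htne
      rw [hκ _ (add_mem ha hb), map_add (algebraMap K F) (κ a), add_mul, hκ a ha, hκ b hb, mul_add,
        map_add, hκF]
      exact kF_add hw (hOZ _ (mul_mem htB ha)) (hOZ _ (mul_mem htB hb))) (by
      intro a ha b hb
      apply hinj
      apply mul_right_cancel₀ htne
      rw [hκ _ (mul_mem (pow_mem ha 2) hb), map_mul (algebraMap K F) a, mul_assoc, hκ b hb]
      have e : t * (a ^ 2 * b) = a ^ 2 * (t * b) := by ring
      rw [e, map_mul (algebraMap K F) (a ^ 2), map_pow, hκF]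
      exact kF_sq hw (hOZ _ ha) (hOZ _ (mul_mem htB hb)))
  -- the basic property
  have kp : ∀ (y : K), OZ α β x (algebraMap K F y * algebraMap K F t) →
      algebraMap K F (Φ y) * algebraMap K F t = κF (algebraMap K F y * algebraMap K F t) := by
    intro y hy
    obtain ⟨a, ha, d, hd, hd0, had⟩ := hf y
    have h1 := hΦd y d hd hd0 (by rw [had]; exact ha)
    have hdne : algebraMap K F d ≠ 0 := fun h0 => hd0 (hinj (by rw [h0, map_zero]))
    have h2 : y * d ^ 2 ∈ BB 2 TT := by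
      have : y * d ^ 2 = a * d := by rw [← had]; ring
      rw [this]
      exact mul_mem ha hd
    have h3 := hκ _ h2
    rw [← h1] at h3
    have e : algebraMap K F (t * (y * d ^ 2)) =
        (algebraMap K F d) ^ 2 * (algebraMap K F y * algebraMap K F t) := by
      rw [← map_pow, ← map_mul, ← map_mul]
      congr 1
      ring
    rw [e, hκF, kF_sq hw (hOZ d hd) hy, ← hκF] at h3
    apply mul_left_cancel₀ hdne
    rw [← h3, map_mul]
    ring
  have iter : ∀ (N : ℕ) (y : K), OZ α β x (algebraMap K F y * algebraMap K F t) →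
      algebraMap K F (Φ^[N] y) * algebraMap K F t =
        κF^[N] (algebraMap K F y * algebraMap K F t) := by
    intro N
    induction N with
    | zero => intro y _; rfl
    | succ N ih =>
      intro y hy
      rw [Function.iterate_succ_apply, Function.iterate_succ_apply, ← kp y hy]
      refine ih (Φ y) ?_
      rw [kp y hy, hκF]
      exact OZ_kF h hαβ hw hy
  refine ⟨Φ, hΦ, ?_, ?_, ?_⟩
  · have h1 := kp 1 (by
      rw [← map_mul, one_mul]
      exact hOZ t htB)
    rw [map_one, one_mul, htp, hκF, h.kF_tp hx hαβ hm hw, ← htp] at h1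
    apply hinj
    apply mul_right_cancel₀ htne
    rw [h1, map_one, one_mul]
  · intro m hm'
    have hz0 : Φ 0 = 0 := by
      have h1 := hΦ.add 0 0
      rw [add_zero] at h1
      exact left_eq_add.1 h1
    have key : ∀ b ∈ BB 2 TT, ∀ w, Φ (b * TT w) ∈ M1 TT := by
      intro b hb w
      obtain ⟨k, hk, hkb⟩ := lift_TA hT hb
      have h1 := kp (b * TT w) (by
        rw [← map_mul]
        refine hOZ _ (mul_mem (mul_mem hb ?_) htB)
        exact Algebra.subset_adjoin ⟨w, rfl⟩)
      have e : algebraMap K F (b * TT w) * algebraMap K F t =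
          ev x (k * rT (FreeGroup.of α) * rT w) := by
        rw [map_mul (ev x), map_mul (ev x), hkb, ← htF, ev_rT, hT, map_mul]
        ring
      rw [e, hval _ (mul_mem (mul_mem hk (rT_mem _)) (rT_mem _)), ev_SS hrel hk, ← htF,
        mul_comm (algebraMap K F t)] at h1
      have h2 := mul_right_cancel₀ htne h1
      obtain ⟨c, m, hm, h3, h4⟩ := val_TA hT (SS_inv (zw α β P) hk w)
      rw [SS_eps hz] at h3
      rw [h4, ← h3, map_zero, zero_add] at h2
      rw [hinj h2]
      exact hm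
    refine Submodule.span_induction (p := fun m _ => ∀ b ∈ BB 2 TT, Φ (b * m) ∈ M1 TT)
      ?_ ?_ ?_ ?_ hm' 1 (one_mem _) |> fun h => by rwa [one_mul] at h
    · rintro _ ⟨w, rfl⟩ b hb
      exact key b hb w
    · intro b _
      rw [mul_zero, hz0]
      exact zero_mem _
    · intro u v _ _ h1 h2 b hb
      rw [mul_add, hΦ.add]
      exact add_mem (h1 b hb) (h2 b hb)
    · intro a u _ h1 b hb
      have e : b * a • u = b * a.1 * u := by
        rw [mul_assoc]
        rfl
      rw [e]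
      exact h1 _ (mul_mem hb a.2)
  · intro b hb
    have hO : OZ α β x (algebraMap K F b * algebraMap K F t) := by
      rw [← map_mul]
      exact hOZ _ (mul_mem hb htB)
    obtain ⟨f, hf', hfe⟩ := hO
    obtain ⟨N, hN⟩ := h.K1 hx hαβ hm hw hf'
    refine ⟨N, ?_⟩
    have h1 := iter N b ⟨f, hf', hfe⟩
    rw [← hfe, hκF] at h1
    rcases hN with hN | hN
    · left
      rw [hN] at h1
      apply hinj
      rw [map_zero]
      exact (mul_eq_zero.1 h1).resolve_right htne
    · right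
      rw [hN, ← htp] at h1
      apply hinj
      apply mul_right_cancel₀ htne
      rw [h1, map_one, one_mul]

end main

end Pool.Agent.SuM
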