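import Pool.Agent.Lib.MP_305fdd_al.Su.M.Orth

/-!
# MP_305fdd_al, surface groups, model block: the polynomial lift of a product of commutators
-/

set_option autoImplicit false
set_option linter.unusedSectionVars false

namespace Pool.Agent.SuM

open MvPolynomial Pool.Agent.SuF

section word

variable {I : Type} [Fintype I] [DecidableEq I]

/-- the commutator of generic matrices -/
noncomputable def Cm (a b : I) : Matrix (Fin 2) (Fin 2) (PR I) :=
  gx a * gx b * (gx a).adjugate * (gx b).adjugate

/-- the commutator of letters -/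
def cm (a b : I) : FreeGroup I := FreeGroup.of a * FreeGroup.of b * (FreeGroup.of a)⁻¹ *
  (FreeGroup.of b)⁻¹

/-- the product of commutators of generic matrices -/
noncomputable def Cl (l : List (I × I)) : Matrix (Fin 2) (Fin 2) (PR I) :=
  (l.map fun p => Cm p.1 p.2).prod

/-- the product of commutators -/
def cl (l : List (I × I)) : FreeGroup I := (l.map fun p => cm p.1 p.2).prod

/-- the letters of the list -/
def SL (l : List (I × I)) : Finset I := (l.map Prod.fst ++ l.map Prod.snd).toFinset

theorem Cm_map (a b : I) : (Cm a b).map amk = rM (cm a b) := by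
  have h : ∀ i : I, (gx i).map amk = rM (FreeGroup.of i) := fun i => (rM_of i).symm
  have h' : ∀ i : I, (gx i).adjugate.map amk = rM (FreeGroup.of i)⁻¹ := by
    intro i
    rw [rM_inv, ← h]
    exact RingHom.map_adjugate amk (gx i)
  rw [Cm, Matrix.map_mul, Matrix.map_mul, Matrix.map_mul, h, h, h', h', ← rM_mul, ← rM_mul,
    ← rM_mul, cm]

theorem Cl_map (l : List (I × I)) : (Cl l).map amk = rM (cl l) := by
  induction l with
  | nil =>
    rw [Cl, cl, List.map_nil, List.map_nil, List.prod_nil, List.prod_nil, rM_one]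
    exact Matrix.map_one _ (map_zero amk) (map_one amk)
  | cons p l ih =>
    have e1 : Cl (p :: l) = Cm p.1 p.2 * Cl l := by rw [Cl, List.map_cons, List.prod_cons, Cl]
    have e2 : cl (p :: l) = cm p.1 p.2 * cl l := by rw [cl, List.map_cons, List.prod_cons, cl]
    rw [e1, e2, Matrix.map_mul, Cm_map, ih, rM_mul]

theorem Cl_cons (p : I × I) (l : List (I × I)) : Cl (p :: l) = Cm p.1 p.2 * Cl l := by
  rw [Cl, List.map_cons, List.prod_cons, Cl]

theorem adj_Wd {ω : I × Fin 2 × Fin 2 → ℕ} {n : ℕ} (i : I) (h : ∀ a b, ω (i, a, b) ≤ n)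
    (a b : Fin 2) : (gx i).adjugate a b ∈ Wd ω n := by
  rw [adj_gx]
  fin_cases a <;> fin_cases b <;> exact Wd_X (h _ _)

theorem mul_Wd {ω : I × Fin 2 × Fin 2 → ℕ} {n m : ℕ} {A B : Matrix (Fin 2) (Fin 2) (PR I)}
    (hA : ∀ a b, A a b ∈ Wd ω n) (hB : ∀ a b, B a b ∈ Wd ω m) (a b : Fin 2) :
    (A * B) a b ∈ Wd ω (n + m) := by
  rw [Matrix.mul_apply]
  exact Submodule.sum_mem _ fun j _ => Wd_mul (hA _ _) (hB _ _)

theorem Cm_Wd {ω : I × Fin 2 × Fin 2 → ℕ} {n m : ℕ} (i j : I) (h : ∀ a b, ω (i, a, b) ≤ n)
    (h' : ∀ a b, ω (j, a, b) ≤ m) (a b : Fin 2) : Cm i j a b ∈ Wd ω (n + m + n + m) :=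
  mul_Wd (mul_Wd (mul_Wd (fun a b => Wd_X (h a b)) (fun a b => Wd_X (h' a b)))
    (adj_Wd i h)) (adj_Wd j h') a b

theorem one_Wd {ω : I × Fin 2 × Fin 2 → ℕ} (a b : Fin 2) :
    (1 : Matrix (Fin 2) (Fin 2) (PR I)) a b ∈ Wd ω 0 := by
  rw [Matrix.one_apply]
  split_ifs
  · exact Wd_one
  · exact Submodule.zero_mem _

theorem Cl_free {U : Finset (I × Fin 2 × Fin 2)} (l : List (I × I))
    (h : ∀ p ∈ l, ∀ a b : Fin 2, (p.1, a, b) ∉ U ∧ (p.2, a, b) ∉ U) (a b : Fin 2) :
    Cl l a b ∈ Wd (cw U) 0 := by
  induction l generalizing a b with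
  | nil => exact one_Wd a b
  | cons p l ih =>
    rw [Cl_cons]
    refine mul_Wd (n := 0) (m := 0) (fun a b => ?_)
      (ih fun q hq => h q (List.mem_cons_of_mem _ hq)) a b
    refine Cm_Wd (n := 0) (m := 0) p.1 p.2 (fun a b => ?_) (fun a b => ?_) a b
    · rw [cw_notMem (h p List.mem_cons_self a b).1]
    · rw [cw_notMem (h p List.mem_cons_self a b).2]

theorem Cl_deg {U : Finset (I × Fin 2 × Fin 2)} (l : List (I × I)) (a b : Fin 2) :
    Cl l a b ∈ Wd (cw U) (4 * l.length) := by
  induction l generalizing a b with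
  | nil => exact Wd_mono (Nat.zero_le _) (one_Wd a b)
  | cons p l ih =>
    rw [Cl_cons, List.length_cons]
    have h1 : ∀ s, cw U s ≤ 1 := fun s => by rw [cw]; split_ifs <;> omega
    exact Wd_mono (by omega) (mul_Wd (Cm_Wd (n := 1) (m := 1) p.1 p.2 (fun a b => h1 _)
      (fun a b => h1 _)) ih a b)

/-- the integral of a commutator -/
theorem int_Cm {i j : I} (hij : i ≠ j) (p q : Fin 2) :
    car (Cm i j p q * (gr i * gr j) * EE {i, j}) = if p = q then 1 else 0 := by
  have hE : ∀ k l : I, k ≠ l → EE {k, l} * ∏ s ∈ VL {l}, X s = (EE {k} : PR I) := by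
    intro k l hkl
    rw [EE, EE, ← Finset.prod_union]
    · congr 1
      ext s
      simp only [Finset.mem_union, Finset.mem_compl, mem_VL, Finset.mem_insert,
        Finset.mem_singleton]
      constructor
      · rintro (h | h)
        · tauto
        · rw [h]; exact hkl.symm
      · intro h
        tauto
    · rw [Finset.disjoint_left]
      intro s hs h
      simp only [Finset.mem_compl, mem_VL, Finset.mem_insert, Finset.mem_singleton] at hs h
      tauto
  have hC : (VL {i})ᶜ = (VL ({i, j} : Finset I))ᶜ ∪ VL {j} := by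
    ext s
    simp only [Finset.mem_union, Finset.mem_compl, mem_VL, Finset.mem_insert,
        Finset.mem_singleton]
    constructor
    · intro h
      tauto
    · rintro (h | h)
      · tauto
      · rw [h]; exact hij.symm
  have key : ∀ k l n : Fin 2, car (gx i p k * (gx i).adjugate l n * gr i *
      (gx j k l * (gx j).adjugate n q * gr j * EE {i, j})) =
      (if k = l ∧ p = n then 1 else 0) * (if l = n ∧ k = q then 1 else 0) := by
    intro k l n
    rw [car_disj (VL {i})]
    · refine congrArg₂ (· * ·) (orth i p k l n) ?_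
      have h1 := hE j i hij.symm
      rw [Finset.pair_comm] at h1
      rw [mul_assoc _ (EE {i, j}), h1]
      exact orth j k l n q
    · have hz : ∀ a b : Fin 2, cw (VL {i})ᶜ (i, a, b) ≤ 0 := fun a b => by
        rw [cw_notMem]
        rw [Finset.mem_compl, not_not, mem_VL, Finset.mem_singleton]
      exact Wd_mul (Wd_mul (Wd_X (hz p k)) (adj_Wd i hz l n)) (gr_Wd i hz)
    · have hz : ∀ a b : Fin 2, cw (VL {i}) (j, a, b) ≤ 0 := fun a b => by
        rw [cw_notMem]
        rw [mem_VL, Finset.mem_singleton]
        exact hij.symm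
      refine Wd_mul (n := 0) (m := 0)
        (Wd_mul (Wd_mul (Wd_X (hz k l)) (adj_Wd j hz n q)) (gr_Wd j hz)) ?_
      exact XU_disj (by
        rw [Finset.disjoint_left]
        intro s hs h
        simp only [Finset.mem_compl, mem_VL, Finset.mem_insert, Finset.mem_singleton] at hs h
        tauto)
  have e : Cm i j p q * (gr i * gr j) * EE {i, j} = ∑ n, ∑ l, ∑ k, gx i p k *
      (gx i).adjugate l n * gr i * (gx j k l * (gx j).adjugate n q * gr j * EE {i, j}) := by
    rw [Cm, Matrix.mul_apply, Finset.sum_mul, Finset.sum_mul]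
    refine Finset.sum_congr rfl fun n _ => ?_
    rw [Matrix.mul_apply, Finset.sum_mul, Finset.sum_mul, Finset.sum_mul]
    refine Finset.sum_congr rfl fun l _ => ?_
    rw [Matrix.mul_apply, Finset.sum_mul, Finset.sum_mul, Finset.sum_mul, Finset.sum_mul]
    refine Finset.sum_congr rfl fun k _ => ?_
    ring
  rw [e, map_sum]
  simp only [map_sum, key]
  simp only [Fin.sum_univ_two]
  fin_cases p <;> fin_cases q <;> simp

/-- the integral of a product of commutators of different letters -/
theorem int_Cl (l : List (I × I)) (hl : (l.map Prod.fst ++ l.map Prod.snd).Nodup) (p q : Fin 2) :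
    car (Cl l p q * (∏ i ∈ SL l, gr i) * EE (SL l)) = if p = q then 1 else 0 := by
  induction l generalizing p q with
  | nil =>
    have e1 : (SL ([] : List (I × I))) = ∅ := rfl
    have e2 : EE (∅ : Finset I) = (∏ s, X s : PR I) := by
      rw [EE]
      congr 1
      ext s
      simp [mem_VL]
    rw [e1, e2, Finset.prod_empty, mul_one]
    change car ((1 : Matrix (Fin 2) (Fin 2) (PR I)) p q * _) = _
    rw [Matrix.one_apply]
    split_ifs
    · rw [one_mul, car_sqf, if_pos rfl]
    · rw [zero_mul, map_zero]
  | cons r l ih =>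
    obtain ⟨i, j⟩ := r
    have hperm : (((i, j) :: l).map Prod.fst ++ ((i, j) :: l).map Prod.snd).Perm
        (i :: j :: (l.map Prod.fst ++ l.map Prod.snd)) := by
      rw [List.map_cons, List.map_cons, List.cons_append]
      exact List.Perm.cons _ List.perm_middle
    have hl' := hperm.nodup_iff.1 hl
    rw [List.nodup_cons, List.nodup_cons] at hl'
    obtain ⟨hi, hj, hl''⟩ := hl'
    rw [List.mem_cons, not_or] at hi
    obtain ⟨hij, hi⟩ := hi
    have hi' : i ∉ SL l := fun h => hi (List.mem_toFinset.1 h)
    have hj' : j ∉ SL l := fun h => hj (List.mem_toFinset.1 h)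
    have hS : SL ((i, j) :: l) = insert i (insert j (SL l)) := by
      ext k
      rw [SL, List.mem_toFinset, hperm.mem_iff, List.mem_cons, List.mem_cons, Finset.mem_insert,
        Finset.mem_insert, SL, List.mem_toFinset]
    have hprod : ∏ k ∈ SL ((i, j) :: l), (gr k : PR I) = gr i * (gr j * ∏ k ∈ SL l, gr k) := by
      rw [hS, Finset.prod_insert, Finset.prod_insert hj']
      rw [Finset.mem_insert, not_or]
      exact ⟨hij, hi'⟩
    have hE1 : EE (SL ((i, j) :: l)) * ∏ s ∈ VL {i, j}, X s = (EE (SL l) : PR I) := by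
      rw [EE, EE, ← Finset.prod_union]
      · congr 1
        ext s
        simp only [Finset.mem_union, Finset.mem_compl, mem_VL, Finset.mem_insert,
          Finset.mem_singleton, hS]
        constructor
        · rintro (h | h | h)
          · tauto
          · rw [h]; exact hi'
          · rw [h]; exact hj'
        · intro h
          tauto
      · rw [Finset.disjoint_left]
        intro s hs h
        simp only [Finset.mem_compl, mem_VL, Finset.mem_insert, Finset.mem_singleton, hS] at hs h
        tauto
    have e : Cl ((i, j) :: l) p q * (∏ k ∈ SL ((i, j) :: l), gr k) * EE (SL ((i, j) :: l)) =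
        ∑ m, Cm i j p m * (gr i * gr j) * (Cl l m q * (∏ k ∈ SL l, gr k) *
          EE (SL ((i, j) :: l))) := by
      rw [Cl_cons, Matrix.mul_apply, hprod, Finset.sum_mul, Finset.sum_mul]
      refine Finset.sum_congr rfl fun m _ => ?_
      ring
    rw [e, map_sum]
    have key : ∀ m, car (Cm i j p m * (gr i * gr j) * (Cl l m q * (∏ k ∈ SL l, gr k) *
        EE (SL ((i, j) :: l)))) = (if p = m then 1 else 0) * (if m = q then 1 else 0) := by
      intro m
      rw [car_disj (VL {i, j})]
      · refine congrArg₂ (· * ·) (int_Cm hij p m) ?_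
        rw [mul_assoc _ (EE (SL ((i, j) :: l))), hE1]
        exact ih hl'' m q
      · have hz : ∀ k ∈ ({i, j} : Finset I), ∀ a b : Fin 2,
            cw (VL ({i, j} : Finset I))ᶜ (k, a, b) ≤ 0 := fun k hk a b => by
          rw [cw_notMem]
          rw [Finset.mem_compl, not_not, mem_VL]
          exact hk
        have zi := hz i (Finset.mem_insert_self _ _)
        have zj := hz j (Finset.mem_insert_of_mem (Finset.mem_singleton_self _))
        exact Wd_mul (Cm_Wd (n := 0) (m := 0) i j zi zj p m) (Wd_mul (gr_Wd i zi) (gr_Wd j zj))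
      · have hn : ∀ k ∈ SL l, ∀ a b : Fin 2, (k, a, b) ∉ VL ({i, j} : Finset I) := by
          intro k hk a b h
          rw [mem_VL, Finset.mem_insert, Finset.mem_singleton] at h
          rcases h with h | h
          · exact hi' (h ▸ hk)
          · exact hj' (h ▸ hk)
        refine Wd_mul (n := 0) (m := 0) (Wd_mul (n := 0) (m := 0) ?_ ?_) ?_
        · refine Cl_free l (fun r hr a b => ⟨?_, ?_⟩) m q
          · exact hn _ (by
              rw [SL, List.mem_toFinset, List.mem_append]
              exact Or.inl (List.mem_map_of_mem hr)) a b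
          · exact hn _ (by
              rw [SL, List.mem_toFinset, List.mem_append]
              exact Or.inr (List.mem_map_of_mem hr)) a b
        · have h := Wd_prod (ω := cw (VL ({i, j} : Finset I))) (SL l) (fun _ => 0)
            (fun k => (gr k : PR I)) ?_
          · rwa [Finset.sum_const_zero] at h
          · intro k hk
            refine gr_Wd (n := 0) k fun a b => ?_
            rw [cw_notMem (hn k hk a b)]
        · exact XU_disj (by
            rw [Finset.disjoint_left]
            intro s hs h
            simp only [Finset.mem_compl, mem_VL, Finset.mem_insert, Finset.mem_singleton, hS]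
              at hs h
            tauto)
    rw [Finset.sum_congr rfl fun m _ => key m, Fin.sum_univ_two]
    fin_cases p <;> fin_cases q <;> simp

/-- **The polynomial lift of a product of commutators** in which all the letters except `α`, `β`
occur once. -/
theorem pl_cl {α β : I} (l : List (I × I)) (hl : (l.map Prod.fst ++ l.map Prod.snd).Nodup)
    (hS : ∀ i, i ∈ l.map Prod.fst ++ l.map Prod.snd ↔ ¬ (i = α ∨ i = β)) :
    PL α β (Cl l) (cl l) := by
  have e1 : SL l = Finset.univ.filter (fun i => ¬ (i = α ∨ i = β)) := by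
    ext i
    rw [SL, List.mem_toFinset, hS, Finset.mem_filter]
    exact ⟨fun h => ⟨Finset.mem_univ _, h⟩, fun h => h.2⟩
  have e2 : ∀ p ∈ l, ∀ a b : Fin 2, (p.1, a, b) ∉ AB α β ∧ (p.2, a, b) ∉ AB α β := by
    intro p hp a b
    rw [mem_AB, mem_AB]
    exact ⟨(hS _).1 (List.mem_append.2 (Or.inl (List.mem_map_of_mem hp))),
      (hS _).1 (List.mem_append.2 (Or.inr (List.mem_map_of_mem hp)))⟩
  have e3 : (Finset.univ.filter (fun i => ¬ (i = α ∨ i = β))).card = 2 * l.length := by
    rw [← e1, SL, List.toFinset_card_of_nodup hl, List.length_append, List.length_map,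
      List.length_map]
    ring
  refine ⟨?_, ?_, ?_, ?_⟩
  · intro a b
    have h := congrFun (congrFun (Cl_map l) a) b
    exact h
  · exact Cl_free l e2
  · intro a b
    rw [e3]
    exact Wd_mono (by omega) (Cl_deg l a b)
  · intro a b
    rw [← int_Cl l hl a b, e1, Gp, EE]
    congr 2
    refine Finset.prod_congr ?_ fun _ _ => rfl
    ext s
    rw [mem_AB, Finset.mem_compl, mem_VL, Finset.mem_filter]
    simp
    tauto

end word

end Pool.Agent.SuM
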