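import Pool.Agent.Lib.MP_305fdd_al.Su.M.Main1
import Pool.Agent.Lib.MP_305fdd_al.Su.M.Word
import Pool.Agent.Lib.MP_305fdd_al.Su.Surf

/-!
# MP_305fdd_al, surface groups, model block: the theorem for the surface group
-/

set_option autoImplicit false
set_option linter.unusedSectionVars false

namespace Pool.Agent.SuM

open MvPolynomial Pool.Agent.SuF Pool.Agent.FrN Pool.Agent.F2Ch Pool.Agent.Su

/-! ## The word -/

section word

/-- the other handles -/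
def lst (h : ℕ) : List ((Fin (h + 1) ⊕ Fin (h + 1)) × (Fin (h + 1) ⊕ Fin (h + 1))) :=
  List.ofFn fun i : Fin h => (Sum.inl i.succ, Sum.inr i.succ)

theorem zw_surf (h : ℕ) : zw (Sum.inl 0) (Sum.inr 0) (cl (lst h)) = surfRel (h + 1) := by
  rw [surfRel, List.ofFn_succ, List.prod_cons, zw, cl, lst, List.map_ofFn]
  rfl

theorem lst_nodup (h : ℕ) : ((lst h).map Prod.fst ++ (lst h).map Prod.snd).Nodup := by
  rw [lst, List.map_ofFn, List.map_ofFn, List.nodup_append]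
  refine ⟨List.nodup_ofFn.2 ?_, List.nodup_ofFn.2 ?_, ?_⟩
  · intro i j hij
    exact Fin.succ_injective _ (Sum.inl_injective hij)
  · intro i j hij
    exact Fin.succ_injective _ (Sum.inr_injective hij)
  · intro a ha b hb
    rw [List.mem_ofFn] at ha hb
    obtain ⟨i, rfl⟩ := ha
    obtain ⟨j, rfl⟩ := hb
    exact Sum.inl_ne_inr

theorem lst_mem (h : ℕ) (i : Fin (h + 1) ⊕ Fin (h + 1)) :
    i ∈ (lst h).map Prod.fst ++ (lst h).map Prod.snd ↔ ¬ (i = Sum.inl 0 ∨ i = Sum.inr 0) := by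
  rw [lst, List.map_ofFn, List.map_ofFn, List.mem_append, List.mem_ofFn, List.mem_ofFn]
  rcases i with i | i
  · induction i using Fin.cases with
    | zero =>
      simp only [Function.comp_apply, true_or, not_true_eq_false, iff_false, not_or]
      refine ⟨?_, ?_⟩
      · rintro ⟨j, hj⟩
        exact Fin.succ_ne_zero j (Sum.inl_injective hj)
      · rintro ⟨j, hj⟩
        exact Sum.inr_ne_inl hj
    | succ i =>
      refine ⟨fun _ => ?_, fun _ => Or.inl ⟨i, rfl⟩⟩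
      rintro (hj | hj)
      · exact Fin.succ_ne_zero i (Sum.inl_injective hj)
      · exact Sum.inl_ne_inr hj
  · induction i using Fin.cases with
    | zero =>
      simp only [Function.comp_apply, or_true, not_true_eq_false, iff_false, not_or]
      refine ⟨?_, ?_⟩
      · rintro ⟨j, hj⟩
        exact Sum.inl_ne_inr hj
      · rintro ⟨j, hj⟩
        exact Fin.succ_ne_zero j (Sum.inr_injective hj)
    | succ i =>
      refine ⟨fun _ => ?_, fun _ => Or.inr ⟨i, rfl⟩⟩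
      rintro (hj | hj)
      · exact Sum.inr_ne_inl hj
      · exact Fin.succ_ne_zero i (Sum.inr_injective hj)

theorem lst_card (h : ℕ) : (Finset.univ.filter (fun i : Fin (h + 1) ⊕ Fin (h + 1) =>
    ¬ (i = Sum.inl 0 ∨ i = Sum.inr 0))).card = 2 * h := by
  have e1 : Finset.univ.filter (fun i : Fin (h + 1) ⊕ Fin (h + 1) =>
      ¬ (i = Sum.inl 0 ∨ i = Sum.inr 0)) =
      ((lst h).map Prod.fst ++ (lst h).map Prod.snd).toFinset := by
    ext i
    rw [List.mem_toFinset, lst_mem, Finset.mem_filter]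
    exact ⟨fun h => h.2, fun h => ⟨Finset.mem_univ _, h⟩⟩
  rw [e1, List.toFinset_card_of_nodup (lst_nodup h), List.length_append, List.length_map,
    List.length_map, lst, List.length_ofFn]
  ring

theorem zw_comm {I : Type} [Fintype I] [DecidableEq I] (α β : I) (l : List (I × I)) :
    zw α β (cl l) ∈ commutator (FreeGroup I) := by
  have h1 : ∀ i j : I, cm i j ∈ commutator (FreeGroup I) := fun i j =>
    Subgroup.commutator_mem_commutator (Subgroup.mem_top (FreeGroup.of i))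
      (Subgroup.mem_top (FreeGroup.of j))
  refine mul_mem (h1 α β) ?_
  rw [cl]
  refine Subgroup.list_prod_mem _ fun y hy => ?_
  rw [List.mem_map] at hy
  obtain ⟨p, _, rfl⟩ := hy
  exact h1 _ _

theorem surfMk_rel (g : ℕ) : surfMk g (surfRel g) = 1 :=
  PresentedGroup.one_of_mem (Set.mem_singleton _)

end word

/-! ## Representations over the field with two elements -/

section pts

/-- the matrix `(0 1; 1 1)` -/
def mJ : Matrix.SpecialLinearGroup (Fin 2) (ZMod 2) := ⟨!![0, 1; 1, 1], by decide⟩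

/-- the matrix `(1 0; 1 1)` -/
def mL : Matrix.SpecialLinearGroup (Fin 2) (ZMod 2) := ⟨!![1, 0; 1, 1], by decide⟩

/-- the matrix `(0 1; 1 0)` -/
def mW : Matrix.SpecialLinearGroup (Fin 2) (ZMod 2) := ⟨!![0, 1; 1, 0], by decide⟩

/-- first representation -/
def r1 (h : ℕ) : SurfaceGroup (h + 2) →* Matrix.SpecialLinearGroup (Fin 2) (ZMod 2) :=
  surfLift (fun i => if i = 0 then mJ else 1) (fun _ => 1) (by
    have e : (fun i : Fin (h + 2) => (if i = 0 then mJ else 1) * 1 * (if i = 0 then mJ else 1)⁻¹ *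
        (1 : Matrix.SpecialLinearGroup (Fin 2) (ZMod 2))⁻¹) = fun _ => 1 := by
      funext i
      group
    rw [e, List.ofFn_const, List.prod_replicate, one_pow])

/-- second representation -/
def r2 (h : ℕ) : SurfaceGroup (h + 2) →* Matrix.SpecialLinearGroup (Fin 2) (ZMod 2) :=
  surfLift (Fin.cons mL (Fin.cons mW fun _ => 1)) (Fin.cons mW (Fin.cons mL fun _ => 1)) (by
    rw [List.ofFn_succ, List.ofFn_succ, List.prod_cons, List.prod_cons]
    simp only [Fin.cons_zero, Fin.cons_succ]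
    have e : (fun _ : Fin h => (1 : Matrix.SpecialLinearGroup (Fin 2) (ZMod 2)) * 1 * 1⁻¹ * 1⁻¹) =
        fun _ => 1 := by
      funext i
      group
    rw [e, List.ofFn_const, List.prod_replicate, one_pow, mul_one]
    group)

end pts

/-! ## The theorem -/

section thm

variable {K F : Type} [Field K] [Field F] [Algebra (ZMod 2) K] [Algebra (ZMod 2) F] [Algebra K F]

/-- the hypothesis on the points over the field with two elements -/
def Pts2 {Γ : Type} [Group Γ] (ρ : Γ →* Matrix.SpecialLinearGroup (Fin 2) F) : Prop :=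
  ∀ r : Γ →* Matrix.SpecialLinearGroup (Fin 2) (ZMod 2), ∃ φ : OO 2 ρ →ₐ[ZMod 2] ZMod 2,
    ∀ g i j, φ ⟨(ρ g).1 i j, mem_OO ρ g i j⟩ = (r g).1 i j

theorem tr_mem_OO {Γ : Type} [Group Γ] {T : Γ → K}
    {ρ : Γ →* Matrix.SpecialLinearGroup (Fin 2) F}
    (tr : ∀ g, (ρ g).1.trace = algebraMap K F (T g)) {b : K} (hb : b ∈ BB 2 T) :
    algebraMap K F b ∈ OO 2 ρ := by
  refine Algebra.adjoin_induction (p := fun b _ => algebraMap K F b ∈ OO 2 ρ) ?_ ?_ ?_ ?_ hb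
  · rintro _ ⟨g, rfl⟩
    rw [← tr, Matrix.trace_fin_two]
    exact add_mem (mem_OO ρ g 0 0) (mem_OO ρ g 1 1)
  · intro r
    rcases zmod2_cases r with rfl | rfl
    · rw [map_zero, map_zero]; exact zero_mem _
    · rw [map_one, map_one]; exact one_mem _
  · intro a b _ _ h1 h2
    rw [map_add]; exact add_mem h1 h2
  · intro a b _ _ h1 h2
    rw [map_mul]; exact mul_mem h1 h2

/-- the ideal generated by the traces -/
def MM {Γ : Type} (T : Γ → K) : Submodule (BB 2 T) K := Submodule.span (BB 2 T) (Set.range T)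

/-- the ideal generated by the traces is a proper ideal -/
theorem one_notMem {Γ : Type} [Group Γ] {T : Γ → K}
    {ρ : Γ →* Matrix.SpecialLinearGroup (Fin 2) F}
    (tr : ∀ g, (ρ g).1.trace = algebraMap K F (T g)) (pts : Pts2 ρ) : (1 : K) ∉ MM T := by
  obtain ⟨φ, hφ⟩ := pts 1
  intro h1
  have key : ∃ o : OO 2 ρ, (o : F) = algebraMap K F 1 ∧ φ o = 0 := by
    refine Submodule.span_induction (p := fun m _ => ∃ o : OO 2 ρ, (o : F) = algebraMap K F m ∧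
      φ o = 0) ?_ ?_ ?_ ?_ h1
    · rintro _ ⟨g, rfl⟩
      refine ⟨⟨(ρ g).1 0 0, mem_OO ρ g 0 0⟩ + ⟨(ρ g).1 1 1, mem_OO ρ g 1 1⟩, ?_, ?_⟩
      · rw [← tr, Matrix.trace_fin_two]
        rfl
      · rw [map_add, hφ, hφ]
        rfl
    · exact ⟨0, by rw [map_zero]; rfl, map_zero _⟩
    · rintro a b _ _ ⟨o, h1, h2⟩ ⟨o', h1', h2'⟩
      exact ⟨o + o', by rw [map_add, ← h1, ← h1']; rfl, by rw [map_add, h2, h2', add_zero]⟩
    · rintro a m _ ⟨o, h1, h2⟩
      refine ⟨⟨algebraMap K F a, tr_mem_OO tr a.2⟩ * o, ?_, by rw [map_mul, h2, mul_zero]⟩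
      change algebraMap K F a * (o : F) = algebraMap K F (a.1 * m)
      rw [h1, map_mul]
  obtain ⟨o, h2, h3⟩ := key
  have h4 : o = 1 := Subtype.ext (by rw [h2, map_one]; rfl)
  rw [h4, map_one] at h3
  exact one_ne_zero h3

theorem comm_of {G : Type} [Group G] {a b p : G} (h : a * b * a⁻¹ * b⁻¹ * p = 1) :
    p = b * a * b⁻¹ * a⁻¹ := by
  have : p = (a * b * a⁻¹ * b⁻¹)⁻¹ := eq_inv_of_mul_eq_one_right h
  rw [this]
  group

theorem surf_phi' (h : ℕ) (T : SurfaceGroup (h + 2) → K)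
    (ρ : SurfaceGroup (h + 2) →* Matrix.SpecialLinearGroup (Fin 2) F)
    (tr : ∀ g, (ρ g).1.trace = algebraMap K F (T g)) (fracK : Frc (BB 2 T))
    (fracF : Frc (OO 2 ρ)) (trF : Algebra.trdeg (ZMod 2) F + 3 = ((6 * (h + 2) : ℕ) : Cardinal))
    (pts : Pts2 ρ) :
    ∃ Φ : K → K, IsPinv 2 Φ ∧ Φ 1 = 1 ∧ (∀ m ∈ MM T, Φ m ∈ MM T) ∧
      ∀ b ∈ BB 2 T, ∃ N : ℕ, Φ^[N] b = 0 ∨ Φ^[N] b = 1 := by
  obtain ⟨P, hPdef⟩ : ∃ P, P = cl (lst (h + 1)) := ⟨_, rfl⟩
  have hzs : zw (Sum.inl 0) (Sum.inr 0) P = surfRel (h + 2) := by rw [hPdef]; exact zw_surf (h + 1)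
  have hαβ : (Sum.inl 0 : Fin (h + 2) ⊕ Fin (h + 2)) ≠ Sum.inr 0 := Sum.inl_ne_inr
  have hPL : PL (Sum.inl 0) (Sum.inr 0) (Cl (lst (h + 1))) P := by
    rw [hPdef]
    exact pl_cl _ (lst_nodup (h + 1)) (lst_mem (h + 1))
  obtain ⟨r, hr⟩ : ∃ r, r = ρ.comp (surfMk (h + 2)) := ⟨_, rfl⟩
  have hrz : r (zw (Sum.inl 0) (Sum.inr 0) P) = 1 := by
    rw [hr, hzs, MonoidHom.comp_apply, surfMk_rel, map_one]
  -- values at representations over the field with two elements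
  have hpt : ∀ s : SurfaceGroup (h + 2) →* Matrix.SpecialLinearGroup (Fin 2) (ZMod 2),
      ∃ φ : OO 2 ρ →ₐ[ZMod 2] ZMod 2, (∀ w i j, ∃ o : OO 2 ρ, (o : F) = (r w).1 i j ∧
        φ o = (s (surfMk (h + 2) w)).1 i j) ∧
        s (surfMk (h + 2) P) = s (surfMk (h + 2) (FreeGroup.of (Sum.inr 0))) *
          s (surfMk (h + 2) (FreeGroup.of (Sum.inl 0))) *
          (s (surfMk (h + 2) (FreeGroup.of (Sum.inr 0))))⁻¹ *
          (s (surfMk (h + 2) (FreeGroup.of (Sum.inl 0))))⁻¹ := by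
    intro s
    obtain ⟨φ, hφ⟩ := pts s
    refine ⟨φ, fun w i j => ⟨⟨_, mem_OO ρ (surfMk (h + 2) w) i j⟩, by rw [hr]; rfl, hφ _ _ _⟩, ?_⟩
    refine comm_of ?_
    have h1 : s (surfMk (h + 2) (zw (Sum.inl 0) (Sum.inr 0) P)) = 1 := by
      rw [hzs, surfMk_rel, map_one]
    rw [zw] at h1
    simpa only [map_mul, map_inv] using h1
  have hmka : surfMk (h + 2) (FreeGroup.of (Sum.inl 0)) = sa (h + 2) 0 := by
    rw [surfMk_eq, FreeGroup.lift_apply_of]
    rfl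
  have hmkb : surfMk (h + 2) (FreeGroup.of (Sum.inr 0)) = sb (h + 2) 0 := by
    rw [surfMk_eq, FreeGroup.lift_apply_of]
    rfl
  have hne : ∀ (φ : OO 2 ρ →ₐ[ZMod 2] ZMod 2) (o : OO 2 ρ), φ o ≠ 0 → (o : F) ≠ 0 := by
    intro φ o ho h0
    apply ho
    have : o = 0 := Subtype.ext h0
    rw [this, map_zero]
  obtain ⟨φ1, hφ1, hP1⟩ := hpt (r1 h)
  obtain ⟨φ2, hφ2, hP2⟩ := hpt (r2 h)
  have ha1 : r1 h (sa (h + 2) 0) = mJ := by
    rw [r1, surfLift_sa, if_pos rfl]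
  have hb1 : r1 h (sb (h + 2) 0) = 1 := by
    rw [r1, surfLift_sb]
  have ha2 : r2 h (sa (h + 2) 0) = mL := by
    rw [r2, surfLift_sa]
    rfl
  have hb2 : r2 h (sb (h + 2) 0) = mW := by
    rw [r2, surfLift_sb]
    rfl
  rw [hmka, hmkb, ha1, hb1] at hP1
  rw [hmka, hmkb, ha2, hb2] at hP2
  obtain ⟨a, ha⟩ : ∃ a, a = (r (FreeGroup.of (Sum.inl 0))).1 0 0 := ⟨_, rfl⟩
  obtain ⟨c, hc⟩ : ∃ c, c = (r (FreeGroup.of (Sum.inl 0))).1 1 0 := ⟨_, rfl⟩
  have hc0 : c ≠ 0 := by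
    obtain ⟨o, ho, ho'⟩ := hφ1 (FreeGroup.of (Sum.inl 0)) 1 0
    rw [hc, ← ho]
    refine hne φ1 o ?_
    rw [ho', hmka, ha1]
    decide
  have ht0 : (r (FreeGroup.of (Sum.inl 0))).1.trace ≠ 0 := by
    obtain ⟨o, ho, ho'⟩ := hφ1 (FreeGroup.of (Sum.inl 0)) 0 0
    obtain ⟨o2, ho2, ho2'⟩ := hφ1 (FreeGroup.of (Sum.inl 0)) 1 1
    rw [Matrix.trace_fin_two, ← ho, ← ho2]
    refine hne φ1 (o + o2) ?_
    rw [map_add, ho', ho2', hmka, ha1]
    decide
  have hP0 : a * (r P).1 1 0 + c * (r P).1 1 1 + c ≠ 0 := by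
    obtain ⟨o1, h1, h1'⟩ := hφ2 (FreeGroup.of (Sum.inl 0)) 0 0
    obtain ⟨o2, h2, h2'⟩ := hφ2 (FreeGroup.of (Sum.inl 0)) 1 0
    obtain ⟨o3, h3, h3'⟩ := hφ2 P 1 0
    obtain ⟨o4, h4, h4'⟩ := hφ2 P 1 1
    rw [ha, hc, ← h1, ← h2, ← h3, ← h4]
    refine hne φ2 (o1 * o3 + o2 * o4 + o2) ?_
    rw [map_add, map_add, map_mul, map_mul, h1', h2', h3', h4', hmka, ha2, hP2]
    decide
  have hM0 : a * c * (r P * r (FreeGroup.of (Sum.inl 0))).1 0 0 -
      a ^ 2 * (r P * r (FreeGroup.of (Sum.inl 0))).1 1 0 +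
      c ^ 2 * (r P * r (FreeGroup.of (Sum.inl 0))).1 0 1 -
      a * c * (r P * r (FreeGroup.of (Sum.inl 0))).1 1 1 ≠ 0 := by
    rw [← map_mul]
    obtain ⟨o1, h1, h1'⟩ := hφ1 (FreeGroup.of (Sum.inl 0)) 0 0
    obtain ⟨o2, h2, h2'⟩ := hφ1 (FreeGroup.of (Sum.inl 0)) 1 0
    obtain ⟨o3, h3, h3'⟩ := hφ1 (P * FreeGroup.of (Sum.inl 0)) 0 0
    obtain ⟨o4, h4, h4'⟩ := hφ1 (P * FreeGroup.of (Sum.inl 0)) 1 0
    obtain ⟨o5, h5, h5'⟩ := hφ1 (P * FreeGroup.of (Sum.inl 0)) 0 1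
    obtain ⟨o6, h6, h6'⟩ := hφ1 (P * FreeGroup.of (Sum.inl 0)) 1 1
    rw [ha, hc, ← h1, ← h2, ← h3, ← h4, ← h5, ← h6]
    refine hne φ1 (o1 * o2 * o3 - o1 ^ 2 * o4 + o2 ^ 2 * o5 - o1 * o2 * o6) ?_
    simp only [map_sub, map_add, map_mul, map_pow, h1', h2', h3', h4', h5', h6', hmka, ha1, hP1]
    decide
  have hfull : ∀ A : Subfield F, (∀ w i j, (r w).1 i j ∈ A) → ∀ z, z ∈ A := by
    intro A hA z
    have hO : ∀ o ∈ OO 2 ρ, o ∈ A := by
      intro o ho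
      refine Algebra.adjoin_induction (p := fun o _ => o ∈ A) ?_ ?_ ?_ ?_ ho
      · rintro _ ⟨g, i, j, rfl⟩
        obtain ⟨w, rfl⟩ := surfMk_surjective (h + 2) g
        have := hA w i j
        rw [hr] at this
        exact this
      · intro r
        rcases zmod2_cases r with rfl | rfl
        · rw [map_zero]; exact A.zero_mem
        · rw [map_one]; exact A.one_mem
      · intro a b _ _ h1 h2
        exact A.add_mem h1 h2
      · intro a b _ _ h1 h2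
        exact A.mul_mem h1 h2
    obtain ⟨u, hu, v, hv, hv0, huv⟩ := fracF z
    have : z = u / v := by rw [eq_div_iff hv0, huv]
    rw [this]
    exact A.div_mem (hO u hu) (hO v hv)
  have htr : ((3 * (Finset.univ.filter (fun i : Fin (h + 2) ⊕ Fin (h + 2) =>
      ¬ (i = Sum.inl 0 ∨ i = Sum.inr 0))).card + 3 : ℕ) : Cardinal) ≤
      Algebra.trdeg (ZMod 2) F := by
    rw [lst_card (h + 1)]
    have hlt : Algebra.trdeg (ZMod 2) F < Cardinal.aleph0 := by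
      refine lt_of_le_of_lt (self_le_add_right _ 3) ?_
      rw [trF]
      exact Cardinal.natCast_lt_aleph0
    obtain ⟨n, hn⟩ := Cardinal.lt_aleph0.1 hlt
    rw [hn] at trF ⊢
    have : n + 3 = 6 * (h + 2) := by exact_mod_cast trF
    exact_mod_cast (by omega : 3 * (2 * (h + 1)) + 3 ≤ n)
  obtain ⟨x, hx, ⟨Ys, hG⟩, hxt⟩ := exists_pt hαβ hPL r hrz a c ha hc hc0 ht0 hP0 hM0 hfull htr
  have hw := hG.wdf hPL hx hαβ
  obtain ⟨TT, hTT⟩ : ∃ TT : FreeGroup (Fin (h + 2) ⊕ Fin (h + 2)) → K,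
    TT = fun w => T (surfMk (h + 2) w) := ⟨_, rfl⟩
  have hrange : Set.range TT = Set.range T := by
    rw [hTT]
    ext y
    constructor
    · rintro ⟨w, rfl⟩
      exact ⟨_, rfl⟩
    · rintro ⟨g, rfl⟩
      obtain ⟨w, rfl⟩ := surfMk_surjective (h + 2) g
      exact ⟨w, rfl⟩
  have hBB : BB 2 TT = BB 2 T := by rw [BB, BB, hrange]
  have hT : ∀ w, (FreeGroup.lift x w).1.trace = algebraMap K F (TT w) := by
    intro w
    rw [hxt, hTT, ← tr, hr]
    rfl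
  have hta : TT (FreeGroup.of (Sum.inl 0)) ≠ 0 := by
    intro h0
    apply ht0
    rw [← hxt, hT, h0, map_zero]
  obtain ⟨Φ, h1, h2, h3, h4⟩ := main1 hαβ hPL hx hw (by rw [hPdef]; exact zw_comm _ _ _)
    (by rw [lst_card (h + 1)]; omega) hT (by rw [hBB]; exact fracK) hta
  refine ⟨Φ, h1, h2, ?_, ?_⟩
  · have e : ∀ m, m ∈ M1 TT ↔ m ∈ MM T := by
      intro m
      have e1 : ∀ (T1 T2 : Set K) (B1 B2 : Subalgebra (ZMod 2) K), T1 = T2 → B1 = B2 →
          (m ∈ Submodule.span B1 T1 ↔ m ∈ Submodule.span B2 T2) := by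
        intro T1 T2 B1 B2 h1 h2
        subst h1 h2
        exact Iff.rfl
      exact e1 _ _ _ _ hrange hBB
    intro m hm
    exact (e _).1 (h3 m ((e _).2 hm))
  · intro b hb
    exact h4 b (by rw [hBB]; exact hb)

/-- **MODEL**: the Cartier operator on the field of fractions of the ring of the traces of the
generic representation of the surface group. -/
theorem surf_phi {g : ℕ} (hg : 2 ≤ g) (T : SurfaceGroup g → K)
    (ρ : SurfaceGroup g →* Matrix.SpecialLinearGroup (Fin 2) F)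
    (tr : ∀ g, (ρ g).1.trace = algebraMap K F (T g)) (fracK : Frc (BB 2 T))
    (fracF : Frc (OO 2 ρ)) (trF : Algebra.trdeg (ZMod 2) F + 3 = ((6 * g : ℕ) : Cardinal))
    (pts : Pts2 ρ) :
    ∃ Φ : K → K, IsPinv 2 Φ ∧ Φ 1 = 1 ∧ (∀ b ∈ BB 2 T, Φ b ∈ BB 2 T) ∧
      (∀ m ∈ MM T, Φ m ∈ MM T) ∧ (∀ b ∈ BB 2 T, ∃ N : ℕ, Φ^[N] b = 0 ∨ Φ^[N] b = 1) ∧
      ∀ m ∈ MM T, ∃ N : ℕ, Φ^[N] m = 0 := by
  obtain ⟨h, rfl⟩ : ∃ h, g = h + 2 := ⟨g - 2, by omega⟩
  obtain ⟨Φ, h1, h2, h3, h4⟩ := surf_phi' h T ρ tr fracK fracF trF pts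
  have hMB : ∀ m ∈ MM T, m ∈ BB 2 T := by
    intro m hm
    refine Submodule.span_induction (p := fun m _ => m ∈ BB 2 T) ?_ ?_ ?_ ?_ hm
    · rintro _ ⟨w, rfl⟩
      exact Algebra.subset_adjoin ⟨w, rfl⟩
    · exact zero_mem _
    · intro a b _ _ h1 h2
      exact add_mem h1 h2
    · intro a m _ h1
      exact mul_mem a.2 h1
  have hdec : ∀ b ∈ BB 2 T, ∃ c : ZMod 2, ∃ m ∈ MM T, b = algebraMap (ZMod 2) K c + m := by
    intro b hb
    refine Algebra.adjoin_induction (p := fun b _ => ∃ c : ZMod 2, ∃ m ∈ MM T,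
      b = algebraMap (ZMod 2) K c + m) ?_ ?_ ?_ ?_ hb
    · rintro _ ⟨w, rfl⟩
      exact ⟨0, T w, Submodule.subset_span ⟨w, rfl⟩, by rw [map_zero, zero_add]⟩
    · intro r
      exact ⟨r, 0, zero_mem _, by rw [add_zero]⟩
    · rintro a b _ _ ⟨c, m, hm, rfl⟩ ⟨c', m', hm', rfl⟩
      exact ⟨c + c', m + m', add_mem hm hm', by rw [map_add]; ring⟩
    · rintro a b _ _ ⟨c, m, hm, rfl⟩ ⟨c', m', hm', rfl⟩
      refine ⟨c * c', algebraMap (ZMod 2) K c * m' + algebraMap (ZMod 2) K c' * m + m * m', ?_,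
        by rw [map_mul]; ring⟩
      refine add_mem (add_mem ?_ ?_) ?_
      · exact (MM T).smul_mem (algebraMap (ZMod 2) (BB 2 T) c) hm'
      · exact (MM T).smul_mem (algebraMap (ZMod 2) (BB 2 T) c') hm
      · exact (MM T).smul_mem ⟨m, hMB m hm⟩ hm'
  have hz0 : Φ 0 = 0 := by
    have h1 := h1.add 0 0
    rw [add_zero] at h1
    exact left_eq_add.1 h1
  refine ⟨Φ, h1, h2, ?_, h3, h4, ?_⟩
  · intro b hb
    obtain ⟨c, m, hm, rfl⟩ := hdec b hb
    rw [h1.add]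
    refine add_mem ?_ (hMB _ (h3 m hm))
    rcases zmod2_cases c with rfl | rfl
    · rw [map_zero, hz0]; exact zero_mem _
    · rw [map_one, h2]; exact one_mem _
  · intro m hm
    obtain ⟨N, hN⟩ := h4 m (hMB m hm)
    have hst : ∀ n, Φ^[n] m ∈ MM T := by
      intro n
      induction n with
      | zero => exact hm
      | succ n ih =>
        rw [Function.iterate_succ_apply']
        exact h3 _ ih
    rcases hN with hN | hN
    · exact ⟨N, hN⟩
    · exact absurd (hN ▸ hst N) (one_notMem tr pts)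

end thm

end Pool.Agent.SuM
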