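import Pool.Agent.Lib.MP_305fdd_al.Su.M.K1

/-!
# MP_305fdd_al, surface groups, model block: the integral of a product of commutators

`∫ x_pq (x⁻¹)_rs = δ_qr δ_ps`, `∫ [x, y]_jm = δ_jm`.
-/

set_option autoImplicit false
set_option linter.unusedSectionVars false

namespace Pool.Agent.SuM

open MvPolynomial Pool.Agent.SuF

section orth

variable {I : Type} [Fintype I] [DecidableEq I]

/-- the variables of the letters in `S` -/
def VL (S : Finset I) : Finset (I × Fin 2 × Fin 2) := Finset.univ.filter fun s => s.1 ∈ S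

theorem mem_VL {S : Finset I} {s : I × Fin 2 × Fin 2} : s ∈ VL S ↔ s.1 ∈ S := by
  rw [VL, Finset.mem_filter]
  exact ⟨fun h => h.2, fun h => ⟨Finset.mem_univ _, h⟩⟩

theorem card_VL (S : Finset I) : (VL S).card = 4 * S.card := by
  have h1 : VL S = S ×ˢ (Finset.univ : Finset (Fin 2 × Fin 2)) := by
    ext s
    rw [mem_VL, Finset.mem_product]
    simp
  rw [h1, Finset.card_product]
  simp [Fintype.card_prod]
  ring

/-- the product of the variables of the letters outside `S` -/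
noncomputable def EE (S : Finset I) : PR I := ∏ s ∈ (VL S)ᶜ, X s

theorem EE_Wd (S : Finset I) : (EE S : PR I) ∈ Wd (cw (VL S)) 0 :=
  XU_disj disjoint_compl_left

theorem adj_gx (i : I) : (gx i).adjugate = !![(X (i, 1, 1) : PR I), X (i, 0, 1); X (i, 1, 0),
    X (i, 0, 0)] := by
  rw [Matrix.adjugate_fin_two]
  ext a b
  fin_cases a <;> fin_cases b
  · rfl
  · exact negSelf _
  · exact negSelf _
  · rfl

theorem two_zero' (i : I) (w v : Fin 2 × Fin 2) :
    car (X (i, w.1, w.2) * X (i, v.1, v.2) * EE {i} : PR I) = 0 := by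
  refine car_Wd_zero (Wd_mul (Wd_mul (wd1 _) (wd1 _)) (EE_Wd {i})) ?_
  rw [sum_cw, card_VL]
  simp

theorem sq_zero (i : I) (w v u : Fin 2 × Fin 2) :
    car (X (i, w.1, w.2) ^ 2 * (X (i, v.1, v.2) * X (i, u.1, u.2) * EE {i}) : PR I) = 0 := by
  rw [car_sq_mul, two_zero', mul_zero]

theorem full_one (i : I) : car (X (i, 0, 0) * X (i, 1, 1) * (X (i, 0, 1) * X (i, 1, 0)) * EE {i} :
    PR I) = 1 := by
  have h1 : (X (i, 0, 0) * X (i, 1, 1) * (X (i, 0, 1) * X (i, 1, 0)) * EE {i} : PR I) =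
      ∏ s, X s := by
    have h2 : (Finset.univ : Finset (I × Fin 2 × Fin 2)) = insert (i, 0, 0) (insert (i, 1, 1)
        (insert (i, 0, 1) (insert (i, 1, 0) (VL {i})ᶜ))) := by
      ext s
      obtain ⟨j, a, b⟩ := s
      simp only [Finset.mem_univ, Finset.mem_insert, Finset.mem_compl, mem_VL,
        Finset.mem_singleton, Prod.mk.injEq, true_iff]
      fin_cases a <;> fin_cases b <;> simp <;> tauto
    rw [h2, Finset.prod_insert, Finset.prod_insert, Finset.prod_insert, Finset.prod_insert, EE]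
    · ring
    all_goals simp [mem_VL]
  rw [h1, car_sqf, if_pos rfl]

/-- **Orthogonality.** -/
theorem orth (i : I) (p q r s : Fin 2) : car (gx i p q * (gx i).adjugate r s * gr i * EE {i}) =
    if q = r ∧ p = s then 1 else 0 := by
  have f1 := full_one i
  have e : ∀ a b : Fin 2 × Fin 2, car (X (i, a.1, a.2) * X (i, b.1, b.2) * gr i * EE {i}) =
      car (X (i, a.1, a.2) * X (i, b.1, b.2) * (X (i, 0, 0) * X (i, 1, 1)) * EE {i}) +
      car (X (i, a.1, a.2) * X (i, b.1, b.2) * (X (i, 0, 1) * X (i, 1, 0)) * EE {i}) := by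
    intro a b
    have h1 : X (i, a.1, a.2) * X (i, b.1, b.2) * gr i * EE {i} =
        X (i, a.1, a.2) * X (i, b.1, b.2) * (X (i, 0, 0) * X (i, 1, 1)) * EE {i} +
        X (i, a.1, a.2) * X (i, b.1, b.2) * (X (i, 0, 1) * X (i, 1, 0)) * EE {i} +
        X (i, a.1, a.2) * X (i, b.1, b.2) * EE {i} := by
      rw [gr_eq]
      ring
    rw [h1, map_add, map_add, two_zero', add_zero]
  have z1 : ∀ w v u : Fin 2 × Fin 2, car (X (i, w.1, w.2) * X (i, v.1, v.2) *
      (X (i, w.1, w.2) * X (i, u.1, u.2)) * EE {i} : PR I) = 0 := by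
    intro w v u
    refine (congrArg car ?_).trans (sq_zero i w v u)
    ring
  have z2 : ∀ w v u : Fin 2 × Fin 2, car (X (i, v.1, v.2) * X (i, w.1, w.2) *
      (X (i, w.1, w.2) * X (i, u.1, u.2)) * EE {i} : PR I) = 0 := by
    intro w v u
    refine (congrArg car ?_).trans (sq_zero i w v u)
    ring
  have z3 : ∀ w v u : Fin 2 × Fin 2, car (X (i, w.1, w.2) * X (i, v.1, v.2) *
      (X (i, u.1, u.2) * X (i, w.1, w.2)) * EE {i} : PR I) = 0 := by
    intro w v u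
    refine (congrArg car ?_).trans (sq_zero i w v u)
    ring
  have z4 : ∀ w v u : Fin 2 × Fin 2, car (X (i, v.1, v.2) * X (i, w.1, w.2) *
      (X (i, u.1, u.2) * X (i, w.1, w.2)) * EE {i} : PR I) = 0 := by
    intro w v u
    refine (congrArg car ?_).trans (sq_zero i w v u)
    ring
  have f2 : car (X (i, 1, 1) * X (i, 0, 0) * (X (i, 0, 1) * X (i, 1, 0)) * EE {i} : PR I) = 1 := by
    refine (congrArg car ?_).trans f1
    ring
  have f3 : car (X (i, 0, 1) * X (i, 1, 0) * (X (i, 0, 0) * X (i, 1, 1)) * EE {i} : PR I) = 1 := by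
    refine (congrArg car ?_).trans f1
    ring
  have f4 : car (X (i, 1, 0) * X (i, 0, 1) * (X (i, 0, 0) * X (i, 1, 1)) * EE {i} : PR I) = 1 := by
    refine (congrArg car ?_).trans f1
    ring
  rw [adj_gx]
  fin_cases p <;> fin_cases q <;> fin_cases r <;> fin_cases s
  · refine (e (0, 0) (1, 1)).trans ?_
    rw [z1 (0, 0) (1, 1) (1, 1), f1]
    simp
  · refine (e (0, 0) (0, 1)).trans ?_
    rw [z1 (0, 0) (0, 1) (1, 1), z2 (0, 1) (0, 0) (1, 0)]
    simp
  · refine (e (0, 0) (1, 0)).trans ?_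
    rw [z1 (0, 0) (1, 0) (1, 1), z4 (1, 0) (0, 0) (0, 1)]
    simp
  · refine (e (0, 0) (0, 0)).trans ?_
    rw [z1 (0, 0) (0, 0) (1, 1)]
    have : (X (i, 0, 0) * X (i, 0, 0) * (X (i, 0, 1) * X (i, 1, 0)) * EE {i} : PR I) =
        X (i, 0, 0) ^ 2 * (X (i, 0, 1) * X (i, 1, 0) * EE {i}) := by ring
    change 0 + car (X (i, 0, 0) * X (i, 0, 0) * (X (i, 0, 1) * X (i, 1, 0)) * EE {i}) = _
    rw [this, sq_zero i (0, 0) (0, 1) (1, 0)]
    simp
  · refine (e (0, 1) (1, 1)).trans ?_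
    rw [z4 (1, 1) (0, 1) (0, 0), z1 (0, 1) (1, 1) (1, 0)]
    simp
  · refine (e (0, 1) (0, 1)).trans ?_
    rw [z1 (0, 1) (0, 1) (1, 0)]
    have : (X (i, 0, 1) * X (i, 0, 1) * (X (i, 0, 0) * X (i, 1, 1)) * EE {i} : PR I) =
        X (i, 0, 1) ^ 2 * (X (i, 0, 0) * X (i, 1, 1) * EE {i}) := by ring
    change car (X (i, 0, 1) * X (i, 0, 1) * (X (i, 0, 0) * X (i, 1, 1)) * EE {i}) + 0 = _
    rw [this, sq_zero i (0, 1) (0, 0) (1, 1)]
    simp
  · refine (e (0, 1) (1, 0)).trans ?_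
    rw [z1 (0, 1) (1, 0) (1, 0), f3]
    simp
  · refine (e (0, 1) (0, 0)).trans ?_
    rw [z2 (0, 0) (0, 1) (1, 1), z1 (0, 1) (0, 0) (1, 0)]
    simp
  · refine (e (1, 0) (1, 1)).trans ?_
    rw [z4 (1, 1) (1, 0) (0, 0), z3 (1, 0) (1, 1) (0, 1)]
    simp
  · refine (e (1, 0) (0, 1)).trans ?_
    rw [z3 (1, 0) (0, 1) (0, 1), f4]
    simp
  · refine (e (1, 0) (1, 0)).trans ?_
    rw [z3 (1, 0) (1, 0) (0, 1)]
    have : (X (i, 1, 0) * X (i, 1, 0) * (X (i, 0, 0) * X (i, 1, 1)) * EE {i} : PR I) =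
        X (i, 1, 0) ^ 2 * (X (i, 0, 0) * X (i, 1, 1) * EE {i}) := by ring
    change car (X (i, 1, 0) * X (i, 1, 0) * (X (i, 0, 0) * X (i, 1, 1)) * EE {i}) + 0 = _
    rw [this, sq_zero i (1, 0) (0, 0) (1, 1)]
    simp
  · refine (e (1, 0) (0, 0)).trans ?_
    rw [z2 (0, 0) (1, 0) (1, 1), z3 (1, 0) (0, 0) (0, 1)]
    simp
  · refine (e (1, 1) (1, 1)).trans ?_
    rw [z3 (1, 1) (1, 1) (0, 0)]
    have : (X (i, 1, 1) * X (i, 1, 1) * (X (i, 0, 1) * X (i, 1, 0)) * EE {i} : PR I) =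
        X (i, 1, 1) ^ 2 * (X (i, 0, 1) * X (i, 1, 0) * EE {i}) := by ring
    change 0 + car (X (i, 1, 1) * X (i, 1, 1) * (X (i, 0, 1) * X (i, 1, 0)) * EE {i}) = _
    rw [this, sq_zero i (1, 1) (0, 1) (1, 0)]
    simp
  · refine (e (1, 1) (0, 1)).trans ?_
    rw [z3 (1, 1) (0, 1) (0, 0), z2 (0, 1) (1, 1) (1, 0)]
    simp
  · refine (e (1, 1) (1, 0)).trans ?_
    rw [z3 (1, 1) (1, 0) (0, 0), z4 (1, 0) (1, 1) (0, 1)]
    simp
  · refine (e (1, 1) (0, 0)).trans ?_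
    rw [z3 (1, 1) (0, 0) (0, 0), f2]
    simp

end orth

end Pool.Agent.SuM
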