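import Pool.Agent.Lib.MP_305fdd_al.Su.F.Tri

/-!
# MP_305fdd_al, surface groups, model block: weights, elimination of variables
-/

set_option autoImplicit false
set_option linter.unusedSectionVars false

namespace Pool.Agent.SuM

open MvPolynomial Pool.Agent.SuF

variable {σ : Type}

/-- the weight of a monomial -/
def wt [Fintype σ] (ω : σ → ℕ) (e : σ →₀ ℕ) : ℕ := ∑ s, e s * ω s

theorem wt_add [Fintype σ] (ω : σ → ℕ) (e d : σ →₀ ℕ) : wt ω (e + d) = wt ω e + wt ω d := by
  rw [wt, wt, wt, ← Finset.sum_add_distrib]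
  refine Finset.sum_congr rfl fun s _ => ?_
  rw [Finsupp.add_apply, add_mul]

theorem wt_zero [Fintype σ] (ω : σ → ℕ) : wt ω 0 = 0 := by
  rw [wt]
  exact Finset.sum_eq_zero fun s _ => by rw [Finsupp.zero_apply, zero_mul]

theorem wt_single [Fintype σ] [DecidableEq σ] (ω : σ → ℕ) (s : σ) (n : ℕ) :
    wt ω (Finsupp.single s n) = n * ω s := by
  rw [wt, Finset.sum_eq_single s]
  · rw [Finsupp.single_eq_same]
  · intro t _ hts
    rw [Finsupp.single_eq_of_ne hts, zero_mul]
  · intro h
    exact absurd (Finset.mem_univ s) h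

/-- the polynomials of weight at most `n` -/
def Wd [Fintype σ] (ω : σ → ℕ) (n : ℕ) : Submodule (ZMod 2) (MvPolynomial σ (ZMod 2)) where
  carrier := {f | ∀ e, coeff e f ≠ 0 → wt ω e ≤ n}
  add_mem' := by
    intro a b ha hb e he
    rw [coeff_add] at he
    by_cases h : coeff e a = 0
    · rw [h, zero_add] at he
      exact hb e he
    · exact ha e h
  zero_mem' := by
    intro e he
    exact absurd (coeff_zero e) he
  smul_mem' := by
    intro c a ha e he
    rw [coeff_smul] at he
    exact ha e fun h => he (by rw [h, smul_zero])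

theorem mem_Wd [Fintype σ] {ω : σ → ℕ} {n : ℕ} {f : MvPolynomial σ (ZMod 2)} :
    f ∈ Wd ω n ↔ ∀ e, coeff e f ≠ 0 → wt ω e ≤ n := Iff.rfl

theorem Wd_mono [Fintype σ] {ω : σ → ℕ} {n m : ℕ} (h : n ≤ m) {f : MvPolynomial σ (ZMod 2)}
    (hf : f ∈ Wd ω n) : f ∈ Wd ω m := fun e he => (hf e he).trans h

theorem monomial_mem_Wd [Fintype σ] {ω : σ → ℕ} {n : ℕ} {e : σ →₀ ℕ} (he : wt ω e ≤ n)
    (c : ZMod 2) : monomial e c ∈ Wd ω n := by
  classical
  intro d hd
  rw [coeff_monomial] at hd
  split_ifs at hd with h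
  · rw [← h]; exact he
  · exact absurd rfl hd

theorem Wd_mul [Fintype σ] {ω : σ → ℕ} {n m : ℕ} {f g : MvPolynomial σ (ZMod 2)}
    (hf : f ∈ Wd ω n) (hg : g ∈ Wd ω m) : f * g ∈ Wd ω (n + m) := by
  classical
  intro e he
  rw [coeff_mul] at he
  obtain ⟨p, hp, h⟩ := Finset.exists_ne_zero_of_sum_ne_zero he
  rw [Finset.HasAntidiagonal.mem_antidiagonal] at hp
  rw [← hp, wt_add]
  exact add_le_add (hf _ (left_ne_zero_of_mul h)) (hg _ (right_ne_zero_of_mul h))

theorem Wd_one [Fintype σ] {ω : σ → ℕ} {n : ℕ} : (1 : MvPolynomial σ (ZMod 2)) ∈ Wd ω n := by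
  have h : (1 : MvPolynomial σ (ZMod 2)) = monomial 0 1 := rfl
  rw [h]
  exact monomial_mem_Wd (by rw [wt_zero]; exact Nat.zero_le _) _

theorem Wd_X [Fintype σ] {ω : σ → ℕ} {n : ℕ} {s : σ} (h : ω s ≤ n) :
    (X s : MvPolynomial σ (ZMod 2)) ∈ Wd ω n := by
  classical
  exact monomial_mem_Wd (by rw [wt_single, one_mul]; exact h) _

theorem Wd_prod [Fintype σ] {ω : σ → ℕ} {ι : Type} (S : Finset ι) (n : ι → ℕ)
    (f : ι → MvPolynomial σ (ZMod 2)) (h : ∀ i ∈ S, f i ∈ Wd ω (n i)) :
    ∏ i ∈ S, f i ∈ Wd ω (∑ i ∈ S, n i) := by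
  classical
  induction S using Finset.induction_on with
  | empty => rw [Finset.prod_empty, Finset.sum_empty]; exact Wd_one
  | insert b S hb ih =>
    rw [Finset.prod_insert hb, Finset.sum_insert hb]
    exact Wd_mul (h b (Finset.mem_insert_self _ _))
      (ih fun i hi => h i (Finset.mem_insert_of_mem hi))

theorem exists_Wd [Fintype σ] (ω : σ → ℕ) (f : MvPolynomial σ (ZMod 2)) : ∃ n, f ∈ Wd ω n := by
  refine ⟨f.support.sup (wt ω), fun e he => ?_⟩
  exact Finset.le_sup (f := wt ω) (mem_support_iff.2 he)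

/-- induction over the monomials of weight at most `n` -/
theorem Wd_ind [Fintype σ] {ω : σ → ℕ} {n : ℕ} {p : MvPolynomial σ (ZMod 2) → Prop} (h0 : p 0)
    (hadd : ∀ f g, p f → p g → p (f + g)) (hm : ∀ e, wt ω e ≤ n → p (monomial e 1))
    {f : MvPolynomial σ (ZMod 2)} (hf : f ∈ Wd ω n) : p f := by
  rw [← MvPolynomial.support_sum_monomial_coeff f]
  refine Finset.sum_induction _ p hadd h0 fun e he => ?_
  have h1 := mem_support_iff.1 he
  rcases zmod2_cases (coeff e f) with h2 | h2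
  · exact absurd h2 h1
  · rw [h2]
    exact hm e (hf e h1)

/-- the coefficients of `car f` -/
theorem coeff_car (f : MvPolynomial σ (ZMod 2)) (d e : σ →₀ ℕ) (h : ∀ s, e s = 2 * d s + 1) :
    coeff d (car f) = coeff e f := by
  classical
  induction f using mono_ind with
  | h0 => rw [map_zero, coeff_zero, coeff_zero]
  | hadd f g hf hg => rw [map_add, coeff_add, coeff_add, hf, hg]
  | hm e' =>
    rw [car_mono, coeff_monomial]
    by_cases h1 : ∀ s, Odd (e' s)
    · rw [if_pos h1, coeff_monomial]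
      have h2 : half e' = d ↔ e' = e := by
        constructor
        · intro h3
          ext s
          have h4 := h s
          have h5 : half e' s = d s := by rw [h3]
          rw [half_apply] at h5
          obtain ⟨k, hk⟩ := h1 s
          omega
        · intro h3
          ext s
          rw [half_apply, h3, h]
          omega
      by_cases h3 : half e' = d
      · rw [if_pos h3, if_pos (h2.1 h3)]
      · rw [if_neg h3, if_neg fun h4 => h3 (h2.2 h4)]
    · rw [if_neg h1, coeff_zero, if_neg]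
      intro h2
      apply h1
      intro s
      rw [h2, h s]
      exact ⟨d s, rfl⟩

theorem car_Wd [Fintype σ] {ω : σ → ℕ} {n : ℕ} {f : MvPolynomial σ (ZMod 2)} (hf : f ∈ Wd ω n) :
    car f ∈ Wd ω ((n - ∑ s, ω s) / 2) := by
  intro d hd
  obtain ⟨e, he⟩ : ∃ e : σ →₀ ℕ, ∀ s, e s = 2 * d s + 1 :=
    ⟨Finsupp.equivFunOnFinite.symm fun s => 2 * d s + 1, fun s => rfl⟩
  rw [coeff_car f d e he] at hd
  have h1 := hf e hd
  have h2 : wt ω e = 2 * wt ω d + ∑ s, ω s := by
    rw [wt, wt, Finset.mul_sum, ← Finset.sum_add_distrib]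
    refine Finset.sum_congr rfl fun s _ => ?_
    rw [he s]
    ring
  omega

theorem car_Wd_zero [Fintype σ] {ω : σ → ℕ} {n : ℕ} {f : MvPolynomial σ (ZMod 2)}
    (hf : f ∈ Wd ω n) (hn : n < ∑ s, ω s) : car f = 0 := by
  ext d
  rw [coeff_zero]
  by_contra hd
  obtain ⟨e, he⟩ : ∃ e : σ →₀ ℕ, ∀ s, e s = 2 * d s + 1 :=
    ⟨Finsupp.equivFunOnFinite.symm fun s => 2 * d s + 1, fun s => rfl⟩
  rw [coeff_car f d e he] at hd
  have h1 := hf e hd
  have h2 : wt ω e = 2 * wt ω d + ∑ s, ω s := by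
    rw [wt, wt, Finset.mul_sum, ← Finset.sum_add_distrib]
    refine Finset.sum_congr rfl fun s _ => ?_
    rw [he s]
    ring
  omega

/-- weight zero: the variables of positive weight do not occur -/
theorem wt_eq_zero [Fintype σ] {ω : σ → ℕ} {e : σ →₀ ℕ} (h : wt ω e ≤ 0) {s : σ} (hs : ω s ≠ 0) :
    e s = 0 := by
  have h1 : wt ω e = 0 := Nat.le_zero.1 h
  rw [wt, Finset.sum_eq_zero_iff] at h1
  have h2 := h1 s (Finset.mem_univ s)
  rcases Nat.mul_eq_zero.1 h2 with h3 | h3
  · exact h3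
  · exact absurd h3 hs

/-! ## Weights zero on a set -/

open Classical in
/-- the weight which counts the variables in `U` -/
noncomputable def cw (U : Finset σ) (s : σ) : ℕ := if s ∈ U then 1 else 0

theorem cw_mem {U : Finset σ} {s : σ} (h : s ∈ U) : cw U s = 1 := by
  rw [cw, if_pos h]

theorem cw_notMem {U : Finset σ} {s : σ} (h : s ∉ U) : cw U s = 0 := by
  rw [cw, if_neg h]

theorem sum_cw [Fintype σ] (U : Finset σ) : ∑ s, cw U s = U.card := by
  classical
  simp [cw]

theorem prod_X_mono (U : Finset σ) : ∃ e : σ →₀ ℕ, (∀ s ∈ U, e s = 1) ∧ (∀ s, s ∉ U → e s = 0) ∧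
    (∏ s ∈ U, (X s : MvPolynomial σ (ZMod 2))) = monomial e 1 := by
  classical
  refine ⟨∑ s ∈ U, Finsupp.single s 1, ?_, ?_, ?_⟩
  · intro s hs
    rw [Finset.sum_apply']
    simp only [Finsupp.single_apply]
    rw [Finset.sum_ite_eq' U s, if_pos hs]
  · intro s hs
    rw [Finset.sum_apply']
    simp only [Finsupp.single_apply]
    rw [Finset.sum_ite_eq' U s, if_neg hs]
  · rw [monomial_sum_one]
    rfl

/-- the substitution of zero for the variables in `U` -/
noncomputable def pz [DecidableEq σ] (U : Finset σ) :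
    MvPolynomial σ (ZMod 2) →ₐ[ZMod 2] MvPolynomial σ (ZMod 2) :=
  aeval fun s => if s ∈ U then 0 else X s

theorem pz_mono [DecidableEq σ] (U : Finset σ) (e : σ →₀ ℕ) (h : ∀ s ∈ U, e s = 0) :
    pz U (monomial e (1 : ZMod 2)) = monomial e 1 := by
  rw [pz, aeval_monomial, map_one, one_mul, monomial_eq, map_one, one_mul]
  refine Finset.prod_congr rfl fun s hs => ?_
  by_cases h1 : s ∈ U
  · exact absurd (h s h1) (Finsupp.mem_support_iff.1 hs)
  · change (if s ∈ U then (0 : MvPolynomial σ (ZMod 2)) else X s) ^ (e s) = X s ^ (e s)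
    rw [if_neg h1]

theorem pz_mono' [DecidableEq σ] (U : Finset σ) (e : σ →₀ ℕ) {s : σ} (hs : s ∈ U) (h : e s ≠ 0) :
    pz U (monomial e (1 : ZMod 2)) = 0 := by
  rw [pz, aeval_monomial, map_one, one_mul]
  refine Finset.prod_eq_zero (Finsupp.mem_support_iff.2 h) ?_
  change (if s ∈ U then (0 : MvPolynomial σ (ZMod 2)) else X s) ^ (e s) = 0
  rw [if_pos hs]
  exact zero_pow h

theorem pz_car [DecidableEq σ] (U : Finset σ) (f : MvPolynomial σ (ZMod 2)) :
    pz U (car (f * ∏ s ∈ U, X s)) = car (pz U f * ∏ s ∈ U, X s) := by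
  classical
  obtain ⟨u, hu, hu', huu⟩ := prod_X_mono U
  rw [huu]
  induction f using mono_ind with
  | h0 => simp
  | hadd f g hf hg => rw [add_mul, map_add, map_add, hf, hg, map_add, add_mul, map_add]
  | hm e =>
    by_cases h : ∀ s ∈ U, e s = 0
    · rw [pz_mono U e h, monomial_mul, one_mul, car_mono]
      split_ifs with h1
      · rw [pz_mono]
        intro s hs
        rw [half_apply, Finsupp.add_apply, h s hs, hu s hs]
        rfl
      · exact map_zero _
    · push Not at h
      obtain ⟨s, hs, h⟩ := h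
      rw [pz_mono' U e hs h, zero_mul, map_zero, monomial_mul, one_mul, car_mono]
      split_ifs with h1
      · rw [pz_mono' U _ hs]
        rw [half_apply, Finsupp.add_apply, hu s hs]
        have h2 := h1 s
        rw [Finsupp.add_apply, hu s hs] at h2
        obtain ⟨k, hk⟩ := h2
        omega
      · exact map_zero _

/-- the substitution of `q s` for the variables in `U` -/
noncomputable def pq [DecidableEq σ] (U : Finset σ) (q : σ → MvPolynomial σ (ZMod 2)) :
    MvPolynomial σ (ZMod 2) →ₐ[ZMod 2] MvPolynomial σ (ZMod 2) :=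
  aeval fun s => if s ∈ U then q s else X s

theorem pq_X [DecidableEq σ] (U : Finset σ) (q : σ → MvPolynomial σ (ZMod 2)) (s : σ) :
    pq U q (X s) = if s ∈ U then q s else X s := aeval_X _ _

/-- polynomials in which the variables of `U` do not occur -/
theorem Wd_fix [Fintype σ] [DecidableEq σ] {U : Finset σ} {f : MvPolynomial σ (ZMod 2)}
    (hf : f ∈ Wd (cw U) 0) {S : Type} [CommRing S] [Algebra (ZMod 2) S] (φ : σ → S)
    (ψ : σ → S) (h : ∀ s, s ∉ U → φ s = ψ s) : aeval φ f = aeval ψ f := by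
  refine Wd_ind (p := fun f => aeval φ f = aeval ψ f) ?_ ?_ ?_ hf
  · rw [map_zero, map_zero]
  · intro f g h1 h2
    rw [map_add, map_add, h1, h2]
  · intro e he
    rw [aeval_monomial, aeval_monomial]
    congr 1
    refine Finset.prod_congr rfl fun s hs => ?_
    have h1 : s ∉ U := fun h2 =>
      Finsupp.mem_support_iff.1 hs (wt_eq_zero he (by rw [cw_mem h2]; exact one_ne_zero))
    change φ s ^ (e s) = ψ s ^ (e s)
    rw [h s h1]

theorem pq_fix [Fintype σ] [DecidableEq σ] {U : Finset σ} (q : σ → MvPolynomial σ (ZMod 2))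
    {f : MvPolynomial σ (ZMod 2)} (hf : f ∈ Wd (cw U) 0) : pq U q f = f := by
  conv_rhs => rw [← aeval_X_left_apply f]
  refine Wd_fix hf _ _ fun s hs => ?_
  rw [if_neg hs]

theorem Wd_pderiv [Fintype σ] [DecidableEq σ] {U : Finset σ} {f : MvPolynomial σ (ZMod 2)}
    (hf : f ∈ Wd (cw U) 0) {s : σ} (hs : s ∈ U) : pderiv s f = 0 := by
  refine Wd_ind (p := fun f => pderiv s f = 0) ?_ ?_ ?_ hf
  · exact map_zero _
  · intro f g h1 h2
    rw [map_add, h1, h2, add_zero]
  · intro e he
    rw [pderiv_monomial, wt_eq_zero he (by rw [cw_mem hs]; exact one_ne_zero), Nat.cast_zero,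
      mul_zero, monomial_zero]

/-- **Elimination of the variables `s ∈ U` by the equations `X s = q s`.** -/
theorem elim [Fintype σ] [DecidableEq σ] (U : Finset σ) (q : σ → MvPolynomial σ (ZMod 2))
    (hq : ∀ s ∈ U, q s ∈ Wd (cw U) 0) (f : MvPolynomial σ (ZMod 2)) :
    pq U q (car (f * ∏ s ∈ U, (X s + q s))) = car (pq U q f * ∏ s ∈ U, X s) := by
  obtain ⟨φ, hφ⟩ : ∃ φ : MvPolynomial σ (ZMod 2) →ₐ[ZMod 2] MvPolynomial σ (ZMod 2),
    φ = aeval fun s => if s ∈ U then X s + q s else X s := ⟨_, rfl⟩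
  have hφX : ∀ s, φ (X s) = if s ∈ U then X s + q s else X s := by
    intro s
    rw [hφ, aeval_X]
  have hfix : ∀ (ψ : MvPolynomial σ (ZMod 2) →ₐ[ZMod 2] MvPolynomial σ (ZMod 2)),
      (∀ b, b ∉ U → ψ (X b) = X b) → ∀ g ∈ Wd (cw U) 0, ψ g = g := by
    intro ψ hψ g hg
    have h1 : ψ = aeval fun s => ψ (X s) := MvPolynomial.algHom_ext fun s => by rw [aeval_X]
    rw [h1]
    conv_rhs => rw [← aeval_X_left_apply g]
    exact Wd_fix hg _ _ fun s hs => hψ s hs
  have hcar : ∀ g, car (φ g) = φ (car g) := by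
    intro g
    rw [hφ]
    refine car_tri_set q U ?_ ?_ U subset_rfl g
    · intro a ha b hb
      exact Wd_pderiv (hq a ha) hb
    · intro a ha ψ hψ
      exact hfix ψ hψ _ (hq a ha)
  have hφU : ∀ b, b ∉ U → φ (X b) = X b := fun b hb => by rw [hφX, if_neg hb]
  have hpz : ∀ g, pq U q g = pz U (φ g) := by
    intro g
    have h1 : pq U q = (pz U).comp φ := by
      refine MvPolynomial.algHom_ext fun s => ?_
      rw [pq_X, AlgHom.comp_apply, hφX]
      by_cases hs : s ∈ U
      · rw [if_pos hs, if_pos hs, map_add]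
        have h2 : pz U (X s) = 0 := by rw [pz, aeval_X, if_pos hs]
        rw [h2, zero_add]
        symm
        refine hfix (pz U) ?_ _ (hq s hs)
        intro b hb
        rw [pz, aeval_X, if_neg hb]
      · rw [if_neg hs, if_neg hs, pz, aeval_X, if_neg hs]
    rw [h1]
    rfl
  have hprod : φ (∏ s ∈ U, (X s + q s)) = ∏ s ∈ U, X s := by
    rw [map_prod]
    refine Finset.prod_congr rfl fun s hs => ?_
    rw [map_add, hφX, if_pos hs, hfix φ hφU _ (hq s hs), add_assoc, addSelf, add_zero]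
  rw [hpz, ← hcar, map_mul, hprod, pz_car, hpz]

/-- the Cartier operator of a product of polynomials in disjoint sets of variables -/
theorem car_disj [Fintype σ] [DecidableEq σ] (D : Finset σ) {u f : MvPolynomial σ (ZMod 2)}
    (hu : u ∈ Wd (cw Dᶜ) 0) (hf : f ∈ Wd (cw D) 0) :
    car (u * f) = car (u * ∏ s ∈ Dᶜ, X s) * car (f * ∏ s ∈ D, X s) := by
  classical
  obtain ⟨a, ha, ha', haa⟩ := prod_X_mono D
  obtain ⟨b, hb, hb', hbb⟩ := prod_X_mono Dᶜ
  rw [haa, hbb]
  refine Wd_ind (p := fun u => car (u * f) = car (u * monomial b 1) * car (f * monomial a 1))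
    ?_ ?_ ?_ hu
  · simp
  · intro u v h1 h2
    rw [add_mul, map_add, h1, h2, add_mul, map_add, add_mul]
  intro e he
  refine Wd_ind (p := fun f => car (monomial e 1 * f) = car (monomial e 1 * monomial b 1) *
    car (f * monomial a 1)) ?_ ?_ ?_ hf
  · simp
  · intro u v h1 h2
    rw [mul_add, map_add, h1, h2, add_mul, map_add, mul_add]
  intro d hd
  rw [monomial_mul, monomial_mul, monomial_mul, one_mul, car_mono, car_mono, car_mono]
  have he' : ∀ s, s ∉ D → e s = 0 := fun s hs =>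
    wt_eq_zero he (by rw [cw_mem (Finset.mem_compl.2 hs)]; exact one_ne_zero)
  have hd' : ∀ s ∈ D, d s = 0 := fun s hs => wt_eq_zero hd (by rw [cw_mem hs]; exact one_ne_zero)
  have hb2 : ∀ s, s ∉ D → b s = 1 := fun s hs => hb s (Finset.mem_compl.2 hs)
  have hb3 : ∀ s ∈ D, b s = 0 := fun s hs => hb' s fun h => Finset.mem_compl.1 h hs
  have key : (∀ s, Odd ((e + d) s)) ↔ (∀ s, Odd ((e + b) s)) ∧ (∀ s, Odd ((d + a) s)) := by
    constructor
    · intro h
      refine ⟨fun s => ?_, fun s => ?_⟩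
      · have h1 := h s
        rw [Finsupp.add_apply] at h1 ⊢
        by_cases hs : s ∈ D
        · rw [hb3 s hs]
          rwa [hd' s hs] at h1
        · rw [he' s hs, hb2 s hs]
          exact odd_one
      · have h1 := h s
        rw [Finsupp.add_apply] at h1 ⊢
        by_cases hs : s ∈ D
        · rw [hd' s hs, ha s hs]
          exact odd_one
        · rw [ha' s hs, add_zero]
          rwa [he' s hs, zero_add] at h1
    · rintro ⟨h1, h2⟩ s
      have h3 := h1 s
      have h4 := h2 s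
      rw [Finsupp.add_apply] at h3 h4 ⊢
      by_cases hs : s ∈ D
      · rw [hb3 s hs] at h3
        rwa [hd' s hs]
      · rw [ha' s hs, add_zero] at h4
        rwa [he' s hs, zero_add]
  by_cases h : ∀ s, Odd ((e + d) s)
  · obtain ⟨h1, h2⟩ := key.1 h
    rw [if_pos h, if_pos h1, if_pos h2, monomial_mul, one_mul]
    congr 2
    ext s
    simp only [half_apply, Finsupp.add_apply]
    by_cases hs : s ∈ D
    · rw [hd' s hs, hb3 s hs, ha s hs]
      omega
    · rw [he' s hs, hb2 s hs, ha' s hs]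
      omega
  · rw [if_neg h]
    by_cases h1 : ∀ s, Odd ((e + b) s)
    · rw [if_neg fun h2 => h (key.2 ⟨h1, h2⟩), mul_zero]
    · rw [if_neg h1, zero_mul]

end Pool.Agent.SuM
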