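import Pool.Agent.Lib.MP_305fdd_al.Su.M.Comp
import Pool.Agent.Lib.MP_305fdd_al.Su.M.Wt

/-!
# MP_305fdd_al, surface groups, model block: comparison with the slice (polynomials)

The variables of the slice: `t = α₂₂`, `v = (β₁₁, β₂₁)`, the entries of the other letters.  The
other variables `s ∈ U` are eliminated by the equations `X s = q s`.
-/

set_option autoImplicit false
set_option linter.unusedSectionVars false

namespace Pool.Agent.SuM

open MvPolynomial Pool.Agent.SuF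

section pol

variable {I : Type} [Fintype I] [DecidableEq I] {F : Type} [Field F] [Algebra (ZMod 2) F]

/-- the values of polynomials at `x` -/
noncomputable def pv (x : I → Matrix.SpecialLinearGroup (Fin 2) F) : PR I →ₐ[ZMod 2] F :=
  pev fun i => (x i).1

theorem pv_X (x : I → Matrix.SpecialLinearGroup (Fin 2) F) (i : I) (a b : Fin 2) :
    pv x (X (i, a, b)) = (x i).1 a b := pev_X _ _ _ _

theorem ev_amk (x : I → Matrix.SpecialLinearGroup (Fin 2) F) (f : PR I) :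
    ev x (amk f) = pv x f := rfl

/-- the polynomials `h` such that `car (f h)` vanishes at `x` for all `f` -/
noncomputable def pn (x : I → Matrix.SpecialLinearGroup (Fin 2) F) : Ideal (PR I) where
  carrier := {h | ∀ f, pv x (car (f * h)) = 0}
  add_mem' := by
    intro a b ha hb f
    rw [mul_add, map_add, map_add, ha f, hb f, add_zero]
  zero_mem' := by
    intro f
    rw [mul_zero, map_zero, map_zero]
  smul_mem' := by
    intro c a ha f
    rw [smul_eq_mul, ← mul_assoc]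
    exact ha _

theorem mem_pn {x : I → Matrix.SpecialLinearGroup (Fin 2) F} {h : PR I} :
    h ∈ pn x ↔ ∀ f, pv x (car (f * h)) = 0 := Iff.rfl

theorem sq_mem_pn {x : I → Matrix.SpecialLinearGroup (Fin 2) F} {u : PR I} (hu : pv x u = 0) :
    u ^ 2 ∈ pn x := by
  intro f
  rw [mul_comm, car_sq_mul, map_mul, hu, zero_mul]

theorem pn_congr {x : I → Matrix.SpecialLinearGroup (Fin 2) F} {h h' : PR I}
    (hh : h - h' ∈ pn x) (f : PR I) : pv x (car (f * h)) = pv x (car (f * h')) := by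
  have h1 := mem_pn.1 hh f
  rw [mul_sub, map_sub, map_sub, sub_eq_zero] at h1
  exact h1

variable (α β : I)

/-- the variables of the letters `α`, `β` -/
def AB : Finset (I × Fin 2 × Fin 2) := Finset.univ.filter fun s => s.1 = α ∨ s.1 = β

/-- the eliminated variables -/
def UU : Finset (I × Fin 2 × Fin 2) := {(α, 0, 0), (α, 0, 1), (α, 1, 0), (β, 0, 1), (β, 1, 1)}

theorem mem_AB (s : I × Fin 2 × Fin 2) : s ∈ AB α β ↔ s.1 = α ∨ s.1 = β := by
  rw [AB, Finset.mem_filter]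
  exact ⟨fun h => h.2, fun h => ⟨Finset.mem_univ _, h⟩⟩

theorem UU_sub : UU α β ⊆ AB α β := by
  intro s hs
  rw [mem_AB]
  simp only [UU, Finset.mem_insert, Finset.mem_singleton] at hs
  rcases hs with rfl | rfl | rfl | rfl | rfl
  · exact Or.inl rfl
  · exact Or.inl rfl
  · exact Or.inl rfl
  · exact Or.inr rfl
  · exact Or.inr rfl

theorem Wd_sub {σ : Type} [Fintype σ] {U V : Finset σ} (h : U ⊆ V)
    {f : MvPolynomial σ (ZMod 2)} (hf : f ∈ Wd (cw V) 0) : f ∈ Wd (cw U) 0 := by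
  intro e he
  have h1 := hf e he
  rw [wt, Nat.le_zero, Finset.sum_eq_zero_iff]
  intro s _
  by_cases hs : s ∈ U
  · rw [wt_eq_zero h1 (by rw [cw_mem (h hs)]; exact one_ne_zero), zero_mul]
  · rw [cw_notMem hs, mul_zero]

variable (Pp : Matrix (Fin 2) (Fin 2) (PR I))

/-- the variable `t` -/
noncomputable def tp : PR I := X (α, 1, 1)

/-- the matrix `P J` -/
noncomputable def Mp : Matrix (Fin 2) (Fin 2) (PR I) := Pp * !![0, 1; 1, tp α]

/-- the equations of the eliminated variables -/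
noncomputable def qp (s : I × Fin 2 × Fin 2) : PR I :=
  if s = (α, 0, 0) then 0 else if s = (α, 0, 1) then 1 else if s = (α, 1, 0) then 1 else
    if s = (β, 0, 1) then Mp α Pp 0 0 * X (β, 0, 0) + Mp α Pp 0 1 * X (β, 1, 0) else
      Mp α Pp 1 0 * X (β, 0, 0) + Mp α Pp 1 1 * X (β, 1, 0)

/-- the equation `T(M) + t` -/
noncomputable def fp : PR I := Mp α Pp 0 0 + Mp α Pp 1 1 + tp α

/-- the equation `det (v, M v) + 1` -/
noncomputable def Qp : PR I := Mp α Pp 1 0 * X (β, 0, 0) ^ 2 +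
  (Mp α Pp 0 0 + Mp α Pp 1 1) * (X (β, 0, 0) * X (β, 1, 0)) + Mp α Pp 0 1 * X (β, 1, 0) ^ 2 + 1

/-- the equations of the other letters -/
noncomputable def Gp : PR I := ∏ i ∈ Finset.univ.filter (fun i => ¬ (i = α ∨ i = β)), gr i

/-- the factor of the Cartier operator of the slice -/
noncomputable def Wp : PR I := Gp α β * fp α Pp * Qp α β Pp * ∏ s ∈ UU α β, X s

/-- the Cartier operator of the slice -/
noncomputable def kp (f : PR I) : PR I := car (f * Wp α β Pp)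

/-- the polynomial lift of the word `P` -/
structure PL (P : FreeGroup I) : Prop where
  lift : ∀ a b, amk (Pp a b) = rM P a b
  free : ∀ a b, Pp a b ∈ Wd (cw (AB α β)) 0
  deg : ∀ a b, Pp a b ∈ Wd (cw (AB α β)ᶜ)
    (2 * (Finset.univ.filter (fun i => ¬ (i = α ∨ i = β))).card)
  tra : ∀ a b, car (Pp a b * Gp α β * ∏ s ∈ AB α β, X s) = if a = b then 1 else 0

variable {α β Pp} {P : FreeGroup I} {x : I → Matrix.SpecialLinearGroup (Fin 2) F}

theorem amk_X (i : I) (a b : Fin 2) : amk (X (i, a, b)) = rM (FreeGroup.of i) a b := by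
  rw [rM_of]
  rfl

theorem gr_eq (i : I) : gr i = X (i, 0, 0) * X (i, 1, 1) + X (i, 0, 1) * X (i, 1, 0) + 1 := by
  have h2 := two_zero (PR I)
  rw [gr, Matrix.det_fin_two]
  change X (i, 0, 0) * X (i, 1, 1) - X (i, 0, 1) * X (i, 1, 0) + 1 = _
  linear_combination (-(X (i, 0, 1) * X (i, 1, 0))) * h2

theorem Mp_eq (a : Fin 2) : Mp α Pp a 0 = Pp a 1 ∧ Mp α Pp a 1 = Pp a 0 + Pp a 1 * tp α := by
  constructor
  · rw [Mp, Matrix.mul_apply, Fin.sum_univ_two]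
    simp
  · rw [Mp, Matrix.mul_apply, Fin.sum_univ_two]
    simp

theorem PL.Mp_lift (h : PL α β Pp P) (a b : Fin 2) :
    amk (Mp α Pp a b) = (rM P * jt α) a b := by
  rw [Mp, Matrix.mul_apply, Matrix.mul_apply, Fin.sum_univ_two, Fin.sum_univ_two, map_add, map_mul,
    map_mul, h.lift, h.lift, jt]
  fin_cases b
  · simp
  · simp [tp, amk_X]

theorem PL.ef_lift (h : PL α β Pp P) : amk (fp α Pp) = ef α P := by
  rw [fp, map_add, map_add, h.Mp_lift, h.Mp_lift, ef, tp, amk_X]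

theorem PL.e0_lift (h : PL α β Pp P) :
    amk (X (β, 0, 1) + (Mp α Pp 0 0 * X (β, 0, 0) + Mp α Pp 0 1 * X (β, 1, 0))) = e0 α β P := by
  have e : (rM P * jt α * rM (FreeGroup.of β)) 0 0 = (rM P * jt α) 0 0 *
      rM (FreeGroup.of β) 0 0 + (rM P * jt α) 0 1 * rM (FreeGroup.of β) 1 0 := by
    conv_lhs => rw [Matrix.mul_apply, Fin.sum_univ_two]
  rw [map_add, map_add, map_mul, map_mul, h.Mp_lift, h.Mp_lift, amk_X, amk_X, amk_X, e0,
    e, add_comm]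

theorem PL.e1_lift (h : PL α β Pp P) :
    amk (X (β, 1, 1) + (Mp α Pp 1 0 * X (β, 0, 0) + Mp α Pp 1 1 * X (β, 1, 0))) = e1 α β P := by
  have e : (rM P * jt α * rM (FreeGroup.of β)) 1 0 = (rM P * jt α) 1 0 *
      rM (FreeGroup.of β) 0 0 + (rM P * jt α) 1 1 * rM (FreeGroup.of β) 1 0 := by
    conv_lhs => rw [Matrix.mul_apply, Fin.sum_univ_two]
  rw [map_add, map_add, map_mul, map_mul, h.Mp_lift, h.Mp_lift, amk_X, amk_X, amk_X, e1,
    e, add_comm]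

theorem prod_UU (hαβ : α ≠ β) (f : I × Fin 2 × Fin 2 → PR I) : ∏ s ∈ UU α β, f s =
    f (α, 0, 0) * (f (α, 0, 1) * (f (α, 1, 0) * (f (β, 0, 1) * f (β, 1, 1)))) := by
  rw [UU, Finset.prod_insert, Finset.prod_insert, Finset.prod_insert, Finset.prod_insert,
    Finset.prod_singleton]
  all_goals simp [hαβ]

theorem prod_gr (hαβ : α ≠ β) : ∏ i, gr i = gr α * (gr β * Gp α β) := by
  have h1 : (Finset.univ : Finset I) =
      insert α (insert β (Finset.univ.filter (fun i => ¬ (i = α ∨ i = β)))) := by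
    ext i
    simp only [Finset.mem_univ, Finset.mem_insert, Finset.mem_filter, true_and, true_iff]
    tauto
  rw [h1, Finset.prod_insert, Finset.prod_insert, Gp]
  · simp
  · simp [hαβ]

theorem qp_vals (hαβ : α ≠ β) : qp α β Pp (α, 0, 0) = 0 ∧ qp α β Pp (α, 0, 1) = 1 ∧
    qp α β Pp (α, 1, 0) = 1 ∧
    qp α β Pp (β, 0, 1) = Mp α Pp 0 0 * X (β, 0, 0) + Mp α Pp 0 1 * X (β, 1, 0) ∧
    qp α β Pp (β, 1, 1) = Mp α Pp 1 0 * X (β, 0, 0) + Mp α Pp 1 1 * X (β, 1, 0) := by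
  refine ⟨?_, ?_, ?_, ?_, ?_⟩ <;> simp [qp, hαβ.symm]

theorem tp_free : (tp α : PR I) ∈ Wd (cw (UU α β)) 0 ∨ α = β := by
  by_cases h : α = β
  · exact Or.inr h
  · left
    refine Wd_X ?_
    rw [cw_notMem]
    simp [UU, h]

theorem v_free (hαβ : α ≠ β) (a : Fin 2) : (X (β, a, 0) : PR I) ∈ Wd (cw (UU α β)) 0 := by
  refine Wd_X ?_
  rw [cw_notMem]
  simp [UU, hαβ.symm]

theorem PL.Mp_free (h : PL α β Pp P) (hαβ : α ≠ β) (a b : Fin 2) :
    Mp α Pp a b ∈ Wd (cw (UU α β)) 0 := by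
  have h1 : ∀ a b, Pp a b ∈ Wd (cw (UU α β)) 0 := fun a b => Wd_sub (UU_sub α β) (h.free a b)
  have h2 : (tp α : PR I) ∈ Wd (cw (UU α β)) 0 := (tp_free (β := β)).resolve_right hαβ
  fin_cases b
  · change Mp α Pp a 0 ∈ _
    rw [(Mp_eq a).1]
    exact h1 _ _
  · change Mp α Pp a 1 ∈ _
    rw [(Mp_eq a).2]
    exact Submodule.add_mem _ (h1 _ _) (Wd_mul (h1 _ _) h2)

theorem Wd_sq {σ : Type} [Fintype σ] {ω : σ → ℕ} {f : MvPolynomial σ (ZMod 2)}
    (hf : f ∈ Wd ω 0) : f ^ 2 ∈ Wd ω 0 := by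
  rw [pow_two]
  exact Wd_mul hf hf

theorem PL.qp_free (h : PL α β Pp P) (hαβ : α ≠ β) : ∀ s ∈ UU α β,
    qp α β Pp s ∈ Wd (cw (UU α β)) 0 := by
  intro s _
  have hM := h.Mp_free hαβ
  rw [qp]
  split_ifs
  · exact Submodule.zero_mem _
  · exact Wd_one
  · exact Wd_one
  · exact Submodule.add_mem _ (Wd_mul (hM _ _) (v_free hαβ 0)) (Wd_mul (hM _ _) (v_free hαβ 1))
  · exact Submodule.add_mem _ (Wd_mul (hM _ _) (v_free hαβ 0)) (Wd_mul (hM _ _) (v_free hαβ 1))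

theorem PL.fp_free (h : PL α β Pp P) (hαβ : α ≠ β) : fp α Pp ∈ Wd (cw (UU α β)) 0 := by
  have hM := h.Mp_free hαβ
  exact Submodule.add_mem _ (Submodule.add_mem _ (hM _ _) (hM _ _))
    ((tp_free (β := β)).resolve_right hαβ)

theorem PL.Qp_free (h : PL α β Pp P) (hαβ : α ≠ β) : Qp α β Pp ∈ Wd (cw (UU α β)) 0 := by
  have hM := h.Mp_free hαβ
  have v0 := v_free hαβ 0
  have v1 := v_free hαβ 1
  exact Submodule.add_mem _ (Submodule.add_mem _ (Submodule.add_mem _ (Wd_mul (hM _ _) (Wd_sq v0))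
    (Wd_mul (Submodule.add_mem _ (hM _ _) (hM _ _)) (Wd_mul v0 v1))) (Wd_mul (hM _ _) (Wd_sq v1)))
    Wd_one

theorem gr_Wd {ω : I × Fin 2 × Fin 2 → ℕ} {n : ℕ} (i : I)
    (h : ∀ a b, ω (i, a, b) ≤ n) : gr i ∈ Wd ω (2 * n) := by
  rw [gr_eq, two_mul]
  exact Submodule.add_mem _ (Submodule.add_mem _ (Wd_mul (Wd_X (h _ _)) (Wd_X (h _ _)))
    (Wd_mul (Wd_X (h _ _)) (Wd_X (h _ _)))) Wd_one

theorem Gp_AB : (Gp α β : PR I) ∈ Wd (cw (AB α β)) 0 := by
  have h := Wd_prod (ω := cw (AB α β)) (Finset.univ.filter (fun i => ¬ (i = α ∨ i = β)))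
    (fun _ => 0) (fun i => (gr i : PR I)) ?_
  · rw [Finset.sum_const_zero] at h
    exact h
  · intro i hi
    rw [Finset.mem_filter] at hi
    refine gr_Wd (n := 0) i fun a b => ?_
    rw [cw_notMem]
    rw [mem_AB]
    exact hi.2

theorem Gp_free : (Gp α β : PR I) ∈ Wd (cw (UU α β)) 0 := Wd_sub (UU_sub α β) Gp_AB

theorem PL.pv_e0 (h : PL α β Pp P) (hx : Sl α β P x) :
    pv x (X (β, 0, 1) + (Mp α Pp 0 0 * X (β, 0, 0) + Mp α Pp 0 1 * X (β, 1, 0))) = 0 := by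
  rw [← ev_amk, h.e0_lift, hx.ev_e0]

theorem PL.pv_e1 (h : PL α β Pp P) (hx : Sl α β P x) :
    pv x (X (β, 1, 1) + (Mp α Pp 1 0 * X (β, 0, 0) + Mp α Pp 1 1 * X (β, 1, 0))) = 0 := by
  rw [← ev_amk, h.e1_lift, hx.ev_e1]

theorem PL.pv_fp (h : PL α β Pp P) (hx : Sl α β P x) : pv x (fp α Pp) = 0 := by
  rw [← ev_amk, h.ef_lift, hx.ev_ef]

theorem pv_gr (i : I) : pv x (gr i) = 0 := by
  rw [pv, pev_gr, (x i).2]
  exact addSelf _

theorem gr_Qp (x0 : PR I) (y0 : PR I)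
    (h0 : x0 = X (β, 0, 1) + (Mp α Pp 0 0 * X (β, 0, 0) + Mp α Pp 0 1 * X (β, 1, 0)))
    (h1 : y0 = X (β, 1, 1) + (Mp α Pp 1 0 * X (β, 0, 0) + Mp α Pp 1 1 * X (β, 1, 0))) :
    gr β = Qp α β Pp + X (β, 0, 0) * y0 + X (β, 1, 0) * x0 := by
  have h2 := two_zero (PR I)
  rw [gr_eq, Qp, h0, h1]
  linear_combination (-(Mp α Pp 1 0 * X (β, 0, 0) ^ 2 +
    (Mp α Pp 0 0 + Mp α Pp 1 1) * (X (β, 0, 0) * X (β, 1, 0)) + Mp α Pp 0 1 * X (β, 1, 0) ^ 2)) * h2

theorem PL.pv_Qp (h : PL α β Pp P) (hx : Sl α β P x) : pv x (Qp α β Pp) = 0 := by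
  have h1 := congrArg (pv x) (gr_Qp (α := α) (β := β) (Pp := Pp) _ _ rfl rfl)
  rw [map_add, map_add, map_mul, map_mul, h.pv_e0 hx, h.pv_e1 hx, mul_zero, mul_zero, add_zero,
    add_zero, pv_gr] at h1
  exact h1.symm

/-- replacement of the equations -/
theorem PL.repl (h : PL α β Pp P) (hx : Sl α β P x) (hαβ : α ≠ β) :
    X (α, 1, 0) * (X (α, 0, 0) * (X (α, 1, 0) + 1)) *
      ((X (β, 0, 1) + (Mp α Pp 0 0 * X (β, 0, 0) + Mp α Pp 0 1 * X (β, 1, 0))) *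
      (X (β, 1, 1) + (Mp α Pp 1 0 * X (β, 0, 0) + Mp α Pp 1 1 * X (β, 1, 0))) * fp α Pp) *
      ∏ i, gr i - Gp α β * fp α Pp * Qp α β Pp * ∏ s ∈ UU α β, (X s + qp α β Pp s) ∈ pn x := by
  have h2 := two_zero (PR I)
  obtain ⟨q1, q2, q3, q4, q5⟩ := qp_vals (Pp := Pp) hαβ
  rw [prod_gr hαβ, prod_UU hαβ, q1, q2, q3, q4, q5]
  obtain ⟨a, ha⟩ : ∃ a, a = X (β, 0, 1) + (Mp α Pp 0 0 * X (β, 0, 0) + Mp α Pp 0 1 * X (β, 1, 0)) :=
    ⟨_, rfl⟩
  obtain ⟨b, hb⟩ : ∃ b, b = X (β, 1, 1) + (Mp α Pp 1 0 * X (β, 0, 0) + Mp α Pp 1 1 * X (β, 1, 0)) :=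
    ⟨_, rfl⟩
  have hpa : pv x a = 0 := by rw [ha]; exact h.pv_e0 hx
  have hpb : pv x b = 0 := by rw [hb]; exact h.pv_e1 hx
  rw [← ha, ← hb, gr_Qp (α := α) (β := β) (Pp := Pp) a b ha hb, gr_eq α]
  obtain ⟨c, hc⟩ : ∃ c : PR I, c = X (α, 0, 0) := ⟨_, rfl⟩
  obtain ⟨d, hd⟩ : ∃ d : PR I, d = X (α, 1, 0) + 1 := ⟨_, rfl⟩
  have hpc : pv x c = 0 := by rw [hc, pv_X, hx.a00]
  have hpd : pv x d = 0 := by
    rw [hd, map_add, pv_X, hx.a10, map_one]
    exact addSelf _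
  have hd' : X (α, 1, 0) = d - 1 := by rw [hd]; ring
  rw [← hc, hd']
  obtain ⟨G, hG⟩ : ∃ G : PR I, G = Gp α β := ⟨_, rfl⟩
  obtain ⟨Q, hQ⟩ : ∃ Q : PR I, Q = Qp α β Pp := ⟨_, rfl⟩
  obtain ⟨f, hf⟩ : ∃ f : PR I, f = fp α Pp := ⟨_, rfl⟩
  obtain ⟨m, hm⟩ : ∃ m : PR I, m = X (α, 1, 1) := ⟨_, rfl⟩
  obtain ⟨n, hn⟩ : ∃ n : PR I, n = X (α, 0, 1) := ⟨_, rfl⟩
  obtain ⟨v, hv⟩ : ∃ v : PR I, v = X (β, 0, 0) := ⟨_, rfl⟩
  obtain ⟨w, hw⟩ : ∃ w : PR I, w = X (β, 1, 0) := ⟨_, rfl⟩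
  rw [← hG, ← hQ, ← hf, ← hm, ← hn, ← hv, ← hw]
  have sa := sq_mem_pn hpa
  have sb := sq_mem_pn hpb
  have sc := sq_mem_pn hpc
  have sd := sq_mem_pn hpd
  have e : (d - 1) * (c * (d - 1 + 1)) * (a * b * f) *
      ((c * m + n * (d - 1) + 1) * ((Q + v * b + w * a) * G)) -
      G * f * Q * ((c + 0) * ((n + 1) * ((d - 1 + 1) * (a * b)))) =
      ((d - 1) * c * b * f * d * (c * m + n * (d - 1) + 1) * w * G) * a ^ 2 +
      ((d - 1) * c * a * f * d * (c * m + n * (d - 1) + 1) * v * G) * b ^ 2 +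
      ((d - 1) * d * a * b * f * m * Q * G) * c ^ 2 +
      (c * a * b * f * Q * G * (n * (d - 1) + 1 - n)) * d ^ 2 -
      (2 * (c * d * a * b * f * Q * G)) := by
    ring
  rw [e, h2, zero_mul, sub_zero]
  exact Ideal.add_mem _ (Ideal.add_mem _ (Ideal.add_mem _ (Ideal.mul_mem_left _ _ sa)
    (Ideal.mul_mem_left _ _ sb)) (Ideal.mul_mem_left _ _ sc)) (Ideal.mul_mem_left _ _ sd)

/-- the eliminated variables have the right values at `x` -/
theorem PL.pv_pq (h : PL α β Pp P) (hx : Sl α β P x) (hαβ : α ≠ β) (f : PR I) :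
    pv x (pq (UU α β) (qp α β Pp) f) = pv x f := by
  have h1 : (pv x).comp (pq (UU α β) (qp α β Pp)) = pv x := by
    refine MvPolynomial.algHom_ext fun s => ?_
    rw [AlgHom.comp_apply, pq_X]
    split_ifs with hs
    · obtain ⟨q1, q2, q3, q4, q5⟩ := qp_vals (Pp := Pp) hαβ
      simp only [UU, Finset.mem_insert, Finset.mem_singleton] at hs
      rcases hs with rfl | rfl | rfl | rfl | rfl
      · rw [q1, map_zero, pv_X, hx.a00]
      · rw [q2, map_one, pv_X, hx.a01]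
      · rw [q3, map_one, pv_X, hx.a10]
      · rw [q4]
        have h2 := h.pv_e0 hx
        rw [map_add] at h2
        exact (eq_of_add h2).symm
      · rw [q5]
        have h2 := h.pv_e1 hx
        rw [map_add] at h2
        exact (eq_of_add h2).symm
    · rfl
  exact AlgHom.congr_fun h1 f

/-- **Comparison with the slice, polynomial form.** -/
theorem PL.compat (h : PL α β Pp P) (hx : Sl α β P x) (hαβ : α ≠ β) (k : PR I)
    (hk : aD (amk k) = 0) (hk' : aH (amk k) = 0) :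
    ev x (CG (amk k * rT (zw α β P) * (rM (FreeGroup.of α * (zw α β P)⁻¹) 0 0 +
      rM (FreeGroup.of α) 0 0))) =
      pv x (kp α β Pp (pq (UU α β) (qp α β Pp) k)) := by
  rw [hx.compat hk hk' (FreeGroup.of α), es, ← h.e0_lift, ← h.e1_lift, ← h.ef_lift, ← amk_X,
    ← amk_X]
  have e : ∀ a b c : PR I, amk k * (amk a * amk b * amk (fp α Pp)) * amk (X (α, 1, 0)) *
      (amk (X (α, 0, 0)) * (amk (X (α, 1, 0)) + 1)) = amk (k * (X (α, 1, 0) * (X (α, 0, 0) *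
      (X (α, 1, 0) + 1)) * (a * b * fp α Pp))) := by
    intro a b c
    simp only [map_mul, map_add, map_one]
    ring
  rw [e _ _ 0, CG_mk, ev_amk, mul_assoc, pn_congr (h.repl hx hαβ), ← h.pv_pq hx hαβ, ← mul_assoc,
    elim _ _ (h.qp_free hαβ), map_mul (pq (UU α β) (qp α β Pp)), kp, Wp,
    map_mul (pq (UU α β) (qp α β Pp)), map_mul (pq (UU α β) (qp α β Pp)), pq_fix _ Gp_free,
    pq_fix _ (h.fp_free hαβ), pq_fix _ (h.Qp_free hαβ)]
  congr 2
  ring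

end pol

end Pool.Agent.SuM
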