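import Pool.Agent.Lib.MP_305fdd_al.Su.M.Gen

/-!
# MP_305fdd_al, surface groups, model block: the point of the slice
-/

set_option autoImplicit false
set_option linter.unusedSectionVars false

namespace Pool.Agent.SuM

open MvPolynomial Pool.Agent.SuF

section conj

variable {F : Type} [Field F]

/-- the matrix `γ` -/
def gam (a c : F) : Matrix (Fin 2) (Fin 2) F := !![1, a; 0, c]

/-- the matrix `γ⁻¹` -/
noncomputable def gai (a c : F) : Matrix (Fin 2) (Fin 2) F := !![1, -(a / c); 0, c⁻¹]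

theorem gai_gam {a c : F} (hc : c ≠ 0) : gai a c * gam a c = 1 := by
  rw [gai, gam, Matrix.mul_fin_two]
  ext i j
  fin_cases i <;> fin_cases j <;> simp [hc]

theorem gam_gai {a c : F} (hc : c ≠ 0) : gam a c * gai a c = 1 := by
  rw [gai, gam, Matrix.mul_fin_two]
  ext i j
  fin_cases i <;> fin_cases j <;> simp [hc, div_eq_mul_inv]

/-- conjugation by `γ⁻¹` -/
noncomputable def cjH {a c : F} (hc : c ≠ 0) :
    Matrix.SpecialLinearGroup (Fin 2) F →* Matrix.SpecialLinearGroup (Fin 2) F where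
  toFun m := ⟨gai a c * m.1 * gam a c, by
    rw [Matrix.det_mul, Matrix.det_mul, m.2, mul_one, ← Matrix.det_mul, gai_gam hc,
      Matrix.det_one]⟩
  map_one' := by
    refine Subtype.ext ?_
    change gai a c * 1 * gam a c = 1
    rw [Matrix.mul_one, gai_gam hc]
  map_mul' m n := by
    refine Subtype.ext ?_
    change gai a c * (m.1 * n.1) * gam a c = gai a c * m.1 * gam a c * (gai a c * n.1 * gam a c)
    have h := gam_gai (a := a) hc
    have e : gai a c * m.1 * gam a c * (gai a c * n.1 * gam a c) =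
        gai a c * m.1 * (gam a c * gai a c) * n.1 * gam a c := by
      simp only [Matrix.mul_assoc]
    rw [e, h, Matrix.mul_one]
    simp only [Matrix.mul_assoc]

theorem cjH_val {a c : F} (hc : c ≠ 0) (m : Matrix.SpecialLinearGroup (Fin 2) F) :
    (cjH (a := a) hc m).1 = gai a c * m.1 * gam a c := rfl

theorem cjH_back {a c : F} (hc : c ≠ 0) (m : Matrix.SpecialLinearGroup (Fin 2) F) :
    m.1 = gam a c * (cjH (a := a) hc m).1 * gai a c := by
  rw [cjH_val]
  have h := gam_gai (a := a) hc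
  have e : gam a c * (gai a c * m.1 * gam a c) * gai a c =
      (gam a c * gai a c) * m.1 * (gam a c * gai a c) := by simp only [Matrix.mul_assoc]
  rw [e, h, Matrix.mul_one, Matrix.one_mul]

theorem cjH_trace {a c : F} (hc : c ≠ 0) (m : Matrix.SpecialLinearGroup (Fin 2) F) :
    (cjH (a := a) hc m).1.trace = m.1.trace := by
  rw [cjH_val, Matrix.trace_mul_comm, ← Matrix.mul_assoc, gam_gai hc, Matrix.one_mul]

theorem conj_entries (a c : F) (m : Matrix (Fin 2) (Fin 2) F) : gai a c * m * gam a c =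
    !![m 0 0 - a / c * m 1 0, a * (m 0 0 - a / c * m 1 0) + c * (m 0 1 - a / c * m 1 1);
      c⁻¹ * m 1 0, a * (c⁻¹ * m 1 0) + c * (c⁻¹ * m 1 1)] := by
  conv_lhs => rw [Matrix.eta_fin_two m, gai, gam, Matrix.mul_fin_two, Matrix.mul_fin_two]
  ext i j
  fin_cases i <;> fin_cases j <;> simp <;> ring

end conj

section pt

variable {I : Type} [Fintype I] [DecidableEq I] {F : Type} [Field F] [Algebra (ZMod 2) F]
variable {α β : I} {Pp : Matrix (Fin 2) (Fin 2) (PR I)} {P : FreeGroup I}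
  {x : I → Matrix.SpecialLinearGroup (Fin 2) F} {Ys : Finset (I × Fin 2 × Fin 2)}

/-- the conditions on the point of the slice, except independence -/
structure Gp0 (α β : I) (Pp : Matrix (Fin 2) (Fin 2) (PR I))
    (x : I → Matrix.SpecialLinearGroup (Fin 2) F) (Ys : Finset (I × Fin 2 × Fin 2)) : Prop where
  v0 : (β, 0, 0) ∈ Ys
  lett : ∀ i, ¬ (i = α ∨ i = β) → ∀ a b : Fin 2, (i, a, b) ∈ Ys ∨ ((i, a + 1, b + 1) ∈ Ys ∧
    (i, a, b + 1) ∈ Ys ∧ (i, a + 1, b) ∈ Ys ∧ (x i).1 (a + 1) (b + 1) ≠ 0)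
  hP : pv x (Pp 1 1 + 1) ≠ 0
  hM : pv x (Mp α Pp 0 1) ≠ 0
  ht : pv x (tp α) ≠ 0

theorem pv_mem {A : Subfield F} {ω : I × Fin 2 × Fin 2 → ℕ} {f : PR I} (hf : f ∈ Wd ω 0)
    (h : ∀ s, ω s = 0 → pv x (X s) ∈ A) : pv x f ∈ A := by
  refine Wd_ind (p := fun f => pv x f ∈ A) ?_ ?_ ?_ hf
  · rw [map_zero]; exact A.zero_mem
  · intro f g h1 h2
    rw [map_add]; exact A.add_mem h1 h2
  · intro e he
    rw [monomial_eq, map_one, one_mul, Finsupp.prod, map_prod]
    refine A.prod_mem fun s hs => ?_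
    rw [map_pow]
    refine A.pow_mem (h s ?_) _
    by_contra h3
    exact Finsupp.mem_support_iff.1 hs (wt_eq_zero he h3)

theorem Gp0.full (G : Gp0 α β Pp x Ys) (h : PL α β Pp P) (hx : Sl α β P x) (A : Subfield F)
    (hY : ∀ s ∈ Ys, pv x (X s) ∈ A)
    (hq : ∀ z p q s : F, p ∈ A → q ∈ A → s ∈ A → p ≠ 0 → p * z ^ 2 + q * z + s = 0 → z ∈ A)
    (i : I) (a b : Fin 2) : (x i).1 a b ∈ A := by
  have two := two_zero F
  have hl : ∀ i, ¬ (i = α ∨ i = β) → ∀ a b : Fin 2, pv x (X (i, a, b)) ∈ A := by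
    intro i hi a b
    rcases G.lett i hi a b with h1 | ⟨h1, h2, h3, h4⟩
    · exact hY _ h1
    · have e1 := pv_gr (x := x) i
      rw [gr_pair i a b, map_add, map_add, map_mul, map_mul, map_one] at e1
      have k1 := hY _ h1
      have k2 := hY _ h2
      have k3 := hY _ h3
      rw [← pv_X] at h4
      have e2 : pv x (X (i, a, b)) = (pv x (X (i, a, b + 1)) * pv x (X (i, a + 1, b)) + 1) /
          pv x (X (i, a + 1, b + 1)) := by
        rw [eq_div_iff h4]
        linear_combination e1 - (pv x (X (i, a, b + 1)) * pv x (X (i, a + 1, b)) + 1) * two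
      rw [e2]
      exact A.div_mem (A.add_mem (A.mul_mem k2 k3) A.one_mem) k1
  have hPp : ∀ a b, pv x (Pp a b) ∈ A := by
    intro a b
    refine pv_mem (h.free a b) fun s hs => ?_
    have h1 : s ∉ AB α β := fun h2 => by
      rw [cw_mem h2] at hs
      exact one_ne_zero hs
    rw [mem_AB] at h1
    exact hl _ h1 _ _
  have ht : pv x (tp α) ∈ A := by
    have e1 := h.pv_fp hx
    rw [fp_eq, map_add, map_mul, map_add] at e1
    have e2 : pv x (tp α) = (pv x (Pp 0 1) + pv x (Pp 1 0)) / pv x (Pp 1 1 + 1) := by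
      rw [eq_div_iff G.hP]
      linear_combination e1 - (pv x (Pp 0 1) + pv x (Pp 1 0)) * two
    rw [e2]
    refine A.div_mem (A.add_mem (hPp _ _) (hPp _ _)) ?_
    rw [map_add, map_one]
    exact A.add_mem (hPp _ _) A.one_mem
  have hM : ∀ a b, pv x (Mp α Pp a b) ∈ A := by
    intro a b
    fin_cases b
    · change pv x (Mp α Pp a 0) ∈ A
      rw [(Mp_eq a).1]
      exact hPp _ _
    · change pv x (Mp α Pp a 1) ∈ A
      rw [(Mp_eq a).2, map_add, map_mul]
      exact A.add_mem (hPp _ _) (A.mul_mem (hPp _ _) ht)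
  have hv0 := hY _ G.v0
  have hZ : pv x (X (β, 1, 0)) ∈ A := by
    have e1 := h.pv_Qp hx
    rw [Qp] at e1
    simp only [map_add, map_mul, map_pow, map_one] at e1
    refine hq _ (pv x (Mp α Pp 0 1)) ((pv x (Mp α Pp 0 0) + pv x (Mp α Pp 1 1)) *
      pv x (X (β, 0, 0))) (pv x (Mp α Pp 1 0) * pv x (X (β, 0, 0)) ^ 2 + 1) (hM _ _)
      (A.mul_mem (A.add_mem (hM _ _) (hM _ _)) hv0)
      (A.add_mem (A.mul_mem (hM _ _) (A.pow_mem hv0 _)) A.one_mem) G.hM ?_
    rw [← e1]
    ring
  by_cases hi : i = α ∨ i = β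
  · rcases hi with rfl | rfl
    · fin_cases a <;> fin_cases b
      · change (x i).1 0 0 ∈ A
        rw [hx.a00]; exact A.zero_mem
      · change (x i).1 0 1 ∈ A
        rw [hx.a01]; exact A.one_mem
      · change (x i).1 1 0 ∈ A
        rw [hx.a10]; exact A.one_mem
      · rw [tp, pv_X] at ht
        exact ht
    · have e0 := h.pv_e0 hx
      have e1 := h.pv_e1 hx
      rw [map_add] at e0 e1
      have e0' := eq_of_add e0
      have e1' := eq_of_add e1
      rw [map_add, map_mul, map_mul] at e0' e1'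
      fin_cases a <;> fin_cases b
      · rw [pv_X] at hv0; exact hv0
      · rw [pv_X] at e0'
        change (x i).1 0 1 ∈ A
        rw [e0']
        exact A.add_mem (A.mul_mem (hM _ _) hv0) (A.mul_mem (hM _ _) hZ)
      · rw [pv_X] at hZ; exact hZ
      · rw [pv_X] at e1'
        change (x i).1 1 1 ∈ A
        rw [e1']
        exact A.add_mem (A.mul_mem (hM _ _) hv0) (A.mul_mem (hM _ _) hZ)
  · have h1 := hl i hi a b
    rwa [pv_X] at h1

/-- the words have entries in `A` -/
theorem word_mem {A : Subfield F} (h : ∀ i a b, (x i).1 a b ∈ A) (w : FreeGroup I) (a b : Fin 2) :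
    (FreeGroup.lift x w).1 a b ∈ A := by
  have hmul : ∀ M N : Matrix (Fin 2) (Fin 2) F, (∀ a b, M a b ∈ A) → (∀ a b, N a b ∈ A) →
      ∀ a b, (M * N) a b ∈ A := by
    intro M N hM hN a b
    rw [Matrix.mul_apply]
    exact A.sum_mem fun j _ => A.mul_mem (hM _ _) (hN _ _)
  have hinv : ∀ M : Matrix.SpecialLinearGroup (Fin 2) F, (∀ a b, M.1 a b ∈ A) →
      ∀ a b, (M⁻¹).1 a b ∈ A := by
    intro M hM a b
    have e : (M⁻¹).1 = M.1.adjugate := Matrix.SpecialLinearGroup.coe_inv M
    rw [e, Matrix.adjugate_fin_two]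
    fin_cases a <;> fin_cases b
    · exact hM _ _
    · exact A.neg_mem (hM _ _)
    · exact A.neg_mem (hM _ _)
    · exact hM _ _
  induction w using FreeGroup.induction_on generalizing a b with
  | C1 =>
    rw [map_one]
    change (1 : Matrix (Fin 2) (Fin 2) F) a b ∈ A
    rw [Matrix.one_apply]
    split_ifs
    · exact A.one_mem
    · exact A.zero_mem
  | of i => rw [FreeGroup.lift_apply_of]; exact h i a b
  | inv_of i ih => rw [map_inv]; exact hinv _ ih a b
  | mul w y hw hy => rw [map_mul]; exact hmul _ _ hw hy a b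

end pt

end Pool.Agent.SuM
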