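import Pool.Agent.Lib.MP_305fdd_al.Su.M.Pt

/-!
# MP_305fdd_al, surface groups, model block: the generic point of the slice
-/

set_option autoImplicit false
set_option linter.unusedSectionVars false

namespace Pool.Agent.SuM

open MvPolynomial Pool.Agent.SuF

section alg

variable {F : Type} [Field F] [Algebra (ZMod 2) F]

/-- the elements which are algebraic over `E` -/
noncomputable def Af (E : Subalgebra (ZMod 2) F) : Subfield F where
  carrier := {z | IsAlgebraic E z}
  mul_mem' := fun h1 h2 => IsAlgebraic.mul h1 h2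
  one_mem' := isAlgebraic_one
  add_mem' := fun h1 h2 => IsAlgebraic.add h1 h2
  zero_mem' := isAlgebraic_zero
  neg_mem' := fun h1 => IsAlgebraic.neg h1
  inv_mem' := fun _ h1 => IsAlgebraic.inv h1

theorem Af_quad (E : Subalgebra (ZMod 2) F) (z p q s : F) (hp : p ∈ Af E) (hq : q ∈ Af E)
    (hs : s ∈ Af E) (hp0 : p ≠ 0) (h : p * z ^ 2 + q * z + s = 0) : z ∈ Af E := by
  obtain ⟨p', hp'⟩ : ∃ p' : Subalgebra.algebraicClosure E F, algebraMap _ F p' = p := ⟨⟨p, hp⟩, rfl⟩
  obtain ⟨q', hq'⟩ : ∃ p' : Subalgebra.algebraicClosure E F, algebraMap _ F p' = q := ⟨⟨q, hq⟩, rfl⟩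
  obtain ⟨s', hs'⟩ : ∃ p' : Subalgebra.algebraicClosure E F, algebraMap _ F p' = s := ⟨⟨s, hs⟩, rfl⟩
  have h1 : IsAlgebraic (Subalgebra.algebraicClosure E F) z := by
    refine ⟨Polynomial.C p' * Polynomial.X ^ 2 + Polynomial.C q' * Polynomial.X +
      Polynomial.C s', ?_, ?_⟩
    · intro h0
      have h2 := congrArg (fun f => Polynomial.coeff f 2) h0
      simp only [Polynomial.coeff_add, Polynomial.coeff_C_mul, Polynomial.coeff_X_pow,
        Polynomial.coeff_X, Polynomial.coeff_C, Polynomial.coeff_zero] at h2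
      norm_num at h2
      rw [h2, map_zero] at hp'
      exact hp0 hp'.symm
    · simp only [map_add, map_mul, map_pow, Polynomial.aeval_X, Polynomial.aeval_C]
      rw [hp', hq', hs']
      exact h
  exact IsAlgebraic.restrictScalars E h1

end alg

section pt

variable {I : Type} [Fintype I] [DecidableEq I] {F : Type} [Field F] [Algebra (ZMod 2) F]
variable {α β : I} {Pp : Matrix (Fin 2) (Fin 2) (PR I)} {P : FreeGroup I}
  {x : I → Matrix.SpecialLinearGroup (Fin 2) F} {Ys : Finset (I × Fin 2 × Fin 2)}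

/-- the eliminated entry of the letter `i` -/
noncomputable def elx (x : I → Matrix.SpecialLinearGroup (Fin 2) F) (i : I) : Fin 2 × Fin 2 :=
  open Classical in if (x i).1 1 0 = 0 then (1, 1) else (0, 1)

/-- the independent variables -/
noncomputable def Yx (α β : I) (x : I → Matrix.SpecialLinearGroup (Fin 2) F) :
    Finset (I × Fin 2 × Fin 2) :=
  insert (β, 0, 0) ((Finset.univ.filter (fun i => ¬ (i = α ∨ i = β))).biUnion
    fun i => (Finset.univ.filter fun q : Fin 2 × Fin 2 => q ≠ elx x i).image fun q => (i, q))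

theorem mem_Yx {s : I × Fin 2 × Fin 2} : s ∈ Yx α β x ↔ s = (β, 0, 0) ∨
    (¬ (s.1 = α ∨ s.1 = β) ∧ s.2 ≠ elx x s.1) := by
  rw [Yx, Finset.mem_insert, Finset.mem_biUnion]
  refine or_congr Iff.rfl ?_
  constructor
  · rintro ⟨i, hi, h⟩
    rw [Finset.mem_image] at h
    obtain ⟨q, hq, rfl⟩ := h
    rw [Finset.mem_filter] at hi hq
    exact ⟨hi.2, hq.2⟩
  · rintro ⟨h1, h2⟩
    refine ⟨s.1, Finset.mem_filter.2 ⟨Finset.mem_univ _, h1⟩, Finset.mem_image.2
      ⟨s.2, Finset.mem_filter.2 ⟨Finset.mem_univ _, h2⟩, rfl⟩⟩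

theorem card_Yx : (Yx α β x).card ≤
    3 * (Finset.univ.filter (fun i => ¬ (i = α ∨ i = β))).card + 1 := by
  rw [Yx]
  refine (Finset.card_insert_le _ _).trans ?_
  refine Nat.add_le_add_right (Finset.card_biUnion_le.trans ?_) 1
  have h1 : ∀ i ∈ Finset.univ.filter (fun i => ¬ (i = α ∨ i = β)),
      ((Finset.univ.filter fun q : Fin 2 × Fin 2 => q ≠ elx x i).image fun q => (i, q)).card ≤
        3 := by
    intro i _
    refine Finset.card_image_le.trans ?_
    rw [Finset.filter_ne', Finset.card_erase_of_mem (Finset.mem_univ _)]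
    simp [Fintype.card_prod]
  refine (Finset.sum_le_sum h1).trans ?_
  rw [Finset.sum_const, smul_eq_mul, mul_comm]

theorem Yx_lett (i : I) (hi : ¬ (i = α ∨ i = β)) (a b : Fin 2) : (i, a, b) ∈ Yx α β x ∨
    ((i, a + 1, b + 1) ∈ Yx α β x ∧ (i, a, b + 1) ∈ Yx α β x ∧ (i, a + 1, b) ∈ Yx α β x ∧
      (x i).1 (a + 1) (b + 1) ≠ 0) := by
  by_cases h : (a, b) = elx x i
  · right
    have hne : ∀ q : Fin 2 × Fin 2, q ≠ (a, b) → (i, q) ∈ Yx α β x := by
      intro q hq
      rw [mem_Yx]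
      exact Or.inr ⟨hi, fun h2 => hq (h2.trans h.symm)⟩
    have dec : ∀ a b : Fin 2, ¬ (a + 1 = a ∧ b + 1 = b) ∧ ¬ (a = a ∧ b + 1 = b) ∧
        ¬ (a + 1 = a ∧ b = b) := by decide
    obtain ⟨d1, d2, d3⟩ := dec a b
    refine ⟨hne (a + 1, b + 1) ?_, hne (a, b + 1) ?_, hne (a + 1, b) ?_, ?_⟩
    · rw [Ne, Prod.mk.injEq]
      exact d1
    · rw [Ne, Prod.mk.injEq]
      exact d2
    · rw [Ne, Prod.mk.injEq]
      exact d3
    · rw [elx] at h
      split_ifs at h with h0
      · rw [Prod.mk.injEq] at h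
        obtain ⟨rfl, rfl⟩ := h
        change (x i).1 0 0 ≠ 0
        intro h1
        have h2 := (x i).2
        rw [Matrix.det_fin_two, h1, h0] at h2
        simp at h2
      · rw [Prod.mk.injEq] at h
        obtain ⟨rfl, rfl⟩ := h
        exact h0
  · left
    rw [mem_Yx]
    exact Or.inr ⟨hi, h⟩

/-- independence of the values -/
theorem ind_of {Ys : Finset (I × Fin 2 × Fin 2)}
    (hy : AlgebraicIndependent (ZMod 2) (fun s : Ys => pv x (X s.1))) :
    ∀ f ∈ Wd (cw Ysᶜ) 0, pv x f = 0 → f = 0 := by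
  intro f hf h0
  obtain ⟨p, hp⟩ : ∃ p : MvPolynomial Ys (ZMod 2),
      p = aeval (fun s => if h : s ∈ Ys then X ⟨s, h⟩ else 0) f := ⟨_, rfl⟩
  have h1 : aeval (fun s : Ys => pv x (X s.1)) p = pv x f := by
    rw [hp]
    have e1 : (aeval (fun s : Ys => pv x (X s.1)) : MvPolynomial Ys (ZMod 2) →ₐ[ZMod 2] F)
        ((aeval (fun s => if h : s ∈ Ys then X ⟨s, h⟩ else 0)) f) =
        aeval (fun s => if s ∈ Ys then pv x (X s) else 0) f := by
      rw [← AlgHom.comp_apply]
      congr 1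
      refine MvPolynomial.algHom_ext fun s => ?_
      rw [AlgHom.comp_apply, aeval_X, aeval_X]
      split_ifs with h
      · rw [aeval_X]
      · rw [map_zero]
    have e2 : pv x f = aeval (fun s => pv x (X s)) f := by
      have : pv x = aeval (fun s => pv x (X s)) :=
        MvPolynomial.algHom_ext fun s => by rw [aeval_X]
      conv_lhs => rw [this]
    rw [e1, e2]
    refine Wd_fix hf _ _ fun s hs => ?_
    rw [Finset.mem_compl, not_not] at hs
    rw [if_pos hs]
  have h2 : p = 0 := (injective_iff_map_eq_zero _).1 hy p (h1.trans h0)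
  have h3 : rename Subtype.val p = f := by
    rw [hp]
    have e1 : rename Subtype.val ((aeval (fun s => if h : s ∈ Ys then X ⟨s, h⟩ else 0) f :
        MvPolynomial Ys (ZMod 2))) = aeval (fun s => if s ∈ Ys then (X s : PR I) else 0) f := by
      rw [← AlgHom.comp_apply]
      congr 1
      refine MvPolynomial.algHom_ext fun s => ?_
      rw [AlgHom.comp_apply, aeval_X, aeval_X]
      split_ifs with h
      · rw [rename_X]
      · rw [map_zero]
    rw [e1]
    conv_rhs => rw [← aeval_X_left_apply f]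
    refine Wd_fix hf _ _ fun s hs => ?_
    rw [Finset.mem_compl, not_not] at hs
    rw [if_pos hs]
  rw [← h3, h2, map_zero]

/-- **The generic point of the slice.** -/
theorem exists_pt (hαβ : α ≠ β) (h : PL α β Pp P)
    (r : FreeGroup I →* Matrix.SpecialLinearGroup (Fin 2) F) (hr : r (zw α β P) = 1)
    (a c : F) (ha : a = (r (FreeGroup.of α)).1 0 0) (hc' : c = (r (FreeGroup.of α)).1 1 0)
    (hc : c ≠ 0) (ht : (r (FreeGroup.of α)).1.trace ≠ 0)
    (hP : a * (r P).1 1 0 + c * (r P).1 1 1 + c ≠ 0)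
    (hM : a * c * (r P * r (FreeGroup.of α)).1 0 0 - a ^ 2 * (r P * r (FreeGroup.of α)).1 1 0 +
      c ^ 2 * (r P * r (FreeGroup.of α)).1 0 1 - a * c * (r P * r (FreeGroup.of α)).1 1 1 ≠ 0)
    (hfull : ∀ A : Subfield F, (∀ w i j, (r w).1 i j ∈ A) → ∀ z, z ∈ A)
    (htr : ((3 * (Finset.univ.filter (fun i => ¬ (i = α ∨ i = β))).card + 3 : ℕ) : Cardinal) ≤
      Algebra.trdeg (ZMod 2) F) :
    ∃ x : I → Matrix.SpecialLinearGroup (Fin 2) F, Sl α β P x ∧ (∃ Ys, Gpt α β Pp x Ys) ∧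
      (∀ w, (FreeGroup.lift x w).1.trace = (r w).1.trace) := by
  obtain ⟨x, hx⟩ : ∃ x : I → Matrix.SpecialLinearGroup (Fin 2) F,
    x = fun i => cjH (a := a) hc (r (FreeGroup.of i)) := ⟨_, rfl⟩
  have hl : FreeGroup.lift x = (cjH (a := a) hc).comp r := by
    refine FreeGroup.ext_hom _ _ fun i => ?_
    rw [FreeGroup.lift_apply_of, hx]
    rfl
  have hlw : ∀ w, FreeGroup.lift x w = cjH (a := a) hc (r w) := fun w => by rw [hl]; rfl
  have hS : Sl α β P x := by
    obtain ⟨m, hm⟩ : ∃ m, m = (r (FreeGroup.of α)).1 := ⟨_, rfl⟩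
    have e : (x α).1 = !![m 0 0 - a / c * m 1 0,
        a * (m 0 0 - a / c * m 1 0) + c * (m 0 1 - a / c * m 1 1);
        c⁻¹ * m 1 0, a * (c⁻¹ * m 1 0) + c * (c⁻¹ * m 1 1)] := by
      rw [← conj_entries, hx, hm]
      rfl
    rw [← hm] at ha hc'
    refine ⟨?_, ?_, ?_⟩
    · rw [e]
      change m 0 0 - a / c * m 1 0 = 0
      rw [← ha, ← hc', div_mul_cancel₀ _ hc, sub_self]
    · rw [e]
      change c⁻¹ * m 1 0 = 1
      rw [← hc', inv_mul_cancel₀ hc]
    · rw [hlw, hr, map_one]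
  have htx : ∀ w, (FreeGroup.lift x w).1.trace = (r w).1.trace := by
    intro w
    rw [hlw, cjH_trace hc]
  have eP : pv x (Pp 1 1 + 1) ≠ 0 := by
    rw [map_add, map_one, ← ev_amk, h.lift, ev_rM_apply, hlw, cjH_val, conj_entries]
    change a * (c⁻¹ * (r P).1 1 0) + c * (c⁻¹ * (r P).1 1 1) + 1 ≠ 0
    intro h0
    apply hP
    have h1 : c * (a * (c⁻¹ * (r P).1 1 0) + c * (c⁻¹ * (r P).1 1 1) + 1) = 0 := by
      rw [h0, mul_zero]
    rw [← h1]
    field_simp
  have eM : pv x (Mp α Pp 0 1) ≠ 0 := by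
    have e1 : pv x (Mp α Pp 0 1) = ((FreeGroup.lift x P).1 * (x α).1) 0 1 := by
      rw [← ev_amk, h.Mp_lift, ← ev_rM, ← hS.map_jt, ← mapmul]
      rfl
    have e2 : (FreeGroup.lift x P).1 * (x α).1 =
        (cjH (a := a) hc (r P * r (FreeGroup.of α))).1 := by
      rw [map_mul, hlw, hx]
      rfl
    rw [e1, e2, cjH_val, conj_entries]
    change a * ((r P * r (FreeGroup.of α)).1 0 0 - a / c * (r P * r (FreeGroup.of α)).1 1 0) +
      c * ((r P * r (FreeGroup.of α)).1 0 1 - a / c * (r P * r (FreeGroup.of α)).1 1 1) ≠ 0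
    intro h0
    apply hM
    have h1 : c * (a * ((r P * r (FreeGroup.of α)).1 0 0 -
      a / c * (r P * r (FreeGroup.of α)).1 1 0) +
      c * ((r P * r (FreeGroup.of α)).1 0 1 - a / c * (r P * r (FreeGroup.of α)).1 1 1)) = 0 := by
      rw [h0, mul_zero]
    rw [← h1]
    field_simp
    ring
  have et : pv x (tp α) ≠ 0 := by
    rw [tp, pv_X]
    have h1 := htx (FreeGroup.of α)
    rw [FreeGroup.lift_apply_of, Matrix.trace_fin_two, hS.a00, zero_add] at h1
    rw [h1]
    exact ht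
  have hY0 : (β, 0, 0) ∈ Yx α β x := mem_Yx.2 (Or.inl rfl)
  have G0 : Gp0 α β Pp x (Yx α β x) := ⟨hY0, fun i hi a b => Yx_lett i hi a b, eP, eM, et⟩
  obtain ⟨y, hy⟩ : ∃ y : (Yx α β x) ⊕ Fin 2 → F,
    y = Sum.elim (fun s : Yx α β x => pv x (X s.1)) ![a, c] := ⟨_, rfl⟩
  have halg : Algebra.IsAlgebraic (Algebra.adjoin (ZMod 2) (Set.range y)) F := by
    refine ⟨fun z => ?_⟩
    have hmem : ∀ i, y i ∈ Af (Algebra.adjoin (ZMod 2) (Set.range y)) := fun i =>
      isAlgebraic_algebraMap (A := F) (⟨y i, Algebra.subset_adjoin ⟨i, rfl⟩⟩ :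
        Algebra.adjoin (ZMod 2) (Set.range y))
    have ha' : a ∈ Af (Algebra.adjoin (ZMod 2) (Set.range y)) := by
      have h1 := hmem (Sum.inr 0)
      rw [hy] at h1 ⊢
      exact h1
    have hc'' : c ∈ Af (Algebra.adjoin (ZMod 2) (Set.range y)) := by
      have h1 := hmem (Sum.inr 1)
      rw [hy] at h1 ⊢
      exact h1
    have hx' := G0.full h hS (Af (Algebra.adjoin (ZMod 2) (Set.range y))) (fun s hs => by
      have h1 := hmem (Sum.inl ⟨s, hs⟩)
      have h2 : y (Sum.inl ⟨s, hs⟩) = pv x (X s) := by rw [hy]; rfl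
      rw [h2] at h1
      exact h1) (Af_quad _)
    refine hfull (Af _) (fun w i j => ?_) z
    have h1 := word_mem hx' w
    rw [cjH_back hc (r w), ← hlw]
    have hmul : ∀ M N : Matrix (Fin 2) (Fin 2) F,
        (∀ a b, M a b ∈ Af (Algebra.adjoin (ZMod 2) (Set.range y))) →
        (∀ a b, N a b ∈ Af (Algebra.adjoin (ZMod 2) (Set.range y))) →
        ∀ a b, (M * N) a b ∈ Af (Algebra.adjoin (ZMod 2) (Set.range y)) := by
      intro M N hM hN a b
      rw [Matrix.mul_apply]
      exact Subfield.sum_mem _ fun j _ => Subfield.mul_mem _ (hM _ _) (hN _ _)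
    have k1 : ∀ i j, gam a c i j ∈ Af (Algebra.adjoin (ZMod 2) (Set.range y)) := by
      intro i j
      fin_cases i <;> fin_cases j
      · exact Subfield.one_mem _
      · exact ha'
      · exact Subfield.zero_mem _
      · exact hc''
    have k2 : ∀ i j, gai a c i j ∈ Af (Algebra.adjoin (ZMod 2) (Set.range y)) := by
      intro i j
      fin_cases i <;> fin_cases j
      · exact Subfield.one_mem _
      · exact Subfield.neg_mem _ (Subfield.div_mem _ ha' hc'')
      · exact Subfield.zero_mem _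
      · exact Subfield.inv_mem _ hc''
    exact hmul _ _ (hmul _ _ k1 h1) k2 i j
  have hcard : Cardinal.mk ((Yx α β x) ⊕ Fin 2) ≤ Algebra.trdeg (ZMod 2) F := by
    refine le_trans ?_ htr
    rw [Cardinal.mk_fintype, Fintype.card_sum, Fintype.card_coe, Fintype.card_fin]
    have := card_Yx (α := α) (β := β) (x := x)
    exact_mod_cast (by omega)
  have htb := Algebra.IsAlgebraic.isTranscendenceBasis_of_le_trdeg_of_finite (ZMod 2) y hcard
  have hind : AlgebraicIndependent (ZMod 2) (fun s : Yx α β x => pv x (X s.1)) := by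
    have h1 := htb.1.comp (Sum.inl : (Yx α β x) → (Yx α β x) ⊕ Fin 2) Sum.inl_injective
    have h2 : (y ∘ Sum.inl) = (fun s : Yx α β x => pv x (X s.1)) := by
      rw [hy]
      rfl
    rw [h2] at h1
    exact h1
  exact ⟨x, hS, ⟨Yx α β x, ⟨ind_of hind, hY0, fun i hi a b => Yx_lett i hi a b, eP, eM, et⟩⟩, htx⟩

end pt

end Pool.Agent.SuM
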